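import Pool.Agent.H89.P2.Df

/-!
# Patterns of primes in boxes (helper11): definitions

Boxes `[x^(j δ), x^((j+1) δ))`; `kk x δ n j` = number of primes of box `j` dividing `n`; `P2.mono P (kk x δ n)` is
the number of injective tuples of primes of pattern `P` dividing `n`.
-/

namespace Pool.Agent.H11.PT

open Finset Pool.Agent.H89.P2

/-- the primes of box `j` -/
noncomputable def cell (x δ : ℝ) (j : ℕ) : Finset ℕ :=
  (range ⌈x ^ (((j : ℝ) + 1) * δ)⌉₊).filter (fun p => p.Prime ∧ x ^ ((j : ℝ) * δ) ≤ (p : ℝ))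

/-- number of primes of box `j` dividing `n` -/
noncomputable def kk (x δ : ℝ) (n : ℕ) (j : ℕ) : ℕ := ((cell x δ j).filter (· ∣ n)).card

/-- mass of box `j` -/
noncomputable def ms (x δ : ℝ) (j : ℕ) : ℝ := ∑ p ∈ cell x δ j, (1 / (p : ℝ))

open Classical in
/-- injective tuples of pattern `P` -/
noncomputable def tp (x δ : ℝ) (P : List ℕ) : Finset (Fin P.length → ℕ) :=
  (Fintype.piFinset (fun i => cell x δ (P.get i))).filter Function.Injective

open Classical in
/-- number of injective tuples of pattern `P` with product `a` -/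
noncomputable def co (x δ : ℝ) (P : List ℕ) (a : ℕ) : ℝ :=
  (((tp x δ P).filter (fun t => ∏ i, t i = a)).card : ℝ)

end Pool.Agent.H11.PT
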