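import Pool.Agent.H11.PT.Cof
import Pool.Agent.H75.AP.MertensB

/-!
# [H11 PT MAI] The main term

Proof.  `ms_le`: `∑_{p ∈ cell j} 1/p ≤ B`, a constant depending on `δ, a0` only, for `j δ ≥ a0`, `x` large: trivially
`∑_{x^(jδ) ≤ p < x^((j+1)δ)} 1/p`; use Chebyshev in dyadic blocks: `∑_{2^i ≤ p < 2^(i+1)} 1/p ≤ π(2^(i+1))/2^i ≤
C/i`, so the sum is `≤ C' (log ratio + 1) `; or the library (Mertens).  (`j ≤ 1/δ` may be assumed because the
pattern is fixed: `B` may depend on the patterns.)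
Main: all sums are over tuples: by `co_sum` the left sum is `∑_{(t,u,v,w)} [conditions] 1/(∏t ∏u ∏v ∏w)` over
`tp P × tp Q × tp R × tp S`, while the product of masses is the sum over all (not nec. injective) tuples.  The
two index sets differ by quadruples in which two of the entries are equal; `Z` lies between
`all coprime` and `everything` and all terms are nonnegative; for a given pair of positions the
total weight is `≤ (∑_{p ≥ x^a0} 1/p^2) B^(number of positions - 2) ≤ 2 x^(-a0) B^n`; the number of pairs of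
positions is `≤ n^2`, `n` the total length.
-/

namespace Pool.Agent.H11.PT

open Finset Pool.Agent.H89.P2

theorem ms_le (δ : ℝ) (hδ : 0 < δ) (j : ℕ) (hj : 0 < j) :
    ∃ B x0 : ℝ, ∀ x ≥ x0, ms x δ j ≤ B := by
  have hj0 : (0 : ℝ) < j := by exact_mod_cast hj
  have hR : (1 : ℝ) < ((j : ℝ) + 1) / j := by
    rw [lt_div_iff₀ hj0]
    linarith
  obtain ⟨u0, hu0, h⟩ := Pool.Agent.H75.AP.mertens_ratio (((j : ℝ) + 1) / j) 1 hR one_pos
  have hjδ : 0 < (j : ℝ) * δ := by positivity
  refine ⟨1 + (Real.log (((j : ℝ) + 1) / j) + 1), u0 ^ (1 / ((j : ℝ) * δ)), fun x hx => ?_⟩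
  have hu00 : 0 < u0 := by linarith
  have hx0 : 0 < x := lt_of_lt_of_le (Real.rpow_pos_of_pos hu00 _) hx
  set u : ℝ := x ^ ((j : ℝ) * δ) with hu
  have huu : u0 ≤ u := by
    have h1 := Real.rpow_le_rpow (Real.rpow_nonneg hu00.le _) hx hjδ.le
    rwa [← Real.rpow_mul hu00.le, one_div_mul_cancel hjδ.ne', Real.rpow_one] at h1
  have hu1 : 1 < u := lt_of_lt_of_le hu0 huu
  have hv : x ^ (((j : ℝ) + 1) * δ) = u ^ (((j : ℝ) + 1) / j) := by
    rw [hu, ← Real.rpow_mul hx0.le]
    congr 1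
    field_simp
  have h1 := h u (x ^ (((j : ℝ) + 1) * δ)) huu hv.le
  have hsub : cell x δ j ⊆ insert ⌊u⌋₊ (Pool.Agent.H75.AP.PI u (x ^ (((j : ℝ) + 1) * δ))) := by
    intro p hp
    have hpr := cell_prime hp
    have hlo := cell_lo hp
    have hhi := cell_hi hp
    rcases eq_or_lt_of_le hlo with he | hl
    · refine Finset.mem_insert.2 (Or.inl ?_)
      rw [hu, he, Nat.floor_natCast]
    · refine Finset.mem_insert.2 (Or.inr ?_)
      unfold Pool.Agent.H75.AP.PI
      rw [Finset.mem_filter, Finset.mem_range]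
      exact ⟨Nat.lt_succ_of_le (Nat.le_floor hhi.le), hpr, hl⟩
  unfold ms
  calc ∑ p ∈ cell x δ j, (1 / (p : ℝ))
      ≤ ∑ p ∈ insert ⌊u⌋₊ (Pool.Agent.H75.AP.PI u (x ^ (((j : ℝ) + 1) * δ))), (1 / (p : ℝ)) :=
        Finset.sum_le_sum_of_subset_of_nonneg hsub fun p _ _ => by positivity
    _ ≤ 1 / ((⌊u⌋₊ : ℕ) : ℝ) +
          ∑ p ∈ Pool.Agent.H75.AP.PI u (x ^ (((j : ℝ) + 1) * δ)), (1 / (p : ℝ)) := by
        classical
        by_cases hmem : ⌊u⌋₊ ∈ Pool.Agent.H75.AP.PI u (x ^ (((j : ℝ) + 1) * δ))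
        · rw [Finset.insert_eq_of_mem hmem]
          have : (0 : ℝ) ≤ 1 / ((⌊u⌋₊ : ℕ) : ℝ) := by positivity
          linarith
        · rw [Finset.sum_insert hmem]
    _ ≤ 1 + (Real.log (((j : ℝ) + 1) / j) + 1) := by
        have h2 : (1 : ℝ) ≤ ((⌊u⌋₊ : ℕ) : ℝ) := by
          exact_mod_cast (Nat.one_le_floor_iff u).2 hu1.le
        have h3 : 1 / ((⌊u⌋₊ : ℕ) : ℝ) ≤ 1 := by
          rw [div_le_one (by linarith)]
          exact h2
        linarith

/-- a common bound for the masses of finitely many boxes -/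
theorem ms_le_all (δ : ℝ) (hδ : 0 < δ) (T : List ℕ) (hT : ∀ j ∈ T, 0 < j) :
    ∃ B x0 : ℝ, 1 ≤ B ∧ ∀ j ∈ T, ∀ x ≥ x0, ms x δ j ≤ B := by
  induction T with
  | nil => exact ⟨1, 0, le_rfl, fun j hj => absurd hj (List.not_mem_nil)⟩
  | cons a T ih =>
    obtain ⟨B, x0, hB, h⟩ := ih fun j hj => hT j (List.mem_cons_of_mem _ hj)
    obtain ⟨B', x0', h'⟩ := ms_le δ hδ a (hT a (List.mem_cons_self))
    refine ⟨max B B', max x0 x0', hB.trans (le_max_left _ _), fun j hj x hx => ?_⟩
    rcases List.mem_cons.1 hj with rfl | hj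
    · exact (h' x (le_trans (le_max_right _ _) hx)).trans (le_max_right _ _)
    · exact (h j hj x (le_trans (le_max_left _ _) hx)).trans (le_max_left _ _)

/-- the weight of a tuple -/
noncomputable def wt {ι : Type*} [Fintype ι] (s : ι → ℕ) : ℝ := ∏ k, (1 / (s k : ℝ))

theorem wt_nonneg {ι : Type*} [Fintype ι] (s : ι → ℕ) : 0 ≤ wt s :=
  Finset.prod_nonneg fun k _ => by positivity

open Classical in
theorem wt_sum {ι : Type*} [Fintype ι] [DecidableEq ι] (A : ι → Finset ℕ) :
    ∑ s ∈ Fintype.piFinset A, wt s = ∏ k, ∑ p ∈ A k, (1 / (p : ℝ)) := by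
  rw [Finset.prod_univ_sum]
  rfl

open Classical in
/-- the weight of the tuples with two equal entries at given positions -/
theorem pair_le {ι : Type*} [Fintype ι] [DecidableEq ι] (A : ι → Finset ℕ) (y B : ℝ) (hy : 0 < y) (hB : 1 ≤ B)
    (hA : ∀ k, ∀ p ∈ A k, y ≤ (p : ℝ)) (hs : ∀ k, ∑ p ∈ A k, (1 / (p : ℝ)) ≤ B) (k l : ι)
    (hkl : k ≠ l) :
    ∑ s ∈ Fintype.piFinset A, (if s k = s l then wt s else 0) ≤
      B ^ (Fintype.card ι) / y := by
  have hB0 : 0 < B := by linarith
  -- the product weights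
  let g : ℕ → ι → ℕ → ℝ := fun q m p =>
    if m = k then (if p = q then 1 else 0) else if m = l then (if p = q then 1 / (p : ℝ) else 0)
      else 1 / (p : ℝ)
  have hg0 : ∀ q m p, 0 ≤ g q m p := by
    intro q m p
    simp only [g]
    split_ifs <;> positivity
  have h1 : ∀ s ∈ Fintype.piFinset A, (if s k = s l then wt s else 0) ≤
      1 / y * ∑ q ∈ A k, ∏ m, g q m (s m) := by
    intro s hs
    rw [Fintype.mem_piFinset] at hs
    have hnn : 0 ≤ 1 / y * ∑ q ∈ A k, ∏ m, g q m (s m) :=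
      mul_nonneg (by positivity) (Finset.sum_nonneg fun q _ =>
        Finset.prod_nonneg fun m _ => hg0 q m (s m))
    split_ifs with h
    · have h2 : ∏ m, g (s k) m (s m) ≤ ∑ q ∈ A k, ∏ m, g q m (s m) :=
        Finset.single_le_sum (f := fun q => ∏ m, g q m (s m))
          (fun q _ => Finset.prod_nonneg fun m _ => hg0 q m (s m)) (hs k)
      have h3 : wt s = 1 / (s k : ℝ) * ∏ m, g (s k) m (s m) := by
        unfold wt
        rw [← Finset.mul_prod_erase Finset.univ (fun m => 1 / (s m : ℝ)) (Finset.mem_univ k),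
          ← Finset.mul_prod_erase Finset.univ (fun m => g (s k) m (s m)) (Finset.mem_univ k)]
        have h4 : g (s k) k (s k) = 1 := by simp [g]
        rw [h4, one_mul]
        congr 1
        refine Finset.prod_congr rfl fun m hm => ?_
        have hmk : m ≠ k := (Finset.mem_erase.1 hm).1
        simp only [g, if_neg hmk]
        by_cases hml : m = l
        · rw [if_pos hml, hml, if_pos h.symm]
        · rw [if_neg hml]
      rw [h3]
      have h5 : 1 / (s k : ℝ) ≤ 1 / y := one_div_le_one_div_of_le hy (hA k _ (hs k))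
      exact mul_le_mul h5 h2 (Finset.prod_nonneg fun m _ => hg0 _ _ _) (by positivity)
    · exact hnn
  have h6 : ∑ s ∈ Fintype.piFinset A, (if s k = s l then wt s else 0) ≤
      1 / y * ∑ q ∈ A k, ∏ m, ∑ p ∈ A m, g q m p := by
    refine (Finset.sum_le_sum h1).trans ?_
    rw [← Finset.mul_sum, Finset.sum_comm]
    refine le_of_eq ?_
    congr 1
    refine Finset.sum_congr rfl fun q _ => ?_
    rw [Finset.prod_univ_sum]
  have h7 : ∀ q ∈ A k, ∏ m, ∑ p ∈ A m, g q m p ≤ 1 / (q : ℝ) * B ^ (Fintype.card ι - 1) := by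
    intro q hq
    have h8 : ∏ m, ∑ p ∈ A m, g q m p ≤ ∏ m, (if m = l then 1 / (q : ℝ) else B) := by
      refine Finset.prod_le_prod (fun m _ => Finset.sum_nonneg fun p _ => hg0 _ _ _) ?_
      intro m _
      by_cases hmk : m = k
      · have hml : m ≠ l := by rw [hmk]; exact hkl
        rw [if_neg hml]
        have : ∑ p ∈ A m, g q m p ≤ 1 := by
          simp only [g, if_pos hmk]
          rw [Finset.sum_ite_eq' (A m) q (fun _ => (1 : ℝ))]
          split_ifs <;> norm_num
        linarith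
      · by_cases hml : m = l
        · rw [if_pos hml]
          simp only [g, if_neg hmk, if_pos hml]
          rw [Finset.sum_ite_eq' (A m) q (fun p => 1 / (p : ℝ))]
          split_ifs
          · exact le_rfl
          · positivity
        · rw [if_neg hml]
          simp only [g, if_neg hmk, if_neg hml]
          exact hs m
    refine h8.trans (le_of_eq ?_)
    rw [← Finset.mul_prod_erase Finset.univ _ (Finset.mem_univ l), if_pos rfl]
    congr 1
    rw [Finset.prod_congr rfl (g := fun _ => B) (fun m hm => if_neg (Finset.mem_erase.1 hm).1),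
      Finset.prod_const, Finset.card_erase_of_mem (Finset.mem_univ l), Finset.card_univ]
  have hcard : 1 ≤ Fintype.card ι := Fintype.card_pos_iff.2 ⟨k⟩
  refine h6.trans ?_
  have h9 : ∑ q ∈ A k, ∏ m, ∑ p ∈ A m, g q m p ≤ B ^ Fintype.card ι := by
    refine (Finset.sum_le_sum h7).trans ?_
    rw [← Finset.sum_mul]
    calc (∑ q ∈ A k, 1 / (q : ℝ)) * B ^ (Fintype.card ι - 1)
        ≤ B * B ^ (Fintype.card ι - 1) := mul_le_mul_of_nonneg_right (hs k) (by positivity)
      _ = B ^ Fintype.card ι := by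
          rw [← pow_succ', Nat.sub_add_cancel hcard]
  calc 1 / y * ∑ q ∈ A k, ∏ m, ∑ p ∈ A m, g q m p ≤ 1 / y * B ^ Fintype.card ι :=
        mul_le_mul_of_nonneg_left h9 (by positivity)
    _ = _ := by ring

open Classical in
/-- the weight of the tuples which are not injective -/
theorem noninj_le {ι : Type*} [Fintype ι] [DecidableEq ι] (A : ι → Finset ℕ) (y B : ℝ) (hy : 0 < y) (hB : 1 ≤ B)
    (hA : ∀ k, ∀ p ∈ A k, y ≤ (p : ℝ)) (hs : ∀ k, ∑ p ∈ A k, (1 / (p : ℝ)) ≤ B) :
    ∑ s ∈ Fintype.piFinset A, (if Function.Injective s then 0 else wt s) ≤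
      (Fintype.card ι : ℝ) ^ 2 * B ^ (Fintype.card ι) / y := by
  have h1 : ∀ s ∈ Fintype.piFinset A, (if Function.Injective s then 0 else wt s) ≤
      ∑ k, ∑ l, (if k ≠ l then (if s k = s l then wt s else 0) else 0) := by
    intro s _
    have hterm : ∀ k l : ι, 0 ≤ (if k ≠ l then (if s k = s l then wt s else 0) else 0) := by
      intro k l
      have := wt_nonneg s
      split_ifs <;> first | exact this | exact le_rfl
    split_ifs with h
    · exact Finset.sum_nonneg fun k _ => Finset.sum_nonneg fun l _ => hterm k l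
    · unfold Function.Injective at h
      push Not at h
      obtain ⟨k, l, hkl, hne⟩ := h
      have h2 : wt s = (if k ≠ l then (if s k = s l then wt s else 0) else 0) := by
        rw [if_pos hne, if_pos hkl]
      calc wt s = (if k ≠ l then (if s k = s l then wt s else 0) else 0) := h2
        _ ≤ ∑ l, (if k ≠ l then (if s k = s l then wt s else 0) else 0) :=
            Finset.single_le_sum (f := fun l => if k ≠ l then (if s k = s l then wt s else 0) else 0)
              (fun l _ => hterm k l) (Finset.mem_univ l)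
        _ ≤ ∑ k, ∑ l, (if k ≠ l then (if s k = s l then wt s else 0) else 0) :=
            Finset.single_le_sum
              (f := fun k => ∑ l, if k ≠ l then (if s k = s l then wt s else 0) else 0)
              (fun k _ => Finset.sum_nonneg fun l _ => hterm k l) (Finset.mem_univ k)
  refine (Finset.sum_le_sum h1).trans ?_
  rw [Finset.sum_comm]
  have hB0 : 0 < B := by linarith
  have h3 : ∀ k : ι, ∑ s ∈ Fintype.piFinset A,
      ∑ l, (if k ≠ l then (if s k = s l then wt s else 0) else 0) ≤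
        (Fintype.card ι : ℝ) * (B ^ (Fintype.card ι) / y) := by
    intro k
    rw [Finset.sum_comm]
    have h4 : ∀ l ∈ (Finset.univ : Finset ι), ∑ s ∈ Fintype.piFinset A,
        (if k ≠ l then (if s k = s l then wt s else 0) else 0) ≤ B ^ (Fintype.card ι) / y := by
      intro l _
      by_cases hkl : k ≠ l
      · simp only [if_pos hkl]
        exact pair_le A y B hy hB hA hs k l hkl
      · simp only [if_neg hkl, Finset.sum_const_zero]
        positivity
    refine (Finset.sum_le_sum h4).trans (le_of_eq ?_)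
    rw [Finset.sum_const, Finset.card_univ, nsmul_eq_mul]
  refine (Finset.sum_le_sum fun k _ => h3 k).trans (le_of_eq ?_)
  rw [Finset.sum_const, Finset.card_univ, nsmul_eq_mul]
  ring

open Classical in
/-- pairs of tuples are tuples indexed by the sum -/
theorem sum_pair {ι κ : Type*} [Fintype ι] [Fintype κ] [DecidableEq ι] [DecidableEq κ] (A : ι → Finset ℕ) (B : κ → Finset ℕ)
    (h : (ι → ℕ) → (κ → ℕ) → ℝ) :
    ∑ t ∈ Fintype.piFinset A, ∑ u ∈ Fintype.piFinset B, h t u =
      ∑ s ∈ Fintype.piFinset (Sum.elim A B), h (fun i => s (Sum.inl i)) (fun i => s (Sum.inr i)) := by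
  rw [← Finset.sum_product']
  refine Finset.sum_nbij' (fun p => Sum.elim p.1 p.2)
    (fun s => (fun i => s (Sum.inl i), fun i => s (Sum.inr i))) ?_ ?_ ?_ ?_ ?_
  · intro p hp
    rw [Finset.mem_product, Fintype.mem_piFinset, Fintype.mem_piFinset] at hp
    rw [Fintype.mem_piFinset]
    rintro (i | i)
    · exact hp.1 i
    · exact hp.2 i
  · intro s hs
    rw [Fintype.mem_piFinset] at hs
    rw [Finset.mem_product, Fintype.mem_piFinset, Fintype.mem_piFinset]
    exact ⟨fun i => hs (Sum.inl i), fun i => hs (Sum.inr i)⟩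
  · intro p _
    rfl
  · intro s _
    funext i
    rcases i with i | i <;> rfl
  · intro p _
    rfl

open Classical in
theorem tp_sum (x δ : ℝ) (P : List ℕ) (h : (Fin P.length → ℕ) → ℝ) :
    ∑ t ∈ tp x δ P, h t = ∑ t ∈ Fintype.piFinset (fun i => cell x δ (P.get i)),
      (if Function.Injective t then h t else 0) := by
  unfold tp
  rw [Finset.sum_filter]

theorem mass_prod (x δ : ℝ) (P : List ℕ) :
    (P.map (ms x δ)).prod = ∏ i : Fin P.length, ∑ p ∈ cell x δ (P.get i), (1 / (p : ℝ)) := by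
  rw [← Fin.prod_univ_fun_getElem P (ms x δ)]
  rfl

open Classical in
theorem co_ne (x δ : ℝ) (P : List ℕ) (t : Fin P.length → ℕ) (ht : t ∈ tp x δ P) :
    co x δ P (∏ i, t i) ≠ 0 := by
  unfold co
  have h : 0 < ((tp x δ P).filter (fun t' => ∏ i, t' i = ∏ i, t i)).card :=
    Finset.card_pos.2 ⟨t, Finset.mem_filter.2 ⟨ht, rfl⟩⟩
  exact_mod_cast h.ne'

theorem coprime_prods {ι κ : Type*} [Fintype ι] [Fintype κ] (t : ι → ℕ) (u : κ → ℕ)
    (ht : ∀ i, (t i).Prime) (hu : ∀ i, (u i).Prime) (h : ∀ i j, t i ≠ u j) :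
    Nat.Coprime (∏ i, t i) (∏ j, u j) :=
  Nat.Coprime.prod_left fun i _ => Nat.Coprime.prod_right fun j _ =>
    (Nat.coprime_primes (ht i) (hu j)).2 (h i j)

theorem wt_elim {ι κ : Type*} [Fintype ι] [Fintype κ] (s : ι ⊕ κ → ℕ) :
    wt s = wt (fun i => s (Sum.inl i)) * wt (fun i => s (Sum.inr i)) := by
  unfold wt
  rw [Fintype.prod_sum_type]

theorem wt_eq {ι : Type*} [Fintype ι] (s : ι → ℕ) : wt s = 1 / ((∏ i, s i : ℕ) : ℝ) := by
  unfold wt
  rw [Nat.cast_prod, one_div, ← Finset.prod_inv_distrib]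
  exact Finset.prod_congr rfl fun k _ => one_div _

open Classical in
/-- nested sums over injective tuples -/
theorem tp_sum4 (x δ : ℝ) (P Q R S : List ℕ)
    (h : (Fin P.length → ℕ) → (Fin Q.length → ℕ) → (Fin R.length → ℕ) → (Fin S.length → ℕ) → ℝ) :
    ∑ t ∈ tp x δ P, ∑ u ∈ tp x δ Q, ∑ v ∈ tp x δ R, ∑ w ∈ tp x δ S, h t u v w =
      ∑ t ∈ Fintype.piFinset (fun i => cell x δ (P.get i)),
      ∑ u ∈ Fintype.piFinset (fun i => cell x δ (Q.get i)),
      ∑ v ∈ Fintype.piFinset (fun i => cell x δ (R.get i)),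
      ∑ w ∈ Fintype.piFinset (fun i => cell x δ (S.get i)),
        (if Function.Injective t then (if Function.Injective u then (if Function.Injective v then
          (if Function.Injective w then h t u v w else 0) else 0) else 0) else 0) := by
  rw [tp_sum]
  refine Finset.sum_congr rfl fun t _ => ?_
  by_cases ht : Function.Injective t
  swap
  · simp only [if_neg ht, Finset.sum_const_zero]
  simp only [if_pos ht]
  rw [tp_sum]
  refine Finset.sum_congr rfl fun u _ => ?_
  by_cases hu : Function.Injective u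
  swap
  · simp only [if_neg hu, Finset.sum_const_zero]
  simp only [if_pos hu]
  rw [tp_sum]
  refine Finset.sum_congr rfl fun v _ => ?_
  by_cases hv : Function.Injective v
  swap
  · simp only [if_neg hv, Finset.sum_const_zero]
  simp only [if_pos hv]
  rw [tp_sum]

open Classical in
theorem sum_four {α β γ ε : Type*} [Fintype α] [Fintype β] [Fintype γ] [Fintype ε]
    [DecidableEq α] [DecidableEq β] [DecidableEq γ] [DecidableEq ε]
    (A : α → Finset ℕ) (B : β → Finset ℕ) (C : γ → Finset ℕ) (D : ε → Finset ℕ)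
    (h : (α → ℕ) → (β → ℕ) → (γ → ℕ) → (ε → ℕ) → ℝ) :
    ∑ t ∈ Fintype.piFinset A, ∑ u ∈ Fintype.piFinset B, ∑ v ∈ Fintype.piFinset C,
      ∑ w ∈ Fintype.piFinset D, h t u v w =
      ∑ s ∈ Fintype.piFinset (Sum.elim A (Sum.elim B (Sum.elim C D))),
        h (fun i => s (Sum.inl i)) (fun i => s (Sum.inr (Sum.inl i)))
          (fun i => s (Sum.inr (Sum.inr (Sum.inl i)))) (fun i => s (Sum.inr (Sum.inr (Sum.inr i)))) := by
  calc ∑ t ∈ Fintype.piFinset A, ∑ u ∈ Fintype.piFinset B, ∑ v ∈ Fintype.piFinset C,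
      ∑ w ∈ Fintype.piFinset D, h t u v w
      = ∑ t ∈ Fintype.piFinset A, ∑ u ∈ Fintype.piFinset B,
          ∑ s ∈ Fintype.piFinset (Sum.elim C D), h t u (fun i => s (Sum.inl i))
            (fun i => s (Sum.inr i)) :=
        Finset.sum_congr rfl fun t _ => Finset.sum_congr rfl fun u _ => sum_pair C D (h t u)
    _ = ∑ t ∈ Fintype.piFinset A, ∑ s ∈ Fintype.piFinset (Sum.elim B (Sum.elim C D)),
          h t (fun i => s (Sum.inl i)) (fun i => s (Sum.inr (Sum.inl i)))
            (fun i => s (Sum.inr (Sum.inr i))) :=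
        Finset.sum_congr rfl fun t _ => sum_pair B (Sum.elim C D)
          (fun u s => h t u (fun i => s (Sum.inl i)) (fun i => s (Sum.inr i)))
    _ = _ := sum_pair A (Sum.elim B (Sum.elim C D))
          (fun t s => h t (fun i => s (Sum.inl i)) (fun i => s (Sum.inr (Sum.inl i)))
            (fun i => s (Sum.inr (Sum.inr i))))

open Classical in
theorem main_term (δ a0 : ℝ) (hδ : 0 < δ) (ha0 : 0 < a0) (P Q R S : List ℕ)
    (hP : ∀ j ∈ P, a0 ≤ (j : ℝ) * δ) (hQ : ∀ j ∈ Q, a0 ≤ (j : ℝ) * δ)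
    (hR : ∀ j ∈ R, a0 ≤ (j : ℝ) * δ) (hS : ∀ j ∈ S, a0 ≤ (j : ℝ) * δ) :
    ∃ C x0 : ℝ, 0 < C ∧ ∀ x ≥ x0, ∀ (NA NB NC ND : ℕ) (Z : ℕ → ℕ → ℕ → ℕ → Prop),
      (∀ a b e f, co x δ P a * co x δ Q b * co x δ R e * co x δ S f ≠ 0 → Nat.Coprime a b →
        Nat.Coprime e f → Nat.Coprime (a * b) (e * f) → Z a b e f) →
      ⌊x ^ ((size P : ℝ) * δ)⌋₊ ≤ NA → ⌊x ^ ((size Q : ℝ) * δ)⌋₊ ≤ NB →
      ⌊x ^ ((size R : ℝ) * δ)⌋₊ ≤ NC → ⌊x ^ ((size S : ℝ) * δ)⌋₊ ≤ ND →
      |∑ a ∈ Icc 1 NA, ∑ b ∈ Icc 1 NB, ∑ e ∈ Icc 1 NC, ∑ f ∈ Icc 1 ND,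
          (if Z a b e f then
            co x δ P a * co x δ Q b * co x δ R e * co x δ S f *
              (1 / ((a : ℝ) * b * e * f)) else 0) -
        (P.map (ms x δ)).prod * (Q.map (ms x δ)).prod * (R.map (ms x δ)).prod *
          (S.map (ms x δ)).prod| ≤ C * x ^ (-a0) := by
  have hall : ∀ j ∈ P ++ (Q ++ (R ++ S)), a0 ≤ (j : ℝ) * δ := by
    intro j hj
    simp only [List.mem_append] at hj
    rcases hj with h | h | h | h
    · exact hP j h
    · exact hQ j h
    · exact hR j h
    · exact hS j h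
  have hpos : ∀ j ∈ P ++ (Q ++ (R ++ S)), 0 < j := by
    intro j hj
    have h1 := hall j hj
    rcases Nat.eq_zero_or_pos j with h | h
    · rw [h, Nat.cast_zero, zero_mul] at h1
      linarith
    · exact h
  obtain ⟨B, x0, hB, hms⟩ := ms_le_all δ hδ _ hpos
  have hB0 : 0 < B := by linarith
  refine ⟨(Fintype.card (Fin P.length ⊕ (Fin Q.length ⊕ (Fin R.length ⊕ Fin S.length))) : ℝ) ^ 2 *
    B ^ (Fintype.card (Fin P.length ⊕ (Fin Q.length ⊕ (Fin R.length ⊕ Fin S.length)))) + 1,
    max x0 2, by positivity, ?_⟩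
  intro x hx NA NB NC ND Z hZ hNA hNB hNC hND
  have hxx0 : x0 ≤ x := (le_max_left _ _).trans hx
  have hx2 : (2 : ℝ) ≤ x := (le_max_right _ _).trans hx
  have hx1 : 1 < x := by linarith
  have hx0 : 0 < x := by linarith
  have hy : 0 < x ^ a0 := Real.rpow_pos_of_pos hx0 _
  set A : Fin P.length ⊕ (Fin Q.length ⊕ (Fin R.length ⊕ Fin S.length)) → Finset ℕ :=
    Sum.elim (fun i => cell x δ (P.get i)) (Sum.elim (fun i => cell x δ (Q.get i))
      (Sum.elim (fun i => cell x δ (R.get i)) (fun i => cell x δ (S.get i)))) with hA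
  have hAj : ∀ k, ∃ j ∈ P ++ (Q ++ (R ++ S)), A k = cell x δ j := by
    rintro (i | i | i | i)
    · exact ⟨P.get i, by simp only [List.mem_append]; exact Or.inl (List.get_mem P i), rfl⟩
    · exact ⟨Q.get i, by
        simp only [List.mem_append]; exact Or.inr (Or.inl (List.get_mem Q i)), rfl⟩
    · exact ⟨R.get i, by
        simp only [List.mem_append]; exact Or.inr (Or.inr (Or.inl (List.get_mem R i))), rfl⟩
    · exact ⟨S.get i, by
        simp only [List.mem_append]; exact Or.inr (Or.inr (Or.inr (List.get_mem S i))), rfl⟩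
  have hAp : ∀ k, ∀ p ∈ A k, p.Prime := by
    intro k p hp
    obtain ⟨j, -, hj⟩ := hAj k
    rw [hj] at hp
    exact cell_prime hp
  have hAlo : ∀ k, ∀ p ∈ A k, x ^ a0 ≤ (p : ℝ) := by
    intro k p hp
    obtain ⟨j, hj1, hj⟩ := hAj k
    rw [hj] at hp
    exact (Real.rpow_le_rpow_of_exponent_le hx1.le (hall j hj1)).trans (cell_lo hp)
  have hAs : ∀ k, ∑ p ∈ A k, (1 / (p : ℝ)) ≤ B := by
    intro k
    obtain ⟨j, hj1, hj⟩ := hAj k
    rw [hj]
    exact hms j hj1 x hxx0
  -- the left side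
  have e1 : (∑ a ∈ Icc 1 NA, ∑ b ∈ Icc 1 NB, ∑ e ∈ Icc 1 NC, ∑ f ∈ Icc 1 ND,
          (if Z a b e f then
            co x δ P a * co x δ Q b * co x δ R e * co x δ S f *
              (1 / ((a : ℝ) * b * e * f)) else 0)) =
      ∑ t ∈ tp x δ P, ∑ u ∈ tp x δ Q, ∑ v ∈ tp x δ R, ∑ w ∈ tp x δ S,
        (if Z (∏ i, t i) (∏ i, u i) (∏ i, v i) (∏ i, w i) then
          wt t * (wt u * (wt v * wt w)) else 0) := by
    have h1 : (∑ a ∈ Icc 1 NA, ∑ b ∈ Icc 1 NB, ∑ e ∈ Icc 1 NC, ∑ f ∈ Icc 1 ND,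
          (if Z a b e f then
            co x δ P a * co x δ Q b * co x δ R e * co x δ S f *
              (1 / ((a : ℝ) * b * e * f)) else 0)) =
        ∑ a ∈ Icc 1 NA, co x δ P a * (∑ b ∈ Icc 1 NB, co x δ Q b * (∑ e ∈ Icc 1 NC,
          co x δ R e * (∑ f ∈ Icc 1 ND, co x δ S f *
            (if Z a b e f then 1 / ((a : ℝ) * b * e * f) else 0)))) := by
      refine Finset.sum_congr rfl fun a _ => ?_
      rw [Finset.mul_sum]
      refine Finset.sum_congr rfl fun b _ => ?_
      rw [Finset.mul_sum, Finset.mul_sum]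
      refine Finset.sum_congr rfl fun e _ => ?_
      rw [Finset.mul_sum, Finset.mul_sum, Finset.mul_sum]
      refine Finset.sum_congr rfl fun f _ => ?_
      split_ifs <;> ring
    rw [h1, co_sum x δ hx1 hδ P NA hNA (fun a => ∑ b ∈ Icc 1 NB, co x δ Q b * (∑ e ∈ Icc 1 NC,
          co x δ R e * (∑ f ∈ Icc 1 ND, co x δ S f *
            (if Z a b e f then 1 / ((a : ℝ) * b * e * f) else 0))))]
    refine Finset.sum_congr rfl fun t _ => ?_
    rw [co_sum x δ hx1 hδ Q NB hNB (fun b => ∑ e ∈ Icc 1 NC,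
          co x δ R e * (∑ f ∈ Icc 1 ND, co x δ S f *
            (if Z (∏ i, t i) b e f then 1 / (((∏ i, t i : ℕ) : ℝ) * b * e * f) else 0)))]
    refine Finset.sum_congr rfl fun u _ => ?_
    rw [co_sum x δ hx1 hδ R NC hNC (fun e => ∑ f ∈ Icc 1 ND, co x δ S f *
            (if Z (∏ i, t i) (∏ i, u i) e f then
              1 / (((∏ i, t i : ℕ) : ℝ) * ((∏ i, u i : ℕ) : ℝ) * e * f) else 0))]
    refine Finset.sum_congr rfl fun v _ => ?_
    rw [co_sum x δ hx1 hδ S ND hND (fun f =>
            (if Z (∏ i, t i) (∏ i, u i) (∏ i, v i) f then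
              1 / (((∏ i, t i : ℕ) : ℝ) * ((∏ i, u i : ℕ) : ℝ) * ((∏ i, v i : ℕ) : ℝ) * f) else 0))]
    refine Finset.sum_congr rfl fun w _ => ?_
    rw [wt_eq t, wt_eq u, wt_eq v, wt_eq w]
    congr 1
    rw [one_div_mul_one_div, one_div_mul_one_div, one_div_mul_one_div, mul_assoc, mul_assoc]
  rw [e1, tp_sum4, sum_four]
  have hM : (P.map (ms x δ)).prod * (Q.map (ms x δ)).prod * (R.map (ms x δ)).prod *
      (S.map (ms x δ)).prod = ∑ s ∈ Fintype.piFinset A, wt s := by
    rw [wt_sum, Fintype.prod_sum_type, Fintype.prod_sum_type, Fintype.prod_sum_type,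
      mass_prod, mass_prod, mass_prod, mass_prod, mul_assoc, mul_assoc]
    rfl
  rw [hM, ← hA, ← Finset.sum_sub_distrib]
  refine (Finset.abs_sum_le_sum_abs _ _).trans ?_
  have hbound : ∀ s ∈ Fintype.piFinset A,
      |(if Function.Injective (fun i => s (Sum.inl i)) then
          (if Function.Injective (fun i => s (Sum.inr (Sum.inl i))) then
          (if Function.Injective (fun i => s (Sum.inr (Sum.inr (Sum.inl i)))) then
          (if Function.Injective (fun i => s (Sum.inr (Sum.inr (Sum.inr i)))) then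
          (if Z (∏ i, s (Sum.inl i)) (∏ i, s (Sum.inr (Sum.inl i)))
            (∏ i, s (Sum.inr (Sum.inr (Sum.inl i)))) (∏ i, s (Sum.inr (Sum.inr (Sum.inr i)))) then
          wt (fun i => s (Sum.inl i)) * (wt (fun i => s (Sum.inr (Sum.inl i))) *
            (wt (fun i => s (Sum.inr (Sum.inr (Sum.inl i)))) *
              wt (fun i => s (Sum.inr (Sum.inr (Sum.inr i))))))
          else 0) else 0) else 0) else 0) else 0) - wt s| ≤
        (if Function.Injective s then 0 else wt s) := by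
    intro s hs
    rw [Fintype.mem_piFinset] at hs
    have hw : wt (fun i => s (Sum.inl i)) * (wt (fun i => s (Sum.inr (Sum.inl i))) *
            (wt (fun i => s (Sum.inr (Sum.inr (Sum.inl i)))) *
              wt (fun i => s (Sum.inr (Sum.inr (Sum.inr i)))))) = wt s := by
      rw [wt_elim s, wt_elim (fun i => s (Sum.inr i)), wt_elim (fun i => s (Sum.inr (Sum.inr i)))]
    have hw0 := wt_nonneg s
    rw [hw]
    by_cases hinj : Function.Injective s
    · have hi1 : Function.Injective (fun i => s (Sum.inl i)) :=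
        hinj.comp Sum.inl_injective
      have hi2 : Function.Injective (fun i => s (Sum.inr (Sum.inl i))) :=
        hinj.comp (Sum.inr_injective.comp Sum.inl_injective)
      have hi3 : Function.Injective (fun i => s (Sum.inr (Sum.inr (Sum.inl i)))) :=
        hinj.comp (Sum.inr_injective.comp (Sum.inr_injective.comp Sum.inl_injective))
      have hi4 : Function.Injective (fun i => s (Sum.inr (Sum.inr (Sum.inr i)))) :=
        hinj.comp (Sum.inr_injective.comp (Sum.inr_injective.comp Sum.inr_injective))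
      have hp : ∀ k, (s k).Prime := fun k => hAp k _ (hs k)
      have hne : ∀ k l, k ≠ l → s k ≠ s l := fun k l h h' => h (hinj h')
      have hZs : Z (∏ i, s (Sum.inl i)) (∏ i, s (Sum.inr (Sum.inl i)))
            (∏ i, s (Sum.inr (Sum.inr (Sum.inl i))))
            (∏ i, s (Sum.inr (Sum.inr (Sum.inr i)))) := by
        refine hZ _ _ _ _ ?_ ?_ ?_ ?_
        · have h1 := co_ne x δ P (fun i => s (Sum.inl i)) (Finset.mem_filter.2
            ⟨Fintype.mem_piFinset.2 fun i => hs (Sum.inl i), hi1⟩)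
          have h2 := co_ne x δ Q (fun i => s (Sum.inr (Sum.inl i))) (Finset.mem_filter.2
            ⟨Fintype.mem_piFinset.2 fun i => hs (Sum.inr (Sum.inl i)), hi2⟩)
          have h3 := co_ne x δ R (fun i => s (Sum.inr (Sum.inr (Sum.inl i))))
            (Finset.mem_filter.2
              ⟨Fintype.mem_piFinset.2 fun i => hs (Sum.inr (Sum.inr (Sum.inl i))), hi3⟩)
          have h4 := co_ne x δ S (fun i => s (Sum.inr (Sum.inr (Sum.inr i))))
            (Finset.mem_filter.2
              ⟨Fintype.mem_piFinset.2 fun i => hs (Sum.inr (Sum.inr (Sum.inr i))), hi4⟩)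
          exact mul_ne_zero (mul_ne_zero (mul_ne_zero h1 h2) h3) h4
        · exact coprime_prods _ _ (fun i => hp _) (fun i => hp _) fun i j => hne _ _ (by simp)
        · exact coprime_prods _ _ (fun i => hp _) (fun i => hp _) fun i j => hne _ _ (by simp)
        · refine Nat.Coprime.mul_left ?_ ?_ <;> refine Nat.Coprime.mul_right ?_ ?_ <;>
            exact coprime_prods _ _ (fun i => hp _) (fun i => hp _) fun i j => hne _ _ (by simp)
      rw [if_pos hi1, if_pos hi2, if_pos hi3, if_pos hi4, if_pos hZs, if_pos hinj, sub_self,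
        abs_zero]
    · rw [if_neg hinj]
      split_ifs <;> simp [abs_of_nonneg hw0, hw0]
  refine (Finset.sum_le_sum hbound).trans ?_
  refine (noninj_le A (x ^ a0) B hy hB hAlo hAs).trans ?_
  rw [Real.rpow_neg hx0.le, div_eq_mul_inv]
  refine mul_le_mul_of_nonneg_right ?_ (by positivity)
  linarith

end Pool.Agent.H11.PT
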