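import Pool.Agent.H11.PT.Nsq

/-!
# [H11 PT NSQB] The contribution of non-coprime pairs (a, b), uniform in the modulus q0

Proof.  As `nsq` (module `Nsq`, proved; its helper lemmas `nsq_tau`, `nsq_swap`, `nsq_fac`, `nsq_cnt` can be used), now
for `N ≡ r (q0)`.  Let `a, b` with `co P a co Q b ≠ 0`, `gcd(a,b) > 1`: some prime `p ≥ x^a0` divides both, so
`p^2 ∣ a b ∣ N + h`; `p` does not divide `q0` (all primes dividing `q0` are `< x^a0`).  The number of `N ∈ (X1, X2]`,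
`N ≡ r (q0)` such that `p^2 ∣ N + h` for some prime `p ≥ x^a0` is
`≤ ∑_{x^a0 ≤ p ≤ √(X2+h)} (X2/(q0 p^2) + 1) ≤ 2 x^(1+a0/8-a0)/q0 + √(X2 + h)` (one class modulo `q0 p^2` by CRT;
`∑_{n ≥ m} 1/n^2 ≤ 2/m`, as in `nsq_bad`), `X2 + h ≤ 2 x^(1+a0/8)`.  `∑_{a,b,e,f} [a b ∣ N+h, e f ∣ N+h'] ≤
τ(N+h)^2 τ(N+h')^2 ≤ C x^(a0/40)` (`H5.W.divisor_bound` with exponent `a0/200`).  Total
`≤ C (4 x^(1 - 7a0/8 + a0/40)/q0 + 2 x^(17/32 + a0/40)) ≤ x^(1-a0/2)/q0 + x^(3/4)` for `x` large (`a0 ≤ 1/2`).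
-/

namespace Pool.Agent.H11.PT

open Finset Pool.Agent.H89.P2

/-- numbers in one class modulo `m` -/
theorem class_cnt (S : Finset ℕ) (X m : ℕ) (hX : ∀ N ∈ S, N ≤ X)
    (hS : ∀ N ∈ S, ∀ N' ∈ S, N ≡ N' [MOD m]) : (S.card : ℝ) ≤ (X : ℝ) / m + 1 := by
  have h1 : S.card ≤ (range (X / m + 1)).card := by
    refine Finset.card_le_card_of_injOn (fun N => N / m) ?_ ?_
    · intro N hN
      have h2 := hX N hN
      have h3 : N / m ≤ X / m := Nat.div_le_div_right h2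
      have h4 : N / m < X / m + 1 := by omega
      simpa using h4
    · intro N hN N' hN' h
      have h2 : N % m = N' % m := hS N hN N' hN'
      have h3 : N / m = N' / m := h
      rw [← Nat.div_add_mod N m, ← Nat.div_add_mod N' m, h2, h3]
  rw [Finset.card_range] at h1
  have h5 : ((X / m : ℕ) : ℝ) ≤ (X : ℝ) / m := Nat.cast_div_le
  calc (S.card : ℝ) ≤ ((X / m + 1 : ℕ) : ℝ) := by exact_mod_cast h1
    _ = ((X / m : ℕ) : ℝ) + 1 := by push_cast; ring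
    _ ≤ _ := by linarith

theorem le_of_sq_le_sq {a b : ℝ} (h : a ^ 2 ≤ b ^ 2) (hb : 0 ≤ b) : a ≤ b :=
  le_of_abs_le (abs_le_of_sq_le_sq' h hb |> fun h => abs_le.2 h)

open Classical in
theorem nsq_bad_b (x a0 : ℝ) (hx : 1 ≤ x) (X1 X2 h q0 r : ℕ) (ha0 : 0 < a0) (hq0 : 0 < q0)
    (hq : ∀ p : ℕ, p.Prime → p ∣ q0 → (p : ℝ) < x ^ a0) :
    (((Ioc X1 X2).filter (fun N => N ≡ r [MOD q0] ∧ ∃ p : ℕ, p.Prime ∧ x ^ a0 ≤ (p : ℝ) ∧
      p ^ 2 ∣ N + h)).card : ℝ) ≤ 2 * X2 * x ^ (-a0) / q0 + Nat.sqrt (X2 + h) := by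
  have hx0 : 0 < x := by linarith
  have hy1 : 1 ≤ x ^ a0 := Real.one_le_rpow hx ha0.le
  obtain ⟨m, hm⟩ : ∃ m : ℕ, m = ⌈x ^ a0⌉₊ := ⟨_, rfl⟩
  have hm1 : x ^ a0 ≤ m := by
    rw [hm]
    exact Nat.le_ceil _
  have hm0 : 1 ≤ m := by
    have : (1 : ℝ) ≤ m := hy1.trans hm1
    exact_mod_cast this
  have hq0R : (0 : ℝ) < q0 := by exact_mod_cast hq0
  obtain ⟨Y, hY⟩ : ∃ Y : ℕ, Y = Nat.sqrt (X2 + h) := ⟨_, rfl⟩
  have hsub : (Ioc X1 X2).filter (fun N => N ≡ r [MOD q0] ∧ ∃ p : ℕ, p.Prime ∧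
      x ^ a0 ≤ (p : ℝ) ∧ p ^ 2 ∣ N + h) ⊆
      ((Ioo (m - 1) (Y + 1)).filter Nat.Prime).biUnion
        (fun p => (Ioc X1 X2).filter (fun N => N ≡ r [MOD q0] ∧ p ^ 2 ∣ N + h)) := by
    intro N hN
    rw [Finset.mem_filter] at hN
    obtain ⟨hN, hr, p, hp, hpx, hpd⟩ := hN
    rw [Finset.mem_biUnion]
    refine ⟨p, ?_, Finset.mem_filter.2 ⟨hN, hr, hpd⟩⟩
    rw [Finset.mem_Ioc] at hN
    have h2 : p ^ 2 ≤ N + h := Nat.le_of_dvd (by omega) hpd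
    have h3 : p ≤ Y := by
      rw [hY]
      exact Nat.le_sqrt'.2 (h2.trans (by omega))
    have h4 : m ≤ p := by
      rw [hm]
      exact Nat.ceil_le.2 hpx
    rw [Finset.mem_filter, Finset.mem_Ioo]
    exact ⟨by omega, hp⟩
  have h2 := (Finset.card_le_card hsub).trans Finset.card_biUnion_le
  have h3 : (((Ioc X1 X2).filter (fun N => N ≡ r [MOD q0] ∧ ∃ p : ℕ, p.Prime ∧
      x ^ a0 ≤ (p : ℝ) ∧ p ^ 2 ∣ N + h)).card : ℝ) ≤
      ∑ p ∈ (Ioo (m - 1) (Y + 1)).filter Nat.Prime,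
        (((Ioc X1 X2).filter (fun N => N ≡ r [MOD q0] ∧ p ^ 2 ∣ N + h)).card : ℝ) := by
    exact_mod_cast h2
  have h4 : ∀ p ∈ (Ioo (m - 1) (Y + 1)).filter Nat.Prime,
      (((Ioc X1 X2).filter (fun N => N ≡ r [MOD q0] ∧ p ^ 2 ∣ N + h)).card : ℝ) ≤
        (X2 : ℝ) / q0 * ((p : ℝ) ^ 2)⁻¹ + 1 := by
    intro p hp
    rw [Finset.mem_filter, Finset.mem_Ioo] at hp
    obtain ⟨⟨hp1, hp2⟩, hpp⟩ := hp
    have hcop : Nat.Coprime q0 (p ^ 2) := by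
      refine Nat.Coprime.pow_right 2 ?_
      rw [Nat.coprime_comm, Nat.Prime.coprime_iff_not_dvd hpp]
      intro hd
      have h5 := hq p hpp hd
      have h6 : m ≤ p := by omega
      have h7 : (m : ℝ) ≤ p := by exact_mod_cast h6
      linarith
    have h5 := class_cnt ((Ioc X1 X2).filter (fun N => N ≡ r [MOD q0] ∧ p ^ 2 ∣ N + h)) X2
      (q0 * p ^ 2) (fun N hN => (Finset.mem_Ioc.1 (Finset.mem_filter.1 hN).1).2) (by
        intro N hN N' hN'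
        rw [Finset.mem_filter] at hN hN'
        rw [← Nat.modEq_and_modEq_iff_modEq_mul hcop]
        refine ⟨hN.2.1.trans hN'.2.1.symm, ?_⟩
        have h6 : N + h ≡ N' + h [MOD p ^ 2] :=
          ((Nat.modEq_zero_iff_dvd.2 hN.2.2).trans (Nat.modEq_zero_iff_dvd.2 hN'.2.2).symm)
        exact Nat.ModEq.add_right_cancel' h h6)
    refine h5.trans (le_of_eq ?_)
    push_cast
    rw [div_mul_eq_div_div, div_eq_mul_inv ((X2 : ℝ) / q0)]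
  have h5 : ∑ p ∈ (Ioo (m - 1) (Y + 1)).filter Nat.Prime,
        (((Ioc X1 X2).filter (fun N => N ≡ r [MOD q0] ∧ p ^ 2 ∣ N + h)).card : ℝ) ≤
      (X2 : ℝ) / q0 * ∑ p ∈ Ioo (m - 1) (Y + 1), ((p : ℝ) ^ 2)⁻¹ + Y := by
    calc _ ≤ ∑ p ∈ (Ioo (m - 1) (Y + 1)).filter Nat.Prime,
          ((X2 : ℝ) / q0 * ((p : ℝ) ^ 2)⁻¹ + 1) := Finset.sum_le_sum h4
      _ ≤ ∑ p ∈ Ioo (m - 1) (Y + 1), ((X2 : ℝ) / q0 * ((p : ℝ) ^ 2)⁻¹ + 1) :=
          Finset.sum_le_sum_of_subset_of_nonneg (Finset.filter_subset _ _)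
            fun p _ _ => by positivity
      _ = (X2 : ℝ) / q0 * ∑ p ∈ Ioo (m - 1) (Y + 1), ((p : ℝ) ^ 2)⁻¹ +
          ((Ioo (m - 1) (Y + 1)).card : ℝ) := by
          rw [Finset.sum_add_distrib, ← Finset.mul_sum, Finset.sum_const, nsmul_eq_mul, mul_one]
      _ ≤ _ := by
          have h6 : (Ioo (m - 1) (Y + 1)).card ≤ Y := by
            rw [Nat.card_Ioo]
            omega
          have h7 : ((Ioo (m - 1) (Y + 1)).card : ℝ) ≤ Y := by exact_mod_cast h6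
          linarith
  have h6 := sum_Ioo_inv_sq_le (α := ℝ) (m - 1) (Y + 1)
  have h7 : ((m - 1 : ℕ) : ℝ) + 1 = m := by
    rw [Nat.cast_sub hm0, Nat.cast_one]
    ring
  rw [h7] at h6
  have h8 : (2 : ℝ) / m ≤ 2 / x ^ a0 := by gcongr
  have h9 : (X2 : ℝ) / q0 * ∑ p ∈ Ioo (m - 1) (Y + 1), ((p : ℝ) ^ 2)⁻¹ ≤
      2 * X2 * x ^ (-a0) / q0 := by
    calc (X2 : ℝ) / q0 * ∑ p ∈ Ioo (m - 1) (Y + 1), ((p : ℝ) ^ 2)⁻¹ ≤
          (X2 : ℝ) / q0 * (2 / x ^ a0) :=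
            mul_le_mul_of_nonneg_left (h6.trans h8) (by positivity)
      _ = 2 * X2 * x ^ (-a0) / q0 := by
          rw [Real.rpow_neg hx0.le]
          ring
  rw [← hY]
  linarith

open Classical in
theorem nsq_b (δ a0 : ℝ) (hδ : 0 < δ) (ha0 : 0 < a0) (ha1 : a0 ≤ 1 / 2) (P Q R S : List ℕ)
    (hP : ∀ j ∈ P, a0 ≤ (j : ℝ) * δ) (hQ : ∀ j ∈ Q, a0 ≤ (j : ℝ) * δ) :
    ∃ x0 : ℝ, ∀ x ≥ x0, ∀ (X1 X2 q0 r h h' NA NB : ℕ), X1 ≤ X2 → (X2 : ℝ) ≤ x ^ (1 + a0 / 8) →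
      (h : ℝ) ≤ x / 2 → (h' : ℝ) ≤ x / 2 → 0 < q0 →
      (∀ p : ℕ, p.Prime → p ∣ q0 → (p : ℝ) < x ^ a0) →
      ∑ a ∈ Icc 1 NA, ∑ b ∈ Icc 1 NB, ∑ e ∈ Icc 1 NA, ∑ f ∈ Icc 1 NB,
        (if ¬ Nat.Coprime a b then co x δ P a * co x δ Q b * co x δ R e * co x δ S f *
          (((Ioc X1 X2).filter (fun N => N ≡ r [MOD q0] ∧ a * b ∣ N + h ∧
            e * f ∣ N + h')).card : ℝ) else 0) ≤
        x ^ (1 - a0 / 2) / q0 + x ^ ((3 : ℝ) / 4) := by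
  obtain ⟨C1, hC1, hdiv⟩ := Pool.Agent.H5.W.divisor_bound (a0 / 200) (by linarith)
  obtain ⟨Cc, hCc⟩ : ∃ Cc : ℝ, Cc = (P.length.factorial : ℝ) * (Q.length.factorial : ℝ) *
    (R.length.factorial : ℝ) * (S.length.factorial : ℝ) := ⟨_, rfl⟩
  have hCc0 : 0 ≤ Cc := by
    rw [hCc]
    positivity
  have hev : ∀ᶠ x : ℝ in Filter.atTop, Cc * 8 * C1 ^ 4 ≤ x ^ (7 * a0 / 20) :=
    (tendsto_rpow_atTop (by positivity)).eventually_ge_atTop _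
  obtain ⟨x1, hx1⟩ := Filter.eventually_atTop.1 hev
  refine ⟨max x1 2, fun x hx X1 X2 q0 r h h' NA NB hX hX2 hh hh' hq0 hq => ?_⟩
  have hxx1 := hx1 x ((le_max_left _ _).trans hx)
  have hx2 : 2 ≤ x := (le_max_right _ _).trans hx
  have hx0 : 0 < x := by linarith
  obtain ⟨y, hy⟩ : ∃ y : ℝ, y = 2 * x ^ (1 + a0 / 8) := ⟨_, rfl⟩
  have hxy : x ≤ x ^ (1 + a0 / 8) := by
    conv_lhs => rw [← Real.rpow_one x]
    exact Real.rpow_le_rpow_of_exponent_le (by linarith) (by linarith)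
  have hy0 : 0 < y := by
    rw [hy]
    positivity
  have hXh : ((X2 + h : ℕ) : ℝ) ≤ y := by
    push_cast
    linarith
  have hXh' : ((X2 + h' : ℕ) : ℝ) ≤ y := by
    push_cast
    linarith
  obtain ⟨I, hI⟩ : ∃ I : Finset ℕ, I = (Ioc X1 X2).filter
    (fun N => N ≡ r [MOD q0] ∧ ∃ p : ℕ, p.Prime ∧ x ^ a0 ≤ (p : ℝ) ∧ p ^ 2 ∣ N + h) := ⟨_, rfl⟩
  have hIcard : (I.card : ℝ) ≤ 2 * X2 * x ^ (-a0) / q0 + Nat.sqrt (X2 + h) := by
    rw [hI]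
    exact nsq_bad_b x a0 (by linarith) X1 X2 h q0 r ha0 hq0 hq
  have hpt : ∀ a ∈ Icc 1 NA, ∀ b ∈ Icc 1 NB, ∀ e ∈ Icc 1 NA, ∀ f ∈ Icc 1 NB,
      (if ¬ Nat.Coprime a b then co x δ P a * co x δ Q b * co x δ R e * co x δ S f *
          (((Ioc X1 X2).filter (fun N => N ≡ r [MOD q0] ∧ a * b ∣ N + h ∧ e * f ∣ N + h')).card : ℝ) else 0) ≤
        ∑ N ∈ I, Cc * ((if a ∣ N + h then 1 else 0) * (if b ∣ N + h then 1 else 0) *
          ((if e ∣ N + h' then 1 else 0) * (if f ∣ N + h' then 1 else 0))) := by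
    intro a _ b _ e _ f _
    have hnn : 0 ≤ ∑ N ∈ I, Cc * ((if a ∣ N + h then (1 : ℝ) else 0) *
        (if b ∣ N + h then 1 else 0) *
          ((if e ∣ N + h' then 1 else 0) * (if f ∣ N + h' then 1 else 0))) := by
      refine Finset.sum_nonneg fun N _ => mul_nonneg hCc0 ?_
      positivity
    by_cases hcop : Nat.Coprime a b
    · rw [if_neg (not_not.2 hcop)]
      exact hnn
    rw [if_pos hcop]
    by_cases h0 : co x δ P a * co x δ Q b * co x δ R e * co x δ S f = 0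
    · rw [h0, zero_mul]
      exact hnn
    have hPa : co x δ P a ≠ 0 := fun h1 => h0 (by rw [h1]; ring)
    have hQb : co x δ Q b ≠ 0 := fun h1 => h0 (by rw [h1]; ring)
    obtain ⟨p, hp, hpa, hpb⟩ := Nat.Prime.not_coprime_iff_dvd.1 hcop
    have hpx := co_rough x δ a0 (by linarith) P hP a hPa p hp hpa
    have hCle : co x δ P a * co x δ Q b * co x δ R e * co x δ S f ≤ Cc := by
      rw [hCc]
      have hp1 := co_nonneg x δ P a
      have hp2 := co_nonneg x δ Q b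
      have hp3 := co_nonneg x δ R e
      have hp4 := co_nonneg x δ S f
      have hp5 := co_le x δ P a
      have hp6 := co_le x δ Q b
      have hp7 := co_le x δ R e
      have hp8 := co_le x δ S f
      gcongr
    have hcard : (((Ioc X1 X2).filter (fun N => N ≡ r [MOD q0] ∧ a * b ∣ N + h ∧ e * f ∣ N + h')).card : ℝ) ≤
        ∑ N ∈ I, ((if a ∣ N + h then (1 : ℝ) else 0) * (if b ∣ N + h then 1 else 0) *
          ((if e ∣ N + h' then 1 else 0) * (if f ∣ N + h' then 1 else 0))) := by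
      have h2 : (((Ioc X1 X2).filter (fun N => N ≡ r [MOD q0] ∧ a * b ∣ N + h ∧ e * f ∣ N + h')).card : ℝ) =
          ∑ N ∈ (Ioc X1 X2).filter (fun N => N ≡ r [MOD q0] ∧ a * b ∣ N + h ∧ e * f ∣ N + h'),
            ((if a ∣ N + h then (1 : ℝ) else 0) * (if b ∣ N + h then 1 else 0) *
          ((if e ∣ N + h' then 1 else 0) * (if f ∣ N + h' then 1 else 0))) := by
        rw [Finset.card_eq_sum_ones, Nat.cast_sum]
        refine Finset.sum_congr rfl fun N hN => ?_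
        obtain ⟨-, -, h3, h4⟩ := Finset.mem_filter.1 hN
        rw [if_pos (dvd_of_mul_right_dvd h3), if_pos (dvd_of_mul_left_dvd h3),
          if_pos (dvd_of_mul_right_dvd h4), if_pos (dvd_of_mul_left_dvd h4)]
        norm_num
      rw [h2]
      refine Finset.sum_le_sum_of_subset_of_nonneg ?_ fun N _ _ => by positivity
      intro N hN
      obtain ⟨hN1, hr, h3, -⟩ := Finset.mem_filter.1 hN
      rw [hI, Finset.mem_filter]
      refine ⟨hN1, hr, p, hp, hpx, ?_⟩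
      rw [sq]
      exact (mul_dvd_mul hpa hpb).trans h3
    rw [← Finset.mul_sum]
    exact mul_le_mul hCle hcard (by positivity) hCc0
  have hsum := Finset.sum_le_sum fun a ha => Finset.sum_le_sum fun b hb =>
    Finset.sum_le_sum fun e he => Finset.sum_le_sum fun f hf => hpt a ha b hb e he f hf
  refine hsum.trans ?_
  rw [nsq_swap]
  obtain ⟨τ, hτ⟩ : ∃ τ : ℝ, τ = C1 * y ^ (a0 / 200) := ⟨_, rfl⟩
  have hτ0 : 0 ≤ τ := by
    rw [hτ]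
    positivity
  have hdiv' : ∀ n : ℕ, 1 ≤ n → (n : ℝ) ≤ y → (n.divisors.card : ℝ) ≤ τ := by
    intro n hn hn4
    refine (hdiv n hn).trans ?_
    rw [hτ]
    gcongr
  have hN : ∀ N ∈ I, ∑ a ∈ Icc 1 NA, ∑ b ∈ Icc 1 NB, ∑ e ∈ Icc 1 NA, ∑ f ∈ Icc 1 NB,
      Cc * ((if a ∣ N + h then (1 : ℝ) else 0) * (if b ∣ N + h then 1 else 0) *
          ((if e ∣ N + h' then 1 else 0) * (if f ∣ N + h' then 1 else 0))) ≤ Cc * τ ^ 4 := by
    intro N hN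
    rw [hI, Finset.mem_filter, Finset.mem_Ioc] at hN
    have hN1 : 1 ≤ N := by omega
    have hNr : (N : ℝ) ≤ X2 := by exact_mod_cast hN.1.2
    have e1 : ∑ a ∈ Icc 1 NA, ∑ b ∈ Icc 1 NB, ∑ e ∈ Icc 1 NA, ∑ f ∈ Icc 1 NB,
      Cc * ((if a ∣ N + h then (1 : ℝ) else 0) * (if b ∣ N + h then 1 else 0) *
          ((if e ∣ N + h' then 1 else 0) * (if f ∣ N + h' then 1 else 0))) =
        Cc * (((∑ a ∈ Icc 1 NA, (if a ∣ N + h then (1 : ℝ) else 0)) *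
          ∑ b ∈ Icc 1 NB, (if b ∣ N + h then (1 : ℝ) else 0)) *
          ((∑ e ∈ Icc 1 NA, (if e ∣ N + h' then (1 : ℝ) else 0)) *
          ∑ f ∈ Icc 1 NB, (if f ∣ N + h' then (1 : ℝ) else 0))) := by
      rw [← nsq_fac]
      simp only [Finset.mul_sum]
    rw [e1]
    have hn1 : ((N + h : ℕ) : ℝ) ≤ y := by
      push_cast
      push_cast at hXh
      linarith
    have hn2 : ((N + h' : ℕ) : ℝ) ≤ y := by
      push_cast
      push_cast at hXh'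
      linarith
    have t1 := (nsq_tau (Icc 1 NA) (N + h) (by omega)).trans (hdiv' (N + h) (by omega) hn1)
    have t2 := (nsq_tau (Icc 1 NB) (N + h) (by omega)).trans (hdiv' (N + h) (by omega) hn1)
    have t3 := (nsq_tau (Icc 1 NA) (N + h') (by omega)).trans (hdiv' (N + h') (by omega) hn2)
    have t4 := (nsq_tau (Icc 1 NB) (N + h') (by omega)).trans (hdiv' (N + h') (by omega) hn2)
    have s0 : ∀ (A : Finset ℕ) (n : ℕ), 0 ≤ ∑ a ∈ A, (if a ∣ n then (1 : ℝ) else 0) :=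
      fun A n => Finset.sum_nonneg fun a _ => by positivity
    have e2 : τ ^ 4 = (τ * τ) * (τ * τ) := by ring
    rw [e2]
    have s1 := s0 (Icc 1 NA) (N + h)
    have s2 := s0 (Icc 1 NB) (N + h)
    have s3 := s0 (Icc 1 NA) (N + h')
    have s4 := s0 (Icc 1 NB) (N + h')
    gcongr
  refine (Finset.sum_le_sum hN).trans ?_
  rw [Finset.sum_const, nsmul_eq_mul]
  have hτ4 : τ ^ 4 ≤ C1 ^ 4 * 2 * x ^ (a0 / 40) := by
    have e1 : τ ^ 4 = C1 ^ 4 * ((2 : ℝ) ^ (a0 / 50) * x ^ ((1 + a0 / 8) * (a0 / 50))) := by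
      rw [hτ, mul_pow, ← Real.rpow_natCast (y ^ (a0 / 200)) 4, ← Real.rpow_mul hy0.le, hy,
        Real.mul_rpow (by norm_num) (by positivity), ← Real.rpow_mul hx0.le]
      congr 3 <;> push_cast <;> ring
    have e2 : (2 : ℝ) ^ (a0 / 50) ≤ 2 := by
      calc (2 : ℝ) ^ (a0 / 50) ≤ 2 ^ (1 : ℝ) :=
            Real.rpow_le_rpow_of_exponent_le (by norm_num) (by linarith)
        _ = 2 := Real.rpow_one 2
    have e3 : x ^ ((1 + a0 / 8) * (a0 / 50)) ≤ x ^ (a0 / 40) :=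
      Real.rpow_le_rpow_of_exponent_le (by linarith) (by nlinarith)
    have e4 : 0 ≤ x ^ ((1 + a0 / 8) * (a0 / 50)) := by positivity
    rw [e1]
    calc C1 ^ 4 * ((2 : ℝ) ^ (a0 / 50) * x ^ ((1 + a0 / 8) * (a0 / 50))) ≤
          C1 ^ 4 * (2 * x ^ (a0 / 40)) := by gcongr
      _ = _ := by ring
  have hsq : ((Nat.sqrt (X2 + h) : ℕ) : ℝ) ≤ 2 * x ^ ((17 : ℝ) / 32) := by
    have e1 : ((Nat.sqrt (X2 + h) : ℕ) : ℝ) ^ 2 ≤ (2 * x ^ ((17 : ℝ) / 32)) ^ 2 := by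
      have e2 : ((Nat.sqrt (X2 + h) : ℕ) : ℝ) ^ 2 ≤ ((X2 + h : ℕ) : ℝ) := by
        exact_mod_cast Nat.sqrt_le' (X2 + h)
      have e3 : (2 * x ^ ((17 : ℝ) / 32)) ^ 2 = 4 * x ^ ((17 : ℝ) / 16) := by
        rw [mul_pow, ← Real.rpow_natCast (x ^ ((17 : ℝ) / 32)) 2, ← Real.rpow_mul hx0.le]
        norm_num
      have e4 : x ^ (1 + a0 / 8) ≤ x ^ ((17 : ℝ) / 16) :=
        Real.rpow_le_rpow_of_exponent_le (by linarith) (by linarith)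
      have e5 : 0 ≤ x ^ ((17 : ℝ) / 16) := by positivity
      rw [e3]
      linarith
    exact le_of_sq_le_sq e1 (by positivity)
  have hq0R : (0 : ℝ) < q0 := by exact_mod_cast hq0
  have hfirst : 2 * X2 * x ^ (-a0) / q0 * (Cc * (C1 ^ 4 * 2 * x ^ (a0 / 40))) ≤
      x ^ (1 - a0 / 2) / q0 := by
    calc 2 * X2 * x ^ (-a0) / q0 * (Cc * (C1 ^ 4 * 2 * x ^ (a0 / 40))) ≤
          2 * x ^ (1 + a0 / 8) * x ^ (-a0) / q0 * (Cc * (C1 ^ 4 * 2 * x ^ (a0 / 40))) := by gcongr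
      _ = (Cc * 4 * C1 ^ 4) * (x ^ (1 + a0 / 8) * x ^ (-a0) * x ^ (a0 / 40)) / q0 := by ring
      _ ≤ (Cc * 8 * C1 ^ 4) * (x ^ (1 + a0 / 8) * x ^ (-a0) * x ^ (a0 / 40)) / q0 := by
          gcongr
          norm_num
      _ ≤ x ^ (7 * a0 / 20) * (x ^ (1 + a0 / 8) * x ^ (-a0) * x ^ (a0 / 40)) / q0 := by gcongr
      _ = x ^ (1 - a0 / 2) / q0 := by
          rw [← Real.rpow_add hx0, ← Real.rpow_add hx0, ← Real.rpow_add hx0]
          congr 2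
          ring
  have hsecond : (Nat.sqrt (X2 + h) : ℝ) * (Cc * (C1 ^ 4 * 2 * x ^ (a0 / 40))) ≤
      x ^ ((3 : ℝ) / 4) := by
    calc (Nat.sqrt (X2 + h) : ℝ) * (Cc * (C1 ^ 4 * 2 * x ^ (a0 / 40))) ≤
          2 * x ^ ((17 : ℝ) / 32) * (Cc * (C1 ^ 4 * 2 * x ^ (a0 / 40))) := by gcongr
      _ = (Cc * 4 * C1 ^ 4) * (x ^ ((17 : ℝ) / 32) * x ^ (a0 / 40)) := by ring
      _ ≤ (Cc * 8 * C1 ^ 4) * (x ^ ((17 : ℝ) / 32) * x ^ (a0 / 40)) := by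
          gcongr
          norm_num
      _ ≤ x ^ (7 * a0 / 20) * (x ^ ((17 : ℝ) / 32) * x ^ (a0 / 40)) := by gcongr
      _ = x ^ (7 * a0 / 20 + ((17 : ℝ) / 32 + a0 / 40)) := by
          rw [← Real.rpow_add hx0, ← Real.rpow_add hx0]
      _ ≤ x ^ ((3 : ℝ) / 4) :=
          Real.rpow_le_rpow_of_exponent_le (by linarith) (by linarith)
  calc (I.card : ℝ) * (Cc * τ ^ 4) ≤
        (2 * X2 * x ^ (-a0) / q0 + Nat.sqrt (X2 + h)) * (Cc * (C1 ^ 4 * 2 * x ^ (a0 / 40))) := by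
        gcongr
    _ = 2 * X2 * x ^ (-a0) / q0 * (Cc * (C1 ^ 4 * 2 * x ^ (a0 / 40))) +
        (Nat.sqrt (X2 + h) : ℝ) * (Cc * (C1 ^ 4 * 2 * x ^ (a0 / 40))) := by ring
    _ ≤ _ := add_le_add hfirst hsecond

end Pool.Agent.H11.PT
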