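import Pool.Agent.H11.PX.Fin
import Pool.Agent.H11.PT.NsqB
import Pool.Agent.H11.PT.Mai
import Pool.Agent.H11.PT.PairAuxB

/-!
# [H11 PT PAIRB] Pair correlation of patterns, level x^(0.55) for each of two shifts, uniform in the modulus q0

This replaces `pat_pair` (module `Pair`): now the power saving `x^(-η/128)` of the part that does not carry a factor
`1/q0` does not depend on `a0`, and `q0 ≤ x^(η/64)` may have all its prime factors `< x^a0`.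

Proof.  Let `θ = min(η/200, a0/8)` and `y = x^(1+θ)`; `pair_corr` is applied with `y` in the place of `x`
(`NA = ⌊y^(1/2-η)⌋ ≥ ⌊x^(1/2-η)⌋`, `NB = ⌊y^(1/20-η)⌋`, error `y^(1-η/64) ≤ x^(1-η/100)`,
`q0 ≤ x^(η/64) ≤ y^(η/64)`, `h, h' ≤ x^c ≤ y^(η/64)`).  By `mono_append` the left sum is
`∑_{a,b,e,f} [(a,b)=1] [(e,f)=1] co co co co #{N : N ≡ r (q0), ab ∣ N+h, ef ∣ N+h'}`.
Coprimality: if `co .. ≠ 0` all primes of `a, b, e, f` are `≥ x^a0`, hence do not divide `q0`, and are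
`> x^c ≥ |h - h'| > 0` (choose `c < a0`), so `(abef, q0) = 1`, `(ef, |h-h'|) = 1`, and a common prime `p` of `ab` and
`ef` with a nonzero count would divide `h - h'`: the count is `0` unless `(ab, ef) = 1`.  `ef` is squarefree iff
`(e,f) = 1` (`co_sqf`).  So the left sum is `∑_{cnd} [(a,b)=1] co.. #`.  Write `[(a,b)=1] = 1 - [(a,b) ≠ 1]`; the
second part is `≤ x^(1-a0/2)/q0 + x^(3/4)` by `nsq_b` (`X2 ≤ x^(1+a0/8)`).  `pair_corr` with `α = co/(length)!` etc.: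
`∑_{cnd} co.. # = ∑_{cnd} co.. X/(q0 a b e f) + O(C x^(1-η/100))`.  Main term: `main_term` with `Z = cnd q0 |h-h'|`
(`NC = NA`, `ND = NB`): if the coefficients do not vanish and everything is coprime then `cnd` holds; error
`(X/q0) C x^(-a0) ≤ C x^(1+θ-a0)/q0`.  Take `c = min(η/256, a0/4)`, `x` large:
sum of all errors `≤ x^(1-c)/q0 + x^(1-η/128)`.
-/

namespace Pool.Agent.H11.PT

open Finset Pool.Agent.H89.P2

open Classical in
theorem pat_pair_b (δ η a0 : ℝ) (hδ : 0 < δ) (hη : 0 < η) (hη1 : η ≤ 1 / 100) (ha0 : 0 < a0)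
    (ha1 : a0 ≤ 1 / 2) (P Q R S : List ℕ)
    (hP : ∀ j ∈ P, a0 ≤ (j : ℝ) * δ) (hQ : ∀ j ∈ Q, a0 ≤ (j : ℝ) * δ)
    (hR : ∀ j ∈ R, a0 ≤ (j : ℝ) * δ) (hS : ∀ j ∈ S, a0 ≤ (j : ℝ) * δ)
    (sP : (size P : ℝ) * δ ≤ 1 / 2 - η) (sQ : (size Q : ℝ) * δ ≤ 1 / 20 - η)
    (sR : (size R : ℝ) * δ ≤ 1 / 2 - η) (sS : (size S : ℝ) * δ ≤ 1 / 20 - η) :
    ∃ c θ x0 : ℝ, 0 < c ∧ 0 < θ ∧ ∀ x ≥ x0, ∀ (X1 X2 q0 h h' r : ℕ), X1 ≤ X2 →
      (X2 : ℝ) ≤ x ^ (1 + θ) →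
      0 < q0 → (q0 : ℝ) ≤ x ^ (η / 64) → (∀ p : ℕ, p.Prime → p ∣ q0 → (p : ℝ) < x ^ a0) →
      (h : ℝ) ≤ x ^ c → (h' : ℝ) ≤ x ^ c → h ≠ h' →
      |∑ N ∈ (Ioc X1 X2).filter (fun N => N ≡ r [MOD q0]),
          mono (P ++ Q) (kk x δ (N + h)) * mono (R ++ S) (kk x δ (N + h')) -
        ((X2 : ℝ) - X1) / q0 * (((P ++ Q).map (ms x δ)).prod * ((R ++ S).map (ms x δ)).prod)| ≤
      x ^ (1 - c) / q0 + x ^ (1 - η / 128) := by
  obtain ⟨x1, hx1⟩ := nsq_b δ a0 hδ ha0 ha1 P Q R S hP hQ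
  obtain ⟨C, x2, hC, hx2⟩ := main_term δ a0 hδ ha0 P Q R S hP hQ hR hS
  obtain ⟨x3, hx3⟩ := Pool.Agent.H11.PX.pair_corr η hη hη1
  obtain ⟨fP, hfP⟩ : ∃ fP : ℝ, fP = (P.length.factorial : ℝ) := ⟨_, rfl⟩
  obtain ⟨fQ, hfQ⟩ : ∃ fQ : ℝ, fQ = (Q.length.factorial : ℝ) := ⟨_, rfl⟩
  obtain ⟨fR, hfR⟩ : ∃ fR : ℝ, fR = (R.length.factorial : ℝ) := ⟨_, rfl⟩
  obtain ⟨fS, hfS⟩ : ∃ fS : ℝ, fS = (S.length.factorial : ℝ) := ⟨_, rfl⟩
  have hfP0 : 0 < fP := by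
    rw [hfP]
    exact_mod_cast Nat.factorial_pos _
  have hfQ0 : 0 < fQ := by
    rw [hfQ]
    exact_mod_cast Nat.factorial_pos _
  have hfR0 : 0 < fR := by
    rw [hfR]
    exact_mod_cast Nat.factorial_pos _
  have hfS0 : 0 < fS := by
    rw [hfS]
    exact_mod_cast Nat.factorial_pos _
  obtain ⟨Cc, hCc⟩ : ∃ Cc : ℝ, Cc = fP * fQ * fR * fS := ⟨_, rfl⟩
  have hCc0 : 0 < Cc := by
    rw [hCc]
    positivity
  have hev1 : ∀ᶠ x : ℝ in Filter.atTop, 3 + 3 * Cc + 3 * C ≤ x ^ (a0 / 4) :=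
    (tendsto_rpow_atTop (by positivity)).eventually_ge_atTop _
  have hev2 : ∀ᶠ x : ℝ in Filter.atTop, 3 + 3 * Cc + 3 * C ≤ x ^ (η / 500) :=
    (tendsto_rpow_atTop (by positivity)).eventually_ge_atTop _
  have hev3 : ∀ᶠ x : ℝ in Filter.atTop, 2 ≤ x ^ ((1 : ℝ) / 2) :=
    (tendsto_rpow_atTop (by positivity)).eventually_ge_atTop _
  obtain ⟨x4, hx4⟩ := Filter.eventually_atTop.1 (hev1.and (hev2.and hev3))
  obtain ⟨θ, hθ⟩ : ∃ θ : ℝ, θ = min (η / 200) (a0 / 8) := ⟨_, rfl⟩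
  have hθ0 : 0 < θ := by
    rw [hθ]
    exact lt_min (by positivity) (by positivity)
  have hθη : θ ≤ η / 200 := by
    rw [hθ]
    exact min_le_left _ _
  have hθa : θ ≤ a0 / 8 := by
    rw [hθ]
    exact min_le_right _ _
  obtain ⟨c, hc⟩ : ∃ c : ℝ, c = min (η / 256) (a0 / 16) := ⟨_, rfl⟩
  have hc0 : 0 < c := by
    rw [hc]
    exact lt_min (by positivity) (by positivity)
  have hcη : c ≤ η / 256 := by
    rw [hc]
    exact min_le_left _ _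
  have hca : c ≤ a0 / 16 := by
    rw [hc]
    exact min_le_right _ _
  refine ⟨c, θ, max (max x1 x2) (max (max x3 x4) 2), hc0, hθ0,
    fun x hx X1 X2 q0 h h' r hX hX2 hq0 hqx hq hh hh' hhh => ?_⟩
  have hxx1 : x1 ≤ x := ((le_max_left _ _).trans (le_max_left _ _)).trans hx
  have hxx2 : x2 ≤ x := ((le_max_right _ _).trans (le_max_left _ _)).trans hx
  have hxx3 : x3 ≤ x :=
    (((le_max_left _ _).trans (le_max_left _ _)).trans (le_max_right _ _)).trans hx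
  have hxx4 : x4 ≤ x :=
    (((le_max_right _ _).trans (le_max_left _ _)).trans (le_max_right _ _)).trans hx
  have hx2' : 2 ≤ x := ((le_max_right _ _).trans (le_max_right _ _)).trans hx
  have hx0 : 0 < x := by linarith
  have hx1' : 1 < x := by linarith
  obtain ⟨hk1, hk2, hk3⟩ := hx4 x hxx4
  have hmono : ∀ {s t : ℝ}, s ≤ t → x ^ s ≤ x ^ t := fun h =>
    Real.rpow_le_rpow_of_exponent_le hx1'.le h
  have hxc : x ^ c ≤ x / 2 := by
    have e1 : x = x ^ c * x ^ (1 - c) := by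
      rw [← Real.rpow_add hx0, add_sub_cancel, Real.rpow_one]
    have e2 : 2 ≤ x ^ (1 - c) := hk3.trans (hmono (by linarith))
    have e3 : 0 < x ^ c := by positivity
    have e4 := mul_le_mul_of_nonneg_left e2 e3.le
    linarith
  have hxca : x ^ c < x ^ a0 := Real.rpow_lt_rpow_of_exponent_lt hx1' (by linarith)
  obtain ⟨y, hy⟩ : ∃ y : ℝ, y = x ^ (1 + θ) := ⟨_, rfl⟩
  have hxy : x ≤ y := by
    rw [hy]
    conv_lhs => rw [← Real.rpow_one x]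
    exact hmono (by linarith)
  have hy0 : 0 < y := by linarith
  have hxyp : ∀ s : ℝ, 0 ≤ s → x ^ s ≤ y ^ s := fun s hs =>
    Real.rpow_le_rpow hx0.le hxy hs
  have hxcη : x ^ c ≤ y ^ (η / 64) := (hmono (by linarith)).trans (hxyp _ (by positivity))
  have h2 := hx1 x hxx1 X1 X2 q0 r h h' ⌊y ^ (1 / 2 - η)⌋₊ ⌊y ^ (1 / 20 - η)⌋₊ hX
    (hX2.trans (hmono (by linarith))) (hh.trans hxc) (hh'.trans hxc) hq0 hq
  have h3 := hx2 x hxx2 ⌊y ^ (1 / 2 - η)⌋₊ ⌊y ^ (1 / 20 - η)⌋₊ ⌊y ^ (1 / 2 - η)⌋₊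
    ⌊y ^ (1 / 20 - η)⌋₊
  have hco : ∀ (P : List ℕ) (f : ℝ), f = (P.length.factorial : ℝ) → 0 < f → ∀ n,
      |co x δ P n / f| ≤ 1 := by
    intro P f hf hf0 n
    rw [abs_of_nonneg (div_nonneg (co_nonneg x δ P n) hf0.le), div_le_one hf0, hf]
    exact co_le x δ P n
  have h1 := hx3 y (hxx3.trans hxy) X1 X2 q0 h h' r hX (by rw [← hy] at hX2; linarith) hq0
    (hqx.trans (hxyp _ (by positivity))) (hh.trans hxcη)
    (hh'.trans hxcη) (fun n => co x δ P n / fP) (fun n => co x δ Q n / fQ)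
    (fun n => co x δ R n / fR) (fun n => co x δ S n / fS) (hco P fP hfP hfP0)
    (hco Q fQ hfQ hfQ0) (hco R fR hfR hfR0) (hco S fS hfS hfS0)
  have h1' : |∑ a ∈ Icc 1 ⌊y ^ (1 / 2 - η)⌋₊, ∑ b ∈ Icc 1 ⌊y ^ (1 / 20 - η)⌋₊,
      ∑ e ∈ Icc 1 ⌊y ^ (1 / 2 - η)⌋₊, ∑ f ∈ Icc 1 ⌊y ^ (1 / 20 - η)⌋₊,
      if Pool.Agent.H11.PX.cnd q0 ((h : ℤ) - h').natAbs a b e f then
        co x δ P a * co x δ Q b * co x δ R e * co x δ S f *
          ((((Ioc X1 X2).filter (fun N => N ≡ r [MOD q0] ∧ a * b ∣ N + h ∧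
            e * f ∣ N + h')).card : ℝ) - ((X2 : ℝ) - X1) / ((q0 : ℝ) * a * b * e * f))
      else 0| ≤ Cc * x ^ (1 - η / 100) := by
    have hyx : y ^ (1 - η / 64) ≤ x ^ (1 - η / 100) := by
      rw [hy, ← Real.rpow_mul hx0.le]
      have e1 : (1 + θ) * (1 - η / 64) = 1 - η / 64 + θ - θ * η / 64 := by ring
      have e2 := mul_pos hθ0 hη
      exact hmono (by rw [e1]; linarith)
    refine le_trans (le_of_eq ?_) (mul_le_mul_of_nonneg_left (h1.trans hyx) hCc0.le)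
    rw [← abs_of_pos hCc0, ← abs_mul]
    congr 1
    simp only [Finset.mul_sum]
    refine Finset.sum_congr rfl fun a _ => Finset.sum_congr rfl fun b _ =>
      Finset.sum_congr rfl fun e _ => Finset.sum_congr rfl fun f _ => ?_
    split_ifs with hcn
    · have e1 : co x δ P a * co x δ Q b * co x δ R e * co x δ S f =
          Cc * (co x δ P a / fP * (co x δ Q b / fQ) * (co x δ R e / fR) *
            (co x δ S f / fS)) := by
        rw [hCc]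
        field_simp
      rw [e1]
      ring
    · rw [mul_zero]
  have hfl : ∀ (P : List ℕ) (s : ℝ), 0 ≤ s → (size P : ℝ) * δ ≤ s →
      ⌊x ^ ((size P : ℝ) * δ)⌋₊ ≤ ⌊y ^ s⌋₊ := fun P s hs h =>
    Nat.floor_le_floor ((hmono h).trans (hxyp s hs))
  have hfin := pp_split_b x δ a0 hx1' hδ P Q R S hP hQ hR hS X1 X2 q0 h h' r
    ⌊y ^ (1 / 2 - η)⌋₊ ⌊y ^ (1 / 20 - η)⌋₊ ⌊y ^ (1 / 2 - η)⌋₊ ⌊y ^ (1 / 20 - η)⌋₊ hX hq0 hhh
    hq (hh.trans_lt hxca) (hh'.trans_lt hxca)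
    (hfl P _ (by linarith) sP) (hfl Q _ (by linarith) sQ)
    (hfl R _ (by linarith) sR) (hfl S _ (by linarith) sS)
    (Cc * x ^ (1 - η / 100)) (x ^ (1 - a0 / 2) / q0 + x ^ ((3 : ℝ) / 4))
    (C * x ^ (-a0)) h1' h2
    (fun Z hZ => h3 Z hZ (hfl P _ (by linarith) sP) (hfl Q _ (by linarith) sQ)
      (hfl R _ (by linarith) sR) (hfl S _ (by linarith) sS))
  refine hfin.trans ?_
  have hq0R : (0 : ℝ) < q0 := by exact_mod_cast hq0
  have hq1R : (1 : ℝ) ≤ q0 := by exact_mod_cast hq0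
  have hX1' : (0 : ℝ) ≤ X1 := Nat.cast_nonneg _
  have hXle : (X2 : ℝ) - X1 ≤ x ^ (1 + θ) := by linarith
  have hcc1 : 0 < x ^ (1 - η / 128) := by positivity
  have e1 : 2 * (Cc * x ^ (1 - η / 100)) ≤ x ^ (1 - η / 128) := by
    have e2 : x ^ (1 - η / 128) = x ^ (η / 100 - η / 128) * x ^ (1 - η / 100) := by
      rw [← Real.rpow_add hx0]
      congr 1
      ring
    have e3 : 2 * Cc ≤ x ^ (η / 100 - η / 128) := by
      refine le_trans ?_ (hk2.trans (hmono (by linarith)))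
      linarith
    have e4 : 0 < x ^ (1 - η / 100) := by positivity
    rw [e2, ← mul_assoc]
    exact mul_le_mul_of_nonneg_right e3 e4.le
  have e1' : 2 * x ^ ((3 : ℝ) / 4) ≤ x ^ (1 - η / 128) := by
    have e2 : x ^ (1 - η / 128) = x ^ (1 / 4 - η / 128) * x ^ ((3 : ℝ) / 4) := by
      rw [← Real.rpow_add hx0]
      congr 1
      ring
    have e3 : 2 ≤ x ^ (1 / 4 - η / 128) := by
      refine le_trans ?_ (hk2.trans (hmono (by linarith)))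
      linarith
    have e4 : 0 < x ^ ((3 : ℝ) / 4) := by positivity
    rw [e2]
    exact mul_le_mul_of_nonneg_right e3 e4.le
  have e2 : 2 * x ^ (1 - a0 / 2) ≤ x ^ (1 - c) := by
    have e2 : x ^ (1 - c) = x ^ (a0 / 2 - c) * x ^ (1 - a0 / 2) := by
      rw [← Real.rpow_add hx0]
      congr 1
      ring
    have e3 : 2 ≤ x ^ (a0 / 2 - c) := by
      refine le_trans ?_ (hk1.trans (hmono (by linarith)))
      linarith
    have e4 : 0 < x ^ (1 - a0 / 2) := by positivity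
    rw [e2]
    exact mul_le_mul_of_nonneg_right e3 e4.le
  have e3 : 2 * (x ^ (1 + θ) * (C * x ^ (-a0))) ≤ x ^ (1 - c) := by
    have e5 : x ^ (1 - c) = x ^ (a0 - θ - c) * (x ^ (1 + θ) * x ^ (-a0)) := by
      rw [← Real.rpow_add hx0, ← Real.rpow_add hx0]
      congr 1
      ring
    have e6 : 2 * C ≤ x ^ (a0 - θ - c) := by
      refine le_trans ?_ (hk1.trans (hmono (by linarith)))
      linarith
    have e7 : 0 < x ^ (1 + θ) * x ^ (-a0) := by positivity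
    rw [e5]
    have e8 := mul_le_mul_of_nonneg_right e6 e7.le
    linarith
  have e8 : ((X2 : ℝ) - X1) / q0 * (C * x ^ (-a0)) ≤ x ^ (1 + θ) * (C * x ^ (-a0)) / q0 := by
    rw [div_mul_eq_mul_div]
    have : 0 ≤ C * x ^ (-a0) := by positivity
    gcongr
  have e9 : x ^ (1 - a0 / 2) / q0 + x ^ (1 + θ) * (C * x ^ (-a0)) / q0 ≤ x ^ (1 - c) / q0 := by
    rw [← add_div]
    gcongr
    linarith
  linarith

end Pool.Agent.H11.PT
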