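import Pool.Agent.H11.PT.Mon

/-!
# [H11 PT COF] The coefficients `co`

Proof.  A tuple of distinct primes with product `a` has range equal to the set of prime factors of `a`, so there
are at most `(length)!` of them (an injective map into a set with `length` elements) and `a` is squarefree;
`a ≥ 1`; all prime factors of `a` are `≥ x^(a0)` if `a0 ≤ j δ` for all `j ∈ P`.  `co_sum`: summation over all
tuples: `∑_a co a g(a) = ∑_{t ∈ tp} g(∏ t)`.
-/

namespace Pool.Agent.H11.PT

open Finset Pool.Agent.H89.P2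

theorem co_nonneg (x δ : ℝ) (P : List ℕ) (a : ℕ) : 0 ≤ co x δ P a := by
  unfold co
  positivity

theorem cof_mem {x δ : ℝ} {P : List ℕ} {t : Fin P.length → ℕ} (ht : t ∈ tp x δ P)
    (i : Fin P.length) : t i ∈ cell x δ (P.get i) := by
  classical
  unfold tp at ht
  rw [Finset.mem_filter, Fintype.mem_piFinset] at ht
  exact ht.1 i

theorem cof_prime {x δ : ℝ} {P : List ℕ} {t : Fin P.length → ℕ} (ht : t ∈ tp x δ P)
    (i : Fin P.length) : (t i).Prime := cell_prime (cof_mem ht i)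

theorem cof_inj {x δ : ℝ} {P : List ℕ} {t : Fin P.length → ℕ} (ht : t ∈ tp x δ P) :
    Function.Injective t := by
  classical
  unfold tp at ht
  rw [Finset.mem_filter] at ht
  exact ht.2

theorem cof_ex {x δ : ℝ} {P : List ℕ} {a : ℕ} (h : co x δ P a ≠ 0) :
    ∃ t ∈ tp x δ P, ∏ i, t i = a := by
  classical
  unfold co at h
  rw [Nat.cast_ne_zero, Finset.card_ne_zero] at h
  obtain ⟨t, ht⟩ := h
  rw [Finset.mem_filter] at ht
  exact ⟨t, ht.1, ht.2⟩

theorem co_le (x δ : ℝ) (P : List ℕ) (a : ℕ) : co x δ P a ≤ (P.length.factorial : ℝ) := by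
  classical
  unfold co
  rw [Nat.cast_le]
  rcases ((tp x δ P).filter (fun t => ∏ i, t i = a)).eq_empty_or_nonempty with h | ⟨t0, ht0⟩
  · rw [h, Finset.card_empty]
    exact Nat.zero_le _
  · rw [Finset.mem_filter] at ht0
    have hsub : (tp x δ P).filter (fun t => ∏ i, t i = a) ⊆
        (Finset.univ : Finset (Equiv.Perm (Fin P.length))).image
          (fun σ : Equiv.Perm (Fin P.length) => fun i => t0 (σ i)) := by
      intro t ht
      rw [Finset.mem_filter] at ht
      have h1 : ∀ i, ∃ j, t i = t0 j := by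
        intro i
        have hp := cof_prime ht.1 i
        have hd : t i ∣ ∏ j, t0 j := by
          rw [ht0.2, ← ht.2]
          exact Finset.dvd_prod_of_mem _ (Finset.mem_univ i)
        obtain ⟨j, -, hj⟩ := (hp.prime.dvd_finsetProd_iff _).1 hd
        exact ⟨j, (Nat.prime_dvd_prime_iff_eq hp (cof_prime ht0.1 j)).1 hj⟩
      choose σ hσ using h1
      have hinj : Function.Injective σ := by
        intro i j hij
        apply cof_inj ht.1
        rw [hσ i, hσ j, hij]
      rw [Finset.mem_image]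
      refine ⟨Equiv.ofBijective σ (Finite.injective_iff_bijective.1 hinj), Finset.mem_univ _, ?_⟩
      funext i
      exact (hσ i).symm
    calc ((tp x δ P).filter (fun t => ∏ i, t i = a)).card ≤ _ := Finset.card_le_card hsub
      _ ≤ (Finset.univ : Finset (Equiv.Perm (Fin P.length))).card := Finset.card_image_le
      _ = P.length.factorial := by rw [Finset.card_univ, Fintype.card_perm, Fintype.card_fin]

theorem co_sqf (x δ : ℝ) (P : List ℕ) (a : ℕ) (h : co x δ P a ≠ 0) :
    Squarefree a ∧ 0 < a := by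
  obtain ⟨t, ht, rfl⟩ := cof_ex h
  refine ⟨?_, Finset.prod_pos fun i _ => (cof_prime ht i).pos⟩
  refine Finset.squarefree_prod_of_pairwise_isCoprime ?_ fun i _ => (cof_prime ht i).squarefree
  intro i _ j _ hij
  exact Nat.coprime_iff_isRelPrime.1
    ((Nat.coprime_primes (cof_prime ht i) (cof_prime ht j)).2 fun h => hij (cof_inj ht h))

theorem co_rough (x δ a0 : ℝ) (hx : 1 < x) (P : List ℕ) (hP : ∀ j ∈ P, a0 ≤ (j : ℝ) * δ) (a : ℕ)
    (h : co x δ P a ≠ 0) (p : ℕ) (hp : p.Prime) (hpa : p ∣ a) : x ^ a0 ≤ (p : ℝ) := by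
  obtain ⟨t, ht, rfl⟩ := cof_ex h
  obtain ⟨i, -, hi⟩ := (hp.prime.dvd_finsetProd_iff _).1 hpa
  have h1 : p = t i := (Nat.prime_dvd_prime_iff_eq hp (cof_prime ht i)).1 hi
  rw [h1]
  refine le_trans ?_ (cell_lo (cof_mem ht i))
  exact Real.rpow_le_rpow_of_exponent_le hx.le (hP _ (List.get_mem P i))

theorem co_sum (x δ : ℝ) (hx : 1 < x) (hδ : 0 < δ) (P : List ℕ) (N : ℕ)
    (hN : ⌊x ^ ((size P : ℝ) * δ)⌋₊ ≤ N) (g : ℕ → ℝ) :
    ∑ a ∈ Icc 1 N, co x δ P a * g a = ∑ t ∈ tp x δ P, g (∏ i, t i) := by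
  classical
  have hmaps : ∀ t ∈ tp x δ P, (∏ i, t i) ∈ Icc 1 N := by
    intro t ht
    rw [Finset.mem_Icc]
    refine ⟨Finset.prod_pos fun i _ => (cof_prime ht i).pos, le_trans ?_ hN⟩
    exact Nat.le_floor (prod_le x δ hx hδ P t ht)
  rw [← Finset.sum_fiberwise_of_maps_to hmaps (fun t => g (∏ i, t i))]
  refine Finset.sum_congr rfl fun a _ => ?_
  have h1 : ∑ t ∈ (tp x δ P).filter (fun t => ∏ i, t i = a), g (∏ i, t i) =
      ∑ t ∈ (tp x δ P).filter (fun t => ∏ i, t i = a), g a := by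
    refine Finset.sum_congr rfl fun t ht => ?_
    rw [(Finset.mem_filter.1 ht).2]
  rw [h1, Finset.sum_const, nsmul_eq_mul]
  rfl

end Pool.Agent.H11.PT
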