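import Pool.Agent.H11.PT.Lay
import Pool.Agent.H21.MT.Gw

/-!
# [H11 PT GWL] From intervals to the weight `gw` (proved)
-/

namespace Pool.Agent.H11.PT

open Finset Filter Pool.Agent.H21.MT

theorem gw_up {x : ℝ} (hx : 1 ≤ x) (k : ℕ) (hk0 : 0 < k) (hk : k < ⌊x⌋₊) :
    gw x k ≤ gw x (k + 1) := by
  have hx0 : 0 < x := by linarith
  have hk' : (k : ℝ) + 1 ≤ x := by
    have h1 : k + 1 ≤ ⌊x⌋₊ := hk
    have h2 := (Nat.le_floor_iff hx0.le).mp h1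
    push_cast at h2
    exact h2
  have hkpos : (0 : ℝ) < k := by exact_mod_cast hk0
  unfold gw
  apply Real.exp_le_exp.mpr
  have h1 : Real.log ((k : ℝ) / x) ≤ Real.log (((k + 1 : ℕ) : ℝ) / x) := by
    apply Real.log_le_log (by positivity)
    apply div_le_div_of_nonneg_right _ hx0.le
    push_cast
    linarith
  have h2 : Real.log (((k + 1 : ℕ) : ℝ) / x) ≤ 0 := by
    apply Real.log_nonpos (by positivity)
    rw [div_le_one hx0]
    push_cast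
    exact hk'
  have h3 : (Real.log (((k + 1 : ℕ) : ℝ) / x)) ^ 2 ≤ (Real.log ((k : ℝ) / x)) ^ 2 := by
    nlinarith
  linarith

theorem gw_down {x : ℝ} (hx : 1 ≤ x) (k : ℕ) (hk : ⌊x⌋₊ < k) :
    gw x (k + 1) ≤ gw x k := by
  have hx0 : 0 < x := by linarith
  have hk' : x < k := Nat.lt_of_floor_lt hk
  have hkpos : (0 : ℝ) < k := by linarith
  unfold gw
  apply Real.exp_le_exp.mpr
  have h1 : Real.log ((k : ℝ) / x) ≤ Real.log (((k + 1 : ℕ) : ℝ) / x) := by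
    apply Real.log_le_log (by positivity)
    apply div_le_div_of_nonneg_right _ hx0.le
    push_cast
    linarith
  have h2 : 0 ≤ Real.log ((k : ℝ) / x) := by
    apply Real.log_nonneg
    rw [one_le_div hx0]
    exact hk'.le
  have h3 : (Real.log ((k : ℝ) / x)) ^ 2 ≤ (Real.log (((k + 1 : ℕ) : ℝ) / x)) ^ 2 := by
    nlinarith
  linarith

/-- the weight `gw x` against a function equidistributed in intervals -/
theorem gw_layer {x : ℝ} (hx : 1 ≤ x) (F : ℕ → ℝ) (Y0 Y : ℕ) (h0 : Y0 ≤ ⌊x⌋₊) (hY : ⌊x⌋₊ ≤ Y)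
    (A E : ℝ) (hE : ∀ X1 X2, Y0 ≤ X1 → X1 ≤ X2 → X2 ≤ Y →
      |∑ N ∈ Ioc X1 X2, F N - A * ((X2 : ℝ) - X1)| ≤ E) :
    |∑ N ∈ Ioc Y0 Y, gw x N * F N - A * ∑ N ∈ Ioc Y0 Y, gw x N| ≤ 2 * E :=
  layer (gw x) F Y0 ⌊x⌋₊ Y h0 hY (fun n => (gw_pos x n).le) (fun n => gw_le_one x n)
    (fun n h1 h2 => gw_up hx n (by omega) h2) (fun n h1 _ => gw_down hx n h1) A E hE

end Pool.Agent.H11.PT
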