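import Pool.Agent.H11.PT.Cof
import Pool.Agent.H92.DivBound

/-!
# [H11 PT NSQ] The contribution of non-coprime pairs (a, b)

Proof.  Let `a, b` with `co P a co Q b ≠ 0`, `gcd(a,b) > 1`: some prime `p ≥ x^a0` divides both, so `p^2 ∣ a b`.
Counts: `∑_{a,b,e,f} [a b ∣ N+h, e f ∣ N+h'] ≤ τ(N+h)^2 τ(N+h')^2 ≤ x^(a0/8)` for `1 ≤ N + h, N + h' ≤ 2 x^(1+a0/8)`
(`H92.DivBound` with exponent `a0/200`, `x` large), and the number of `N ∈ (X1, X2]` such that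
`p^2 ∣ N + h` for some prime `p ≥ x^a0` is, with `y = 2 x^(1+a0/8)`, `≤ ∑_{x^a0 ≤ p ≤ √y} (y/p^2 + 1)
≤ 2 y x^(-a0) + √y` (`∑_{n ≥ z} 1/n^2 ≤ 2/z`).  Coefficients `≤ (lengths)!`.  So the sum is
`≤ C x^(a0/8) (4 x^(1+a0/8-a0) + 2 x^(1/2+a0/16)) ≤ x^(1-a0/2)`.
(`a0 ≤ 1/2`; here `NA, NB ≤ x`.)
-/

namespace Pool.Agent.H11.PT

open Finset Pool.Agent.H89.P2

theorem nsq_tau (A : Finset ℕ) (n : ℕ) (hn : n ≠ 0) :
    ∑ a ∈ A, (if a ∣ n then (1 : ℝ) else 0) ≤ (n.divisors.card : ℝ) := by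
  rw [← Finset.sum_filter, Finset.sum_const, nsmul_eq_mul, mul_one, Nat.cast_le]
  refine Finset.card_le_card fun a ha => ?_
  rw [Finset.mem_filter] at ha
  exact Nat.mem_divisors.2 ⟨ha.2, hn⟩

theorem nsq_swap (A B I : Finset ℕ) (F : ℕ → ℕ → ℕ → ℕ → ℕ → ℝ) :
    ∑ a ∈ A, ∑ b ∈ B, ∑ e ∈ A, ∑ f ∈ B, ∑ N ∈ I, F a b e f N =
      ∑ N ∈ I, ∑ a ∈ A, ∑ b ∈ B, ∑ e ∈ A, ∑ f ∈ B, F a b e f N := by
  calc ∑ a ∈ A, ∑ b ∈ B, ∑ e ∈ A, ∑ f ∈ B, ∑ N ∈ I, F a b e f N =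
      ∑ a ∈ A, ∑ b ∈ B, ∑ e ∈ A, ∑ N ∈ I, ∑ f ∈ B, F a b e f N :=
        Finset.sum_congr rfl fun a _ => Finset.sum_congr rfl fun b _ =>
          Finset.sum_congr rfl fun e _ => Finset.sum_comm
    _ = ∑ a ∈ A, ∑ b ∈ B, ∑ N ∈ I, ∑ e ∈ A, ∑ f ∈ B, F a b e f N :=
        Finset.sum_congr rfl fun a _ => Finset.sum_congr rfl fun b _ => Finset.sum_comm
    _ = ∑ a ∈ A, ∑ N ∈ I, ∑ b ∈ B, ∑ e ∈ A, ∑ f ∈ B, F a b e f N :=
        Finset.sum_congr rfl fun a _ => Finset.sum_comm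
    _ = _ := Finset.sum_comm

theorem nsq_fac (A B : Finset ℕ) (u v w z : ℕ → ℝ) :
    ∑ a ∈ A, ∑ b ∈ B, ∑ e ∈ A, ∑ f ∈ B, u a * v b * (w e * z f) =
      ((∑ a ∈ A, u a) * ∑ b ∈ B, v b) * ((∑ e ∈ A, w e) * ∑ f ∈ B, z f) := by
  rw [Finset.sum_mul_sum, Finset.sum_mul_sum, Finset.sum_mul]
  refine Finset.sum_congr rfl fun a _ => ?_
  rw [Finset.sum_mul]
  refine Finset.sum_congr rfl fun b _ => ?_
  rw [Finset.mul_sum]
  refine Finset.sum_congr rfl fun e _ => ?_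
  rw [Finset.mul_sum]

theorem nsq_cnt (X1 X2 h d : ℕ) (hd : 0 < d) (y : ℝ) (hy : ((X2 + h : ℕ) : ℝ) ≤ y) :
    (((Ioc X1 X2).filter (fun N => d ∣ N + h)).card : ℝ) ≤ y * ((d : ℝ))⁻¹ := by
  have h1 : ((Ioc X1 X2).filter (fun N => d ∣ N + h)).card ≤
      ((Ioc 0 (X2 + h)).filter (fun n => d ∣ n)).card := by
    rw [← Finset.card_image_of_injective _ (add_left_injective h)]
    refine Finset.card_le_card fun n hn => ?_
    rw [Finset.mem_image] at hn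
    obtain ⟨N, hN, rfl⟩ := hn
    rw [Finset.mem_filter, Finset.mem_Ioc] at hN ⊢
    exact ⟨⟨by omega, by omega⟩, hN.2⟩
  rw [Nat.Ioc_filter_dvd_card_eq_div] at h1
  have h2 : (((X2 + h) / d : ℕ) : ℝ) ≤ ((X2 + h : ℕ) : ℝ) / d := Nat.cast_div_le
  have hd0 : (0 : ℝ) < d := by exact_mod_cast hd
  calc (((Ioc X1 X2).filter (fun N => d ∣ N + h)).card : ℝ) ≤ (((X2 + h) / d : ℕ) : ℝ) := by
        exact_mod_cast h1
    _ ≤ ((X2 + h : ℕ) : ℝ) / d := h2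
    _ ≤ y / d := by gcongr
    _ = y * ((d : ℝ))⁻¹ := div_eq_mul_inv _ _

open Classical in
theorem nsq_bad (x a0 y : ℝ) (hx : 1 ≤ x) (X1 X2 h : ℕ) (h1 : ((X2 + h : ℕ) : ℝ) ≤ y)
    (ha0 : 0 < a0) :
    (((Ioc X1 X2).filter (fun N => ∃ p : ℕ, p.Prime ∧ x ^ a0 ≤ (p : ℝ) ∧ p ^ 2 ∣ N + h)).card
      : ℝ) ≤ 2 * y * x ^ (-a0) := by
  have hy0 : 0 ≤ y := (Nat.cast_nonneg _).trans h1
  have hx0 : 0 < x := by linarith
  have hy1 : 1 ≤ x ^ a0 := Real.one_le_rpow hx ha0.le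
  obtain ⟨m, hm⟩ : ∃ m : ℕ, m = ⌈x ^ a0⌉₊ := ⟨_, rfl⟩
  have hm1 : x ^ a0 ≤ m := by
    rw [hm]
    exact Nat.le_ceil _
  have hm0 : 1 ≤ m := by
    have : (1 : ℝ) ≤ m := hy1.trans hm1
    exact_mod_cast this
  have hsub : (Ioc X1 X2).filter (fun N => ∃ p : ℕ, p.Prime ∧ x ^ a0 ≤ (p : ℝ) ∧ p ^ 2 ∣ N + h) ⊆
      (Ioo (m - 1) (X2 + h + 1)).biUnion
        (fun p => (Ioc X1 X2).filter (fun N => p ^ 2 ∣ N + h)) := by
    intro N hN
    rw [Finset.mem_filter] at hN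
    obtain ⟨hN, p, hp, hpx, hpd⟩ := hN
    rw [Finset.mem_biUnion]
    refine ⟨p, ?_, Finset.mem_filter.2 ⟨hN, hpd⟩⟩
    rw [Finset.mem_Ioc] at hN
    have h2 : p ^ 2 ≤ N + h := Nat.le_of_dvd (by omega) hpd
    have h3 : p ≤ p ^ 2 := Nat.le_self_pow (by norm_num) p
    have h4 : m ≤ p := by
      rw [hm]
      exact Nat.ceil_le.2 hpx
    rw [Finset.mem_Ioo]
    omega
  have h2 := (Finset.card_le_card hsub).trans Finset.card_biUnion_le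
  have h3 : (((Ioc X1 X2).filter (fun N => ∃ p : ℕ, p.Prime ∧ x ^ a0 ≤ (p : ℝ) ∧
      p ^ 2 ∣ N + h)).card : ℝ) ≤ ∑ p ∈ Ioo (m - 1) (X2 + h + 1),
        (((Ioc X1 X2).filter (fun N => p ^ 2 ∣ N + h)).card : ℝ) := by
    exact_mod_cast h2
  have h4 : ∑ p ∈ Ioo (m - 1) (X2 + h + 1),
        (((Ioc X1 X2).filter (fun N => p ^ 2 ∣ N + h)).card : ℝ) ≤
      ∑ p ∈ Ioo (m - 1) (X2 + h + 1), y * ((p : ℝ) ^ 2)⁻¹ := by
    refine Finset.sum_le_sum fun p hp => ?_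
    rw [Finset.mem_Ioo] at hp
    have := nsq_cnt X1 X2 h (p ^ 2) (pow_pos (by omega) 2) y h1
    rwa [Nat.cast_pow] at this
  rw [← Finset.mul_sum] at h4
  have h5 := sum_Ioo_inv_sq_le (α := ℝ) (m - 1) (X2 + h + 1)
  have h6 : ((m - 1 : ℕ) : ℝ) + 1 = m := by
    rw [Nat.cast_sub hm0, Nat.cast_one]
    ring
  rw [h6] at h5
  have h7 : (2 : ℝ) / m ≤ 2 / x ^ a0 := by gcongr
  calc _ ≤ y * ∑ p ∈ Ioo (m - 1) (X2 + h + 1), ((p : ℝ) ^ 2)⁻¹ := h3.trans h4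
    _ ≤ y * (2 / x ^ a0) := mul_le_mul_of_nonneg_left (h5.trans h7) hy0
    _ = 2 * y * x ^ (-a0) := by
        rw [Real.rpow_neg hx0.le]
        ring

open Classical in
theorem nsq (δ a0 : ℝ) (hδ : 0 < δ) (ha0 : 0 < a0) (ha1 : a0 ≤ 1 / 2) (P Q R S : List ℕ)
    (hP : ∀ j ∈ P, a0 ≤ (j : ℝ) * δ) (hQ : ∀ j ∈ Q, a0 ≤ (j : ℝ) * δ) :
    ∃ x0 : ℝ, ∀ x ≥ x0, ∀ (X1 X2 h h' NA NB : ℕ), X1 ≤ X2 → (X2 : ℝ) ≤ x ^ (1 + a0 / 8) →
      (h : ℝ) ≤ x / 2 → (h' : ℝ) ≤ x / 2 →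
      ∑ a ∈ Icc 1 NA, ∑ b ∈ Icc 1 NB, ∑ e ∈ Icc 1 NA, ∑ f ∈ Icc 1 NB,
        (if ¬ Nat.Coprime a b then co x δ P a * co x δ Q b * co x δ R e * co x δ S f *
          (((Ioc X1 X2).filter (fun N => a * b ∣ N + h ∧ e * f ∣ N + h')).card : ℝ) else 0) ≤
        x ^ (1 - a0 / 2) := by
  obtain ⟨C1, hC1, hdiv⟩ := Pool.Agent.H5.W.divisor_bound (a0 / 200) (by linarith)
  obtain ⟨Cc, hCc⟩ : ∃ Cc : ℝ, Cc = (P.length.factorial : ℝ) * (Q.length.factorial : ℝ) *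
    (R.length.factorial : ℝ) * (S.length.factorial : ℝ) := ⟨_, rfl⟩
  have hCc0 : 0 ≤ Cc := by
    rw [hCc]
    positivity
  have hev : ∀ᶠ x : ℝ in Filter.atTop, Cc * 8 * C1 ^ 4 ≤ x ^ (7 * a0 / 20) :=
    (tendsto_rpow_atTop (by positivity)).eventually_ge_atTop _
  obtain ⟨x1, hx1⟩ := Filter.eventually_atTop.1 hev
  refine ⟨max x1 2, fun x hx X1 X2 h h' NA NB hX hX2 hh hh' => ?_⟩
  have hxx1 := hx1 x ((le_max_left _ _).trans hx)
  have hx2 : 2 ≤ x := (le_max_right _ _).trans hx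
  have hx0 : 0 < x := by linarith
  obtain ⟨y, hy⟩ : ∃ y : ℝ, y = 2 * x ^ (1 + a0 / 8) := ⟨_, rfl⟩
  have hxy : x ≤ x ^ (1 + a0 / 8) := by
    conv_lhs => rw [← Real.rpow_one x]
    exact Real.rpow_le_rpow_of_exponent_le (by linarith) (by linarith)
  have hy0 : 0 < y := by
    rw [hy]
    positivity
  have hXh : ((X2 + h : ℕ) : ℝ) ≤ y := by
    push_cast
    linarith
  have hXh' : ((X2 + h' : ℕ) : ℝ) ≤ y := by
    push_cast
    linarith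
  obtain ⟨I, hI⟩ : ∃ I : Finset ℕ, I = (Ioc X1 X2).filter
    (fun N => ∃ p : ℕ, p.Prime ∧ x ^ a0 ≤ (p : ℝ) ∧ p ^ 2 ∣ N + h) := ⟨_, rfl⟩
  have hIcard : (I.card : ℝ) ≤ 2 * y * x ^ (-a0) := by
    rw [hI]
    exact nsq_bad x a0 y (by linarith) X1 X2 h hXh ha0
  have hpt : ∀ a ∈ Icc 1 NA, ∀ b ∈ Icc 1 NB, ∀ e ∈ Icc 1 NA, ∀ f ∈ Icc 1 NB,
      (if ¬ Nat.Coprime a b then co x δ P a * co x δ Q b * co x δ R e * co x δ S f *
          (((Ioc X1 X2).filter (fun N => a * b ∣ N + h ∧ e * f ∣ N + h')).card : ℝ) else 0) ≤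
        ∑ N ∈ I, Cc * ((if a ∣ N + h then 1 else 0) * (if b ∣ N + h then 1 else 0) *
          ((if e ∣ N + h' then 1 else 0) * (if f ∣ N + h' then 1 else 0))) := by
    intro a _ b _ e _ f _
    have hnn : 0 ≤ ∑ N ∈ I, Cc * ((if a ∣ N + h then (1 : ℝ) else 0) *
        (if b ∣ N + h then 1 else 0) *
          ((if e ∣ N + h' then 1 else 0) * (if f ∣ N + h' then 1 else 0))) := by
      refine Finset.sum_nonneg fun N _ => mul_nonneg hCc0 ?_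
      positivity
    by_cases hcop : Nat.Coprime a b
    · rw [if_neg (not_not.2 hcop)]
      exact hnn
    rw [if_pos hcop]
    by_cases h0 : co x δ P a * co x δ Q b * co x δ R e * co x δ S f = 0
    · rw [h0, zero_mul]
      exact hnn
    have hPa : co x δ P a ≠ 0 := fun h1 => h0 (by rw [h1]; ring)
    have hQb : co x δ Q b ≠ 0 := fun h1 => h0 (by rw [h1]; ring)
    obtain ⟨p, hp, hpa, hpb⟩ := Nat.Prime.not_coprime_iff_dvd.1 hcop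
    have hpx := co_rough x δ a0 (by linarith) P hP a hPa p hp hpa
    have hCle : co x δ P a * co x δ Q b * co x δ R e * co x δ S f ≤ Cc := by
      rw [hCc]
      have hp1 := co_nonneg x δ P a
      have hp2 := co_nonneg x δ Q b
      have hp3 := co_nonneg x δ R e
      have hp4 := co_nonneg x δ S f
      have hp5 := co_le x δ P a
      have hp6 := co_le x δ Q b
      have hp7 := co_le x δ R e
      have hp8 := co_le x δ S f
      gcongr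
    have hcard : (((Ioc X1 X2).filter (fun N => a * b ∣ N + h ∧ e * f ∣ N + h')).card : ℝ) ≤
        ∑ N ∈ I, ((if a ∣ N + h then (1 : ℝ) else 0) * (if b ∣ N + h then 1 else 0) *
          ((if e ∣ N + h' then 1 else 0) * (if f ∣ N + h' then 1 else 0))) := by
      have h2 : (((Ioc X1 X2).filter (fun N => a * b ∣ N + h ∧ e * f ∣ N + h')).card : ℝ) =
          ∑ N ∈ (Ioc X1 X2).filter (fun N => a * b ∣ N + h ∧ e * f ∣ N + h'),
            ((if a ∣ N + h then (1 : ℝ) else 0) * (if b ∣ N + h then 1 else 0) *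
          ((if e ∣ N + h' then 1 else 0) * (if f ∣ N + h' then 1 else 0))) := by
        rw [Finset.card_eq_sum_ones, Nat.cast_sum]
        refine Finset.sum_congr rfl fun N hN => ?_
        obtain ⟨-, h3, h4⟩ := Finset.mem_filter.1 hN
        rw [if_pos (dvd_of_mul_right_dvd h3), if_pos (dvd_of_mul_left_dvd h3),
          if_pos (dvd_of_mul_right_dvd h4), if_pos (dvd_of_mul_left_dvd h4)]
        norm_num
      rw [h2]
      refine Finset.sum_le_sum_of_subset_of_nonneg ?_ fun N _ _ => by positivity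
      intro N hN
      obtain ⟨hN1, h3, -⟩ := Finset.mem_filter.1 hN
      rw [hI, Finset.mem_filter]
      refine ⟨hN1, p, hp, hpx, ?_⟩
      rw [sq]
      exact (mul_dvd_mul hpa hpb).trans h3
    rw [← Finset.mul_sum]
    exact mul_le_mul hCle hcard (by positivity) hCc0
  have hsum := Finset.sum_le_sum fun a ha => Finset.sum_le_sum fun b hb =>
    Finset.sum_le_sum fun e he => Finset.sum_le_sum fun f hf => hpt a ha b hb e he f hf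
  refine hsum.trans ?_
  rw [nsq_swap]
  obtain ⟨τ, hτ⟩ : ∃ τ : ℝ, τ = C1 * y ^ (a0 / 200) := ⟨_, rfl⟩
  have hτ0 : 0 ≤ τ := by
    rw [hτ]
    positivity
  have hdiv' : ∀ n : ℕ, 1 ≤ n → (n : ℝ) ≤ y → (n.divisors.card : ℝ) ≤ τ := by
    intro n hn hn4
    refine (hdiv n hn).trans ?_
    rw [hτ]
    gcongr
  have hN : ∀ N ∈ I, ∑ a ∈ Icc 1 NA, ∑ b ∈ Icc 1 NB, ∑ e ∈ Icc 1 NA, ∑ f ∈ Icc 1 NB,
      Cc * ((if a ∣ N + h then (1 : ℝ) else 0) * (if b ∣ N + h then 1 else 0) *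
          ((if e ∣ N + h' then 1 else 0) * (if f ∣ N + h' then 1 else 0))) ≤ Cc * τ ^ 4 := by
    intro N hN
    rw [hI, Finset.mem_filter, Finset.mem_Ioc] at hN
    have hN1 : 1 ≤ N := by omega
    have hNr : (N : ℝ) ≤ X2 := by exact_mod_cast hN.1.2
    have e1 : ∑ a ∈ Icc 1 NA, ∑ b ∈ Icc 1 NB, ∑ e ∈ Icc 1 NA, ∑ f ∈ Icc 1 NB,
      Cc * ((if a ∣ N + h then (1 : ℝ) else 0) * (if b ∣ N + h then 1 else 0) *
          ((if e ∣ N + h' then 1 else 0) * (if f ∣ N + h' then 1 else 0))) =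
        Cc * (((∑ a ∈ Icc 1 NA, (if a ∣ N + h then (1 : ℝ) else 0)) *
          ∑ b ∈ Icc 1 NB, (if b ∣ N + h then (1 : ℝ) else 0)) *
          ((∑ e ∈ Icc 1 NA, (if e ∣ N + h' then (1 : ℝ) else 0)) *
          ∑ f ∈ Icc 1 NB, (if f ∣ N + h' then (1 : ℝ) else 0))) := by
      rw [← nsq_fac]
      simp only [Finset.mul_sum]
    rw [e1]
    have hn1 : ((N + h : ℕ) : ℝ) ≤ y := by
      push_cast
      push_cast at hXh
      linarith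
    have hn2 : ((N + h' : ℕ) : ℝ) ≤ y := by
      push_cast
      push_cast at hXh'
      linarith
    have t1 := (nsq_tau (Icc 1 NA) (N + h) (by omega)).trans (hdiv' (N + h) (by omega) hn1)
    have t2 := (nsq_tau (Icc 1 NB) (N + h) (by omega)).trans (hdiv' (N + h) (by omega) hn1)
    have t3 := (nsq_tau (Icc 1 NA) (N + h') (by omega)).trans (hdiv' (N + h') (by omega) hn2)
    have t4 := (nsq_tau (Icc 1 NB) (N + h') (by omega)).trans (hdiv' (N + h') (by omega) hn2)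
    have s0 : ∀ (A : Finset ℕ) (n : ℕ), 0 ≤ ∑ a ∈ A, (if a ∣ n then (1 : ℝ) else 0) :=
      fun A n => Finset.sum_nonneg fun a _ => by positivity
    have e2 : τ ^ 4 = (τ * τ) * (τ * τ) := by ring
    rw [e2]
    have s1 := s0 (Icc 1 NA) (N + h)
    have s2 := s0 (Icc 1 NB) (N + h)
    have s3 := s0 (Icc 1 NA) (N + h')
    have s4 := s0 (Icc 1 NB) (N + h')
    gcongr
  refine (Finset.sum_le_sum hN).trans ?_
  rw [Finset.sum_const, nsmul_eq_mul]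
  have hτ4 : τ ^ 4 ≤ C1 ^ 4 * 2 * x ^ (a0 / 40) := by
    have e1 : τ ^ 4 = C1 ^ 4 * ((2 : ℝ) ^ (a0 / 50) * x ^ ((1 + a0 / 8) * (a0 / 50))) := by
      rw [hτ, mul_pow, ← Real.rpow_natCast (y ^ (a0 / 200)) 4, ← Real.rpow_mul hy0.le, hy,
        Real.mul_rpow (by norm_num) (by positivity), ← Real.rpow_mul hx0.le]
      congr 3 <;> push_cast <;> ring
    have e2 : (2 : ℝ) ^ (a0 / 50) ≤ 2 := by
      calc (2 : ℝ) ^ (a0 / 50) ≤ 2 ^ (1 : ℝ) :=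
            Real.rpow_le_rpow_of_exponent_le (by norm_num) (by linarith)
        _ = 2 := Real.rpow_one 2
    have e3 : x ^ ((1 + a0 / 8) * (a0 / 50)) ≤ x ^ (a0 / 40) :=
      Real.rpow_le_rpow_of_exponent_le (by linarith) (by nlinarith)
    have e4 : 0 ≤ x ^ ((1 + a0 / 8) * (a0 / 50)) := by positivity
    rw [e1]
    calc C1 ^ 4 * ((2 : ℝ) ^ (a0 / 50) * x ^ ((1 + a0 / 8) * (a0 / 50))) ≤
          C1 ^ 4 * (2 * x ^ (a0 / 40)) := by gcongr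
      _ = _ := by ring
  calc (I.card : ℝ) * (Cc * τ ^ 4) ≤
        (2 * y * x ^ (-a0)) * (Cc * (C1 ^ 4 * 2 * x ^ (a0 / 40))) := by gcongr
    _ = (Cc * 8 * C1 ^ 4) * (x ^ (1 + a0 / 8) * x ^ (-a0) * x ^ (a0 / 40)) := by
        rw [hy]
        ring
    _ ≤ x ^ (7 * a0 / 20) * (x ^ (1 + a0 / 8) * x ^ (-a0) * x ^ (a0 / 40)) := by gcongr
    _ = x ^ (1 - a0 / 2) := by
        rw [← Real.rpow_add hx0, ← Real.rpow_add hx0, ← Real.rpow_add hx0]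
        congr 1
        ring

end Pool.Agent.H11.PT
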