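import Pool.Agent.H11.PX.Defs
import Pool.Agent.H11.PT.Nsq
import Pool.Agent.H11.PT.Mai

/-!
# [H11 PT PAIRAUX] Common part of PAIR and TRIV (helper33)

`pp_split`: the sum over `N` of the product of two monomials, minus its expected value, is at most the error of
the counts over the quadruples satisfying `cnd`, plus the contribution of the non-coprime pairs, plus the error
of the main term.
-/

namespace Pool.Agent.H11.PT

open Finset Pool.Agent.H89.P2 Pool.Agent.H11.PX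

theorem pp_s4 (A B A' B' : Finset ℕ) (F : ℕ → ℕ → ℕ → ℕ → ℝ) :
    ∑ a ∈ A, ∑ b ∈ B, ∑ e ∈ A', ∑ f ∈ B', F a b e f =
      ∑ q ∈ (A ×ˢ B) ×ˢ (A' ×ˢ B'), F q.1.1 q.1.2 q.2.1 q.2.2 := by
  rw [Finset.sum_product, Finset.sum_product]
  refine Finset.sum_congr rfl fun a _ => Finset.sum_congr rfl fun b _ => ?_
  rw [Finset.sum_product]

theorem pp_mul (A B A' B' : Finset ℕ) (u v : ℕ → ℕ → ℝ) :
    (∑ a ∈ A, ∑ b ∈ B, u a b) * (∑ e ∈ A', ∑ f ∈ B', v e f) =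
      ∑ q ∈ (A ×ˢ B) ×ˢ (A' ×ˢ B'), u q.1.1 q.1.2 * v q.2.1 q.2.2 := by
  rw [← Finset.sum_product' A B u, ← Finset.sum_product' A' B' v, Finset.sum_mul_sum,
    ← Finset.sum_product' (A ×ˢ B) (A' ×ˢ B') (fun p q => u p.1 p.2 * v q.1 q.2)]

theorem pp_cop (y : ℝ) (n k : ℕ) (hk : 0 < k) (hky : (k : ℝ) < y)
    (hr : ∀ p : ℕ, p.Prime → p ∣ n → y ≤ (p : ℝ)) : Nat.Coprime n k := by
  rw [Nat.coprime_iff_gcd_eq_one]
  by_contra h
  obtain ⟨p, hp, hpn, hpk⟩ := Nat.Prime.not_coprime_iff_dvd.1 h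
  have h1 := hr p hp hpn
  have h2 : (p : ℝ) ≤ k := by exact_mod_cast Nat.le_of_dvd hk hpk
  linarith

theorem pp_cnd (y : ℝ) (q0 κ a b e f : ℕ) (hq : 0 < q0) (hqy : (q0 : ℝ) < y) (hκ : 0 < κ)
    (hκy : (κ : ℝ) < y) (hr : ∀ p : ℕ, p.Prime → p ∣ a * b * e * f → y ≤ (p : ℝ))
    (h1 : Nat.Coprime (a * b) (e * f)) (h2 : Nat.Coprime e f) (he : Squarefree e)
    (hf : Squarefree f) : cnd q0 κ a b e f := by
  refine ⟨h1, pp_cop y _ q0 hq hqy hr, pp_cop y _ κ hκ hκy fun p hp hpd => hr p hp ?_,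
    (Nat.squarefree_mul h2).2 ⟨he, hf⟩⟩
  rw [mul_assoc (a * b)]
  exact hpd.mul_left _

open Classical in
theorem pp_lhs (x δ : ℝ) (hx : 1 < x) (hδ : 0 < δ) (P Q R S : List ℕ)
    (X1 X2 q0 h h' r NA NB NC ND : ℕ)
    (hA : ⌊x ^ ((size P : ℝ) * δ)⌋₊ ≤ NA) (hB : ⌊x ^ ((size Q : ℝ) * δ)⌋₊ ≤ NB)
    (hC : ⌊x ^ ((size R : ℝ) * δ)⌋₊ ≤ NC) (hD : ⌊x ^ ((size S : ℝ) * δ)⌋₊ ≤ ND) :
    ∑ N ∈ (Ioc X1 X2).filter (fun N => N ≡ r [MOD q0]),
          mono (P ++ Q) (kk x δ (N + h)) * mono (R ++ S) (kk x δ (N + h')) =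
      ∑ q ∈ (Icc 1 NA ×ˢ Icc 1 NB) ×ˢ (Icc 1 NC ×ˢ Icc 1 ND),
        if Nat.Coprime q.1.1 q.1.2 ∧ Nat.Coprime q.2.1 q.2.2 then
          co x δ P q.1.1 * co x δ Q q.1.2 * co x δ R q.2.1 * co x δ S q.2.2 *
          (((Ioc X1 X2).filter (fun N => N ≡ r [MOD q0] ∧ q.1.1 * q.1.2 ∣ N + h ∧
            q.2.1 * q.2.2 ∣ N + h')).card : ℝ) else 0 := by
  have h1 : ∀ N, mono (P ++ Q) (kk x δ (N + h)) * mono (R ++ S) (kk x δ (N + h')) =
      ∑ q ∈ (Icc 1 NA ×ˢ Icc 1 NB) ×ˢ (Icc 1 NC ×ˢ Icc 1 ND),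
        (if Nat.Coprime q.1.1 q.1.2 ∧ q.1.1 * q.1.2 ∣ N + h then
          co x δ P q.1.1 * co x δ Q q.1.2 else 0) *
        (if Nat.Coprime q.2.1 q.2.2 ∧ q.2.1 * q.2.2 ∣ N + h' then
          co x δ R q.2.1 * co x δ S q.2.2 else 0) := by
    intro N
    rw [mono_append x δ hx hδ P Q (N + h) NA NB hA hB,
      mono_append x δ hx hδ R S (N + h') NC ND hC hD]
    exact pp_mul _ _ _ _ _ _
  rw [Finset.sum_congr rfl fun N _ => h1 N, Finset.sum_comm]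
  refine Finset.sum_congr rfl fun q _ => ?_
  by_cases hc : Nat.Coprime q.1.1 q.1.2 ∧ Nat.Coprime q.2.1 q.2.2
  · rw [if_pos hc]
    have h2 : (Ioc X1 X2).filter (fun N => N ≡ r [MOD q0] ∧ q.1.1 * q.1.2 ∣ N + h ∧
            q.2.1 * q.2.2 ∣ N + h') = ((Ioc X1 X2).filter (fun N => N ≡ r [MOD q0])).filter
              (fun N => q.1.1 * q.1.2 ∣ N + h ∧ q.2.1 * q.2.2 ∣ N + h') := by
      rw [Finset.filter_filter]
    obtain ⟨J, hJ⟩ : ∃ J, J = (Ioc X1 X2).filter (fun N => N ≡ r [MOD q0]) := ⟨_, rfl⟩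
    rw [h2, ← hJ, Finset.card_eq_sum_ones, Nat.cast_sum, Finset.mul_sum, Finset.sum_filter]
    refine Finset.sum_congr rfl fun N _ => ?_
    by_cases h3 : q.1.1 * q.1.2 ∣ N + h
    · by_cases h4 : q.2.1 * q.2.2 ∣ N + h'
      · simp only [h3, h4, and_self, and_true, if_true, Nat.cast_one, mul_one]
        rw [if_pos hc.1, if_pos hc.2]
        ring
      · simp only [h4, and_false, if_false, mul_zero]
    · simp only [h3, and_false, false_and, if_false, zero_mul]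
  · rw [if_neg hc]
    refine Finset.sum_eq_zero fun N _ => ?_
    by_cases h3 : Nat.Coprime q.1.1 q.1.2
    · have h4 : ¬ Nat.Coprime q.2.1 q.2.2 := fun h4 => hc ⟨h3, h4⟩
      simp only [h4, false_and, if_false, mul_zero]
    · simp only [h3, false_and, if_false, zero_mul]

open Classical in
theorem pp_split (x δ a0 : ℝ) (hx : 1 < x) (hδ : 0 < δ) (P Q R S : List ℕ)
    (hP : ∀ j ∈ P, a0 ≤ (j : ℝ) * δ) (hQ : ∀ j ∈ Q, a0 ≤ (j : ℝ) * δ)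
    (hR : ∀ j ∈ R, a0 ≤ (j : ℝ) * δ) (hS : ∀ j ∈ S, a0 ≤ (j : ℝ) * δ)
    (X1 X2 q0 h h' r NA NB NC ND : ℕ) (hX : X1 ≤ X2) (hq0 : 0 < q0) (hhh : h ≠ h')
    (hq : (q0 : ℝ) < x ^ a0) (hh : (h : ℝ) < x ^ a0) (hh' : (h' : ℝ) < x ^ a0)
    (hA : ⌊x ^ ((size P : ℝ) * δ)⌋₊ ≤ NA) (hB : ⌊x ^ ((size Q : ℝ) * δ)⌋₊ ≤ NB)
    (hC : ⌊x ^ ((size R : ℝ) * δ)⌋₊ ≤ NC) (hD : ⌊x ^ ((size S : ℝ) * δ)⌋₊ ≤ ND)
    (E1 E2 E3 : ℝ)
    (h1 : |∑ a ∈ Icc 1 NA, ∑ b ∈ Icc 1 NB, ∑ e ∈ Icc 1 NC, ∑ f ∈ Icc 1 ND,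
      if cnd q0 ((h : ℤ) - h').natAbs a b e f then
        co x δ P a * co x δ Q b * co x δ R e * co x δ S f *
          ((((Ioc X1 X2).filter (fun N => N ≡ r [MOD q0] ∧ a * b ∣ N + h ∧
            e * f ∣ N + h')).card : ℝ) - ((X2 : ℝ) - X1) / ((q0 : ℝ) * a * b * e * f))
      else 0| ≤ E1)
    (h2 : ∑ a ∈ Icc 1 NA, ∑ b ∈ Icc 1 NB, ∑ e ∈ Icc 1 NC, ∑ f ∈ Icc 1 ND,
        (if ¬ Nat.Coprime a b then co x δ P a * co x δ Q b * co x δ R e * co x δ S f *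
          (((Ioc X1 X2).filter (fun N => a * b ∣ N + h ∧ e * f ∣ N + h')).card : ℝ) else 0) ≤ E2)
    (h3 : ∀ Z : ℕ → ℕ → ℕ → ℕ → Prop,
      (∀ a b e f, co x δ P a * co x δ Q b * co x δ R e * co x δ S f ≠ 0 → Nat.Coprime a b →
        Nat.Coprime e f → Nat.Coprime (a * b) (e * f) → Z a b e f) →
      |∑ a ∈ Icc 1 NA, ∑ b ∈ Icc 1 NB, ∑ e ∈ Icc 1 NC, ∑ f ∈ Icc 1 ND,
          (if Z a b e f then
            co x δ P a * co x δ Q b * co x δ R e * co x δ S f *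
              (1 / ((a : ℝ) * b * e * f)) else 0) -
        (P.map (ms x δ)).prod * (Q.map (ms x δ)).prod * (R.map (ms x δ)).prod *
          (S.map (ms x δ)).prod| ≤ E3) :
    |∑ N ∈ (Ioc X1 X2).filter (fun N => N ≡ r [MOD q0]),
          mono (P ++ Q) (kk x δ (N + h)) * mono (R ++ S) (kk x δ (N + h')) -
        ((X2 : ℝ) - X1) / q0 * (((P ++ Q).map (ms x δ)).prod * ((R ++ S).map (ms x δ)).prod)| ≤
      E1 + E2 + ((X2 : ℝ) - X1) / q0 * E3 := by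
  obtain ⟨κ, hκ⟩ : ∃ κ : ℕ, κ = ((h : ℤ) - h').natAbs := ⟨_, rfl⟩
  rw [← hκ] at h1
  have hκ0 : 0 < κ := by omega
  have hκy : (κ : ℝ) < x ^ a0 := by
    rcases Nat.lt_or_ge h h' with h4 | h4
    · have : κ ≤ h' := by omega
      have : (κ : ℝ) ≤ h' := by exact_mod_cast this
      linarith
    · have : κ ≤ h := by omega
      have : (κ : ℝ) ≤ h := by exact_mod_cast this
      linarith
  have hrough : ∀ a b e f, co x δ P a * co x δ Q b * co x δ R e * co x δ S f ≠ 0 →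
      (∀ p : ℕ, p.Prime → p ∣ a * b * e * f → x ^ a0 ≤ (p : ℝ)) ∧ Squarefree e ∧
        Squarefree f := by
    intro a b e f h0
    have hPa : co x δ P a ≠ 0 := fun h1 => h0 (by rw [h1]; ring)
    have hQb : co x δ Q b ≠ 0 := fun h1 => h0 (by rw [h1]; ring)
    have hRe : co x δ R e ≠ 0 := fun h1 => h0 (by rw [h1]; ring)
    have hSf : co x δ S f ≠ 0 := fun h1 => h0 (by rw [h1]; ring)
    refine ⟨fun p hp hpd => ?_, (co_sqf x δ R e hRe).1, (co_sqf x δ S f hSf).1⟩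
    rcases hp.dvd_mul.1 hpd with hpd | hpd
    · rcases hp.dvd_mul.1 hpd with hpd | hpd
      · rcases hp.dvd_mul.1 hpd with hpd | hpd
        · exact co_rough x δ a0 hx P hP a hPa p hp hpd
        · exact co_rough x δ a0 hx Q hQ b hQb p hp hpd
      · exact co_rough x δ a0 hx R hR e hRe p hp hpd
    · exact co_rough x δ a0 hx S hS f hSf p hp hpd
  have h3' := h3 (fun a b e f => cnd q0 κ a b e f) (fun a b e f h0 _ hef hc => by
    obtain ⟨hr, hse, hsf⟩ := hrough a b e f h0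
    exact pp_cnd (x ^ a0) q0 κ a b e f hq0 hq hκ0 hκy hr hc hef hse hsf)
  rw [pp_lhs x δ hx hδ P Q R S X1 X2 q0 h h' r NA NB NC ND hA hB hC hD]
  rw [pp_s4] at h1 h2 h3'
  obtain ⟨T, hT⟩ : ∃ T, T = (Icc 1 NA ×ˢ Icc 1 NB) ×ˢ (Icc 1 NC ×ˢ Icc 1 ND) := ⟨_, rfl⟩
  rw [← hT] at h1 h2 h3' ⊢
  obtain ⟨cc, hcc⟩ : ∃ cc : (ℕ × ℕ) × (ℕ × ℕ) → ℝ, ∀ q, cc q =
    co x δ P q.1.1 * co x δ Q q.1.2 * co x δ R q.2.1 * co x δ S q.2.2 := ⟨_, fun _ => rfl⟩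
  obtain ⟨ct, hct⟩ : ∃ ct : (ℕ × ℕ) × (ℕ × ℕ) → ℝ, ∀ q, ct q =
    (((Ioc X1 X2).filter (fun N => N ≡ r [MOD q0] ∧ q.1.1 * q.1.2 ∣ N + h ∧
            q.2.1 * q.2.2 ∣ N + h')).card : ℝ) := ⟨_, fun _ => rfl⟩
  obtain ⟨Z, hZ⟩ : ∃ Z : (ℕ × ℕ) × (ℕ × ℕ) → Prop, ∀ q, Z q =
    cnd q0 κ q.1.1 q.1.2 q.2.1 q.2.2 := ⟨_, fun _ => rfl⟩
  have hcc0 : ∀ q, 0 ≤ cc q := by
    intro q
    rw [hcc]
    have := co_nonneg x δ P q.1.1
    have := co_nonneg x δ Q q.1.2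
    have := co_nonneg x δ R q.2.1
    have := co_nonneg x δ S q.2.2
    positivity
  have hct0 : ∀ q, 0 ≤ ct q := by
    intro q
    rw [hct]
    positivity
  simp only [← hcc, ← hct, ← hZ] at h1 h2 h3' ⊢
  have hkey : ∀ q ∈ T, (if Nat.Coprime q.1.1 q.1.2 ∧ Nat.Coprime q.2.1 q.2.2 then
      cc q * ct q else 0) = (if Z q then cc q * ct q else 0) -
        (if Z q ∧ ¬ Nat.Coprime q.1.1 q.1.2 then cc q * ct q else 0) := by
    intro q _
    by_cases hc0 : cc q * ct q = 0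
    · rw [hc0]
      simp
    have hcq : cc q ≠ 0 := left_ne_zero_of_mul hc0
    have hctq : ct q ≠ 0 := right_ne_zero_of_mul hc0
    have hcq' := hcq
    rw [hcc] at hcq'
    obtain ⟨hr, hse, hsf⟩ := hrough _ _ _ _ hcq'
    by_cases hab : Nat.Coprime q.1.1 q.1.2
    · by_cases hef : Nat.Coprime q.2.1 q.2.2
      · have hcop : Nat.Coprime (q.1.1 * q.1.2) (q.2.1 * q.2.2) := by
          by_contra hn
          obtain ⟨p, hp, hp1, hp2⟩ := Nat.Prime.not_coprime_iff_dvd.1 hn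
          rw [hct, Nat.cast_ne_zero, Finset.card_ne_zero] at hctq
          obtain ⟨N, hN⟩ := hctq
          obtain ⟨-, -, h5, h6⟩ := Finset.mem_filter.1 hN
          have h7 : (p : ℤ) ∣ ((N + h : ℕ) : ℤ) := by exact_mod_cast hp1.trans h5
          have h8 : (p : ℤ) ∣ ((N + h' : ℕ) : ℤ) := by exact_mod_cast hp2.trans h6
          have h9 : (p : ℤ) ∣ (h : ℤ) - h' := by
            have := dvd_sub h7 h8
            push_cast at this
            have e : (N : ℤ) + h - (N + h') = h - h' := by ring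
            rwa [e] at this
          have h10 : p ∣ κ := by
            rw [hκ]
            exact Int.natCast_dvd.1 h9
          have h11 : (p : ℝ) ≤ κ := by exact_mod_cast Nat.le_of_dvd hκ0 h10
          have h12 := hr p hp (by
            rw [mul_assoc (q.1.1 * q.1.2)]
            exact hp1.mul_right _)
          linarith
        have hz : Z q := by
          rw [hZ]
          exact pp_cnd (x ^ a0) q0 κ _ _ _ _ hq0 hq hκ0 hκy hr hcop hef hse hsf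
        rw [if_pos ⟨hab, hef⟩, if_pos hz, if_neg (fun h => h.2 hab), sub_zero]
      · have hz : ¬ Z q := by
          rw [hZ]
          intro h
          exact hef (Nat.coprime_of_squarefree_mul h.2.2.2)
        rw [if_neg (fun h => hef h.2), if_neg hz, if_neg (fun h => hz h.1), sub_zero]
    · rw [if_neg (fun h => hab h.1)]
      by_cases hz : Z q
      · rw [if_pos hz, if_pos ⟨hz, hab⟩, sub_self]
      · rw [if_neg hz, if_neg (fun h => hz h.1), sub_self]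
  rw [Finset.sum_congr rfl hkey, Finset.sum_sub_distrib]
  have hE2 : ∑ q ∈ T, (if Z q ∧ ¬ Nat.Coprime q.1.1 q.1.2 then cc q * ct q else 0) ≤ E2 := by
    refine le_trans (Finset.sum_le_sum fun q _ => ?_) h2
    by_cases hab : Nat.Coprime q.1.1 q.1.2
    · rw [if_neg (fun h => h.2 hab), if_neg (not_not.2 hab)]
    · rw [if_pos hab]
      have h5 : ct q ≤ (((Ioc X1 X2).filter
          (fun N => q.1.1 * q.1.2 ∣ N + h ∧ q.2.1 * q.2.2 ∣ N + h')).card : ℝ) := by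
        rw [hct, Nat.cast_le]
        refine Finset.card_le_card fun N hN => ?_
        rw [Finset.mem_filter] at hN ⊢
        exact ⟨hN.1, hN.2.2⟩
      by_cases hz : Z q
      · rw [if_pos ⟨hz, hab⟩]
        exact mul_le_mul_of_nonneg_left h5 (hcc0 q)
      · rw [if_neg (fun h => hz h.1)]
        exact mul_nonneg (hcc0 q) ((hct0 q).trans h5)
  have hE20 : 0 ≤ ∑ q ∈ T, (if Z q ∧ ¬ Nat.Coprime q.1.1 q.1.2 then cc q * ct q else 0) := by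
    refine Finset.sum_nonneg fun q _ => ?_
    split_ifs
    · exact mul_nonneg (hcc0 q) (hct0 q)
    · exact le_rfl
  have hq0r : (0 : ℝ) < q0 := by exact_mod_cast hq0
  have hXr : 0 ≤ ((X2 : ℝ) - X1) / q0 := by
    have : (X1 : ℝ) ≤ X2 := by exact_mod_cast hX
    have : 0 ≤ (X2 : ℝ) - X1 := by linarith
    positivity
  have hsplit : ∑ q ∈ T, (if Z q then cc q * ct q else 0) =
      ∑ q ∈ T, (if Z q then cc q * (ct q - ((X2 : ℝ) - X1) /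
        ((q0 : ℝ) * q.1.1 * q.1.2 * q.2.1 * q.2.2)) else 0) +
      ((X2 : ℝ) - X1) / q0 * ∑ q ∈ T, (if Z q then cc q *
        (1 / ((q.1.1 : ℝ) * q.1.2 * q.2.1 * q.2.2)) else 0) := by
    rw [Finset.mul_sum, ← Finset.sum_add_distrib]
    refine Finset.sum_congr rfl fun q _ => ?_
    by_cases hz : Z q
    · rw [if_pos hz, if_pos hz, if_pos hz]
      have e : ((X2 : ℝ) - X1) / ((q0 : ℝ) * q.1.1 * q.1.2 * q.2.1 * q.2.2) =
          ((X2 : ℝ) - X1) / q0 * (1 / ((q.1.1 : ℝ) * q.1.2 * q.2.1 * q.2.2)) := by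
        rw [div_mul_div_comm, mul_one]
        congr 1
        ring
      rw [e]
      ring
    · rw [if_neg hz, if_neg hz, if_neg hz, mul_zero, add_zero]
  rw [hsplit, List.map_append, List.map_append, List.prod_append, List.prod_append]
  obtain ⟨s1, hs1⟩ : ∃ s1, s1 = ∑ q ∈ T, (if Z q then cc q * (ct q - ((X2 : ℝ) - X1) /
        ((q0 : ℝ) * q.1.1 * q.1.2 * q.2.1 * q.2.2)) else 0) := ⟨_, rfl⟩
  obtain ⟨s2, hs2⟩ : ∃ s2, s2 = ∑ q ∈ T,
    (if Z q ∧ ¬ Nat.Coprime q.1.1 q.1.2 then cc q * ct q else 0) := ⟨_, rfl⟩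
  obtain ⟨s3, hs3⟩ : ∃ s3, s3 = ∑ q ∈ T, (if Z q then cc q *
        (1 / ((q.1.1 : ℝ) * q.1.2 * q.2.1 * q.2.2)) else 0) := ⟨_, rfl⟩
  rw [← hs1] at h1 ⊢
  rw [← hs2] at hE2 hE20 ⊢
  rw [← hs3] at h3' ⊢
  obtain ⟨π, hπ⟩ : ∃ π, π = (P.map (ms x δ)).prod * (Q.map (ms x δ)).prod *
    (R.map (ms x δ)).prod * (S.map (ms x δ)).prod := ⟨_, rfl⟩
  have e2 : s1 + ((X2 : ℝ) - X1) / q0 * s3 - s2 - ((X2 : ℝ) - X1) / q0 *
      ((P.map (ms x δ)).prod * (Q.map (ms x δ)).prod *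
        ((R.map (ms x δ)).prod * (S.map (ms x δ)).prod)) =
      s1 - s2 + ((X2 : ℝ) - X1) / q0 * (s3 - π) := by
    rw [hπ]
    ring
  rw [← hπ] at h3'
  rw [e2]
  have h6 := abs_le.1 h1
  have h7 := abs_le.1 h3'
  have h8 := mul_le_mul_of_nonneg_left h7.1 hXr
  have h9 := mul_le_mul_of_nonneg_left h7.2 hXr
  rw [abs_le]
  constructor
  · linarith
  · linarith

end Pool.Agent.H11.PT
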