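import Pool.Agent.H11.PT.GwL
import Pool.Agent.H11.PT.Pair
import Pool.Agent.H11.PT.Triv

/-!
# [H11 PT GWP] Pair correlation of patterns with the weight `gw`

Proof.  `pat_pair` / `pat_triv` for every interval `(X1, X2] ⊆ (⌊√x⌋, Y]`, `Y ≤ x^(1+θ)`, with
`F N = [N ≡ r (q0)] mono .. * mono ..`, then `gw_layer`; `2 x^(1-c) ≤ x^(1-c/2)` for `x` large.
-/

namespace Pool.Agent.H11.PT

open Finset Filter Pool.Agent.H21.MT Pool.Agent.H89.P2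

/-- equidistribution of `F` in residue classes with the weight `gw`: `F = F x N` -/
def EqD (F : ℝ → ℕ → ℕ → ℕ → ℝ) (A : ℝ → ℝ) : Prop :=
  ∃ c θ : ℝ, 0 < c ∧ 0 < θ ∧ ∀ᶠ x : ℝ in atTop, ∀ (Y q0 h h' r : ℕ), ⌊x⌋₊ ≤ Y →
    (Y : ℝ) ≤ x ^ (1 + θ) → 0 < q0 → (q0 : ℝ) ≤ x ^ c → (h : ℝ) ≤ x ^ c → (h' : ℝ) ≤ x ^ c →
    h ≠ h' →
    |∑ N ∈ (Ioc ⌊Real.sqrt x⌋₊ Y).filter (fun N => N ≡ r [MOD q0]), gw x N * F x h h' N -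
      (∑ N ∈ Ioc ⌊Real.sqrt x⌋₊ Y, gw x N) / q0 * A x| ≤ x ^ (1 - c)

theorem eqd_of (F : ℝ → ℕ → ℕ → ℕ → ℝ) (A : ℝ → ℝ)
    (H : ∃ c θ x0 : ℝ, 0 < c ∧ 0 < θ ∧ ∀ x ≥ x0, ∀ (X1 X2 q0 h h' r : ℕ), X1 ≤ X2 →
      (X2 : ℝ) ≤ x ^ (1 + θ) →
      0 < q0 → (q0 : ℝ) ≤ x ^ c → (h : ℝ) ≤ x ^ c → (h' : ℝ) ≤ x ^ c → h ≠ h' →
      |∑ N ∈ (Ioc X1 X2).filter (fun N => N ≡ r [MOD q0]), F x h h' N -
        ((X2 : ℝ) - X1) / q0 * A x| ≤ x ^ (1 - c)) : EqD F A := by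
  obtain ⟨c, θ, x0, hc, hθ, H⟩ := H
  refine ⟨c / 2, θ, by linarith, hθ, ?_⟩
  have h2 : ∀ᶠ x : ℝ in atTop, 2 ≤ x ^ (c / 2) :=
    (tendsto_rpow_atTop (by linarith : 0 < c / 2)).eventually_ge_atTop 2
  filter_upwards [h2, eventually_ge_atTop x0, eventually_ge_atTop (1 : ℝ)] with x h2 hx0 hx1
  intro Y q0 h h' r hY hYθ hq hqc hh hh' hne
  have hx : 0 < x := by linarith
  have hle : x ^ (c / 2) ≤ x ^ c := Real.rpow_le_rpow_of_exponent_le hx1 (by linarith)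
  have hs : ⌊Real.sqrt x⌋₊ ≤ ⌊x⌋₊ := by
    apply Nat.floor_le_floor
    rw [Real.sqrt_le_left hx.le]
    nlinarith
  have key := gw_layer hx1 (fun N => if N ≡ r [MOD q0] then F x h h' N else 0) ⌊Real.sqrt x⌋₊ Y
    hs hY (A x / q0) (x ^ (1 - c)) ?_
  · have e1 : ∑ N ∈ (Ioc ⌊Real.sqrt x⌋₊ Y).filter (fun N => N ≡ r [MOD q0]),
        gw x N * F x h h' N = ∑ N ∈ Ioc ⌊Real.sqrt x⌋₊ Y,
          gw x N * (if N ≡ r [MOD q0] then F x h h' N else 0) := by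
      rw [sum_filter]
      refine sum_congr rfl fun N _ => ?_
      split_ifs <;> simp
    have e2 : (∑ N ∈ Ioc ⌊Real.sqrt x⌋₊ Y, gw x N) / q0 * A x =
        A x / q0 * ∑ N ∈ Ioc ⌊Real.sqrt x⌋₊ Y, gw x N := by ring
    rw [e1, e2]
    refine key.trans ?_
    have e3 : x ^ (1 - c / 2) = x ^ (1 - c) * x ^ (c / 2) := by
      rw [← Real.rpow_add hx]
      congr 1
      ring
    rw [e3]
    have : 0 < x ^ (1 - c) := Real.rpow_pos_of_pos hx _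
    nlinarith
  · intro X1 X2 _ h12 h2Y
    have h4 := H x hx0 X1 X2 q0 h h' r h12 (le_trans (by exact_mod_cast h2Y) hYθ) hq
      (hqc.trans hle) (hh.trans hle) (hh'.trans hle) hne
    rw [← sum_filter]
    have e2 : A x / q0 * ((X2 : ℝ) - X1) = ((X2 : ℝ) - X1) / q0 * A x := by ring
    rw [e2]
    exact h4

/-- stage 2 -/
theorem gw_pair (δ η a0 : ℝ) (hδ : 0 < δ) (hη : 0 < η) (hη1 : η ≤ 1 / 100) (ha0 : 0 < a0)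
    (ha1 : a0 ≤ 1 / 2) (P Q R S : List ℕ)
    (hP : ∀ j ∈ P, a0 ≤ (j : ℝ) * δ) (hQ : ∀ j ∈ Q, a0 ≤ (j : ℝ) * δ)
    (hR : ∀ j ∈ R, a0 ≤ (j : ℝ) * δ) (hS : ∀ j ∈ S, a0 ≤ (j : ℝ) * δ)
    (sP : (size P : ℝ) * δ ≤ 1 / 2 - η) (sQ : (size Q : ℝ) * δ ≤ 1 / 20 - η)
    (sR : (size R : ℝ) * δ ≤ 1 / 2 - η) (sS : (size S : ℝ) * δ ≤ 1 / 20 - η) :
    EqD (fun x h h' N => mono (P ++ Q) (kk x δ (N + h)) * mono (R ++ S) (kk x δ (N + h')))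
      (fun x => ((P ++ Q).map (ms x δ)).prod * ((R ++ S).map (ms x δ)).prod) := by
  apply eqd_of
  exact pat_pair δ η a0 hδ hη hη1 ha0 ha1 P Q R S hP hQ hR hS sP sQ sR sS

/-- stage 1 -/
theorem gw_triv (δ η a0 : ℝ) (hδ : 0 < δ) (hη : 0 < η) (ha0 : 0 < a0)
    (ha1 : a0 ≤ 1 / 2) (P R : List ℕ)
    (hP : ∀ j ∈ P, a0 ≤ (j : ℝ) * δ) (hR : ∀ j ∈ R, a0 ≤ (j : ℝ) * δ)
    (sP : ((size P + size R : ℕ) : ℝ) * δ ≤ 1 - η) :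
    EqD (fun x h h' N => mono P (kk x δ (N + h)) * mono R (kk x δ (N + h')))
      (fun x => (P.map (ms x δ)).prod * (R.map (ms x δ)).prod) := by
  apply eqd_of
  exact pat_triv δ η a0 hδ hη ha0 ha1 P R hP hR sP

end Pool.Agent.H11.PT
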