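import Mathlib

/-!
# [H11 PT LAY] Unimodal weights by Abel summation (proved)
-/

namespace Pool.Agent.H11.PT

open Finset

theorem abel_down (w G : ℕ → ℝ) (m : ℕ) : ∀ Y, m < Y →
    ∑ N ∈ Ioc m Y, w N * G N = w Y * (∑ N ∈ Ioc m Y, G N) +
      ∑ n ∈ Ico (m + 1) Y, (w n - w (n + 1)) * ∑ N ∈ Ioc m n, G N := by
  intro Y hY
  induction Y with
  | zero => omega
  | succ Y ih =>
    rcases Nat.lt_or_ge m Y with h | h
    · rw [Finset.sum_Ioc_succ_top (by omega), Finset.sum_Ioc_succ_top (by omega),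
        Finset.sum_Ico_succ_top (by omega), ih h]
      ring
    · have : m = Y := by omega
      subst this
      simp

theorem abel_up (w G : ℕ → ℝ) (m : ℕ) : ∀ k, k < m →
    ∑ N ∈ Ioc (m - 1 - k) m, w N * G N = w (m - k) * (∑ N ∈ Ioc (m - 1 - k) m, G N) +
      ∑ n ∈ Ico (m - k) m, (w (n + 1) - w n) * ∑ N ∈ Ioc n m, G N := by
  intro k
  induction k with
  | zero =>
    intro h
    obtain ⟨n, rfl⟩ : ∃ n, m = n + 1 := ⟨m - 1, by omega⟩
    simp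
  | succ k ih =>
    intro h
    obtain ⟨n, rfl⟩ : ∃ n, m = n + k + 2 := ⟨m - k - 2, by omega⟩
    have e1 : n + k + 2 - 1 - (k + 1) = n := by omega
    have e2 : n + k + 2 - 1 - k = n + 1 := by omega
    have e3 : n + k + 2 - (k + 1) = n + 1 := by omega
    have e4 : n + k + 2 - k = n + 2 := by omega
    have h1 := ih (by omega)
    rw [e2, e4] at h1
    rw [e1, e3]
    have e5 : ∀ f : ℕ → ℝ, ∑ N ∈ Ioc n (n + k + 2), f N =
        f (n + 1) + ∑ N ∈ Ioc (n + 1) (n + k + 2), f N := by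
      intro f
      have : Ioc n (n + k + 2) = insert (n + 1) (Ioc (n + 1) (n + k + 2)) := by
        ext a
        simp only [mem_Ioc, mem_insert]
        omega
      rw [this, sum_insert (by simp)]
    have e6 : ∀ f : ℕ → ℝ, ∑ N ∈ Ico (n + 1) (n + k + 2), f N =
        f (n + 1) + ∑ N ∈ Ico (n + 2) (n + k + 2), f N := by
      intro f
      have : Ico (n + 1) (n + k + 2) = insert (n + 1) (Ico (n + 2) (n + k + 2)) := by
        ext a
        simp only [mem_Ico, mem_insert]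
        omega
      rw [this, sum_insert (by simp)]
    rw [e5, e5 G, h1, e6]
    ring

theorem down_le (w G : ℕ → ℝ) (m Y : ℕ) (hmY : m ≤ Y) (hw0 : ∀ n, 0 ≤ w n) (hw1 : ∀ n, w n ≤ 1)
    (hdn : ∀ n, m < n → n < Y → w (n + 1) ≤ w n) (E : ℝ)
    (hE : ∀ X2, m ≤ X2 → X2 ≤ Y → |∑ N ∈ Ioc m X2, G N| ≤ E) :
    |∑ N ∈ Ioc m Y, w N * G N| ≤ E := by
  have hE0 : 0 ≤ E := le_trans (abs_nonneg _) (hE m le_rfl hmY)
  rcases Nat.eq_or_lt_of_le hmY with h | h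
  · subst h
    simpa using hE0
  rw [abel_down w G m Y h]
  have h1 : |w Y * ∑ N ∈ Ioc m Y, G N| ≤ w Y * E := by
    rw [abs_mul, abs_of_nonneg (hw0 Y)]
    exact mul_le_mul_of_nonneg_left (hE Y hmY le_rfl) (hw0 Y)
  have h2 : |∑ n ∈ Ico (m + 1) Y, (w n - w (n + 1)) * ∑ N ∈ Ioc m n, G N| ≤
      ∑ n ∈ Ico (m + 1) Y, (w n - w (n + 1)) * E := by
    refine (abs_sum_le_sum_abs _ _).trans (sum_le_sum fun n hn => ?_)
    rw [mem_Ico] at hn
    have h3 : 0 ≤ w n - w (n + 1) := by linarith [hdn n (by omega) hn.2]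
    rw [abs_mul, abs_of_nonneg h3]
    exact mul_le_mul_of_nonneg_left (hE n (by omega) (by omega)) h3
  have h4 : ∑ n ∈ Ico (m + 1) Y, (w n - w (n + 1)) * E = (w (m + 1) - w Y) * E := by
    rw [← sum_mul]
    congr 1
    have h5 := Finset.sum_Ico_sub w (show m + 1 ≤ Y by omega)
    have h6 : ∑ n ∈ Ico (m + 1) Y, (w n - w (n + 1)) =
        - ∑ n ∈ Ico (m + 1) Y, (w (n + 1) - w n) := by
      rw [← sum_neg_distrib]
      exact sum_congr rfl fun n _ => by ring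
    rw [h6, h5]
    ring
  calc _ ≤ _ := abs_add_le _ _
    _ ≤ w Y * E + (w (m + 1) - w Y) * E := by rw [← h4]; exact add_le_add h1 h2
    _ = w (m + 1) * E := by ring
    _ ≤ 1 * E := mul_le_mul_of_nonneg_right (hw1 _) hE0
    _ = E := one_mul E

theorem up_le (w G : ℕ → ℝ) (Y0 m : ℕ) (hm : Y0 ≤ m) (hw0 : ∀ n, 0 ≤ w n) (hw1 : ∀ n, w n ≤ 1)
    (hup : ∀ n, Y0 < n → n < m → w n ≤ w (n + 1)) (E : ℝ)
    (hE : ∀ X1, Y0 ≤ X1 → X1 ≤ m → |∑ N ∈ Ioc X1 m, G N| ≤ E) :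
    |∑ N ∈ Ioc Y0 m, w N * G N| ≤ E := by
  have hE0 : 0 ≤ E := le_trans (abs_nonneg _) (hE m hm le_rfl)
  rcases Nat.eq_or_lt_of_le hm with h | h
  · subst h
    simpa using hE0
  obtain ⟨k, hk, rfl⟩ : ∃ k, k < m ∧ Y0 = m - 1 - k := ⟨m - 1 - Y0, by omega, by omega⟩
  rw [abel_up w G m k hk]
  have h1 : |w (m - k) * ∑ N ∈ Ioc (m - 1 - k) m, G N| ≤ w (m - k) * E := by
    rw [abs_mul, abs_of_nonneg (hw0 _)]
    exact mul_le_mul_of_nonneg_left (hE _ le_rfl hm) (hw0 _)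
  have h2 : |∑ n ∈ Ico (m - k) m, (w (n + 1) - w n) * ∑ N ∈ Ioc n m, G N| ≤
      ∑ n ∈ Ico (m - k) m, (w (n + 1) - w n) * E := by
    refine (abs_sum_le_sum_abs _ _).trans (sum_le_sum fun n hn => ?_)
    rw [mem_Ico] at hn
    have h3 : 0 ≤ w (n + 1) - w n := by linarith [hup n (by omega) hn.2]
    rw [abs_mul, abs_of_nonneg h3]
    exact mul_le_mul_of_nonneg_left (hE n (by omega) (by omega)) h3
  have h4 : ∑ n ∈ Ico (m - k) m, (w (n + 1) - w n) * E = (w m - w (m - k)) * E := by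
    rw [← sum_mul, Finset.sum_Ico_sub w (show m - k ≤ m by omega)]
  calc _ ≤ _ := abs_add_le _ _
    _ ≤ w (m - k) * E + (w m - w (m - k)) * E := by rw [← h4]; exact add_le_add h1 h2
    _ = w m * E := by ring
    _ ≤ 1 * E := mul_le_mul_of_nonneg_right (hw1 _) hE0
    _ = E := one_mul E

/-- unimodal weights -/
theorem layer (w F : ℕ → ℝ) (Y0 m Y : ℕ) (hm : Y0 ≤ m) (hmY : m ≤ Y) (hw0 : ∀ n, 0 ≤ w n)
    (hw1 : ∀ n, w n ≤ 1) (hup : ∀ n, Y0 < n → n < m → w n ≤ w (n + 1))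
    (hdn : ∀ n, m < n → n < Y → w (n + 1) ≤ w n) (A E : ℝ)
    (hE : ∀ X1 X2, Y0 ≤ X1 → X1 ≤ X2 → X2 ≤ Y →
      |∑ N ∈ Ioc X1 X2, F N - A * ((X2 : ℝ) - X1)| ≤ E) :
    |∑ N ∈ Ioc Y0 Y, w N * F N - A * ∑ N ∈ Ioc Y0 Y, w N| ≤ 2 * E := by
  have key : ∀ X1 X2, Y0 ≤ X1 → X1 ≤ X2 → X2 ≤ Y → |∑ N ∈ Ioc X1 X2, (F N - A)| ≤ E := by
    intro X1 X2 h1 h2 h3
    have h4 := hE X1 X2 h1 h2 h3
    have h5 : ∑ N ∈ Ioc X1 X2, (F N - A) = ∑ N ∈ Ioc X1 X2, F N - A * ((X2 : ℝ) - X1) := by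
      rw [sum_sub_distrib, sum_const, Nat.card_Ioc, nsmul_eq_mul, Nat.cast_sub h2]
      ring
    rw [h5]
    exact h4
  have h1 : ∑ N ∈ Ioc Y0 Y, w N * F N - A * ∑ N ∈ Ioc Y0 Y, w N =
      ∑ N ∈ Ioc Y0 m, w N * (F N - A) + ∑ N ∈ Ioc m Y, w N * (F N - A) := by
    have hu : Ioc Y0 Y = Ioc Y0 m ∪ Ioc m Y := by
      ext a
      simp only [mem_union, mem_Ioc]
      omega
    have hd : Disjoint (Ioc Y0 m) (Ioc m Y) := by
      rw [Finset.disjoint_left]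
      intro a ha hb
      rw [mem_Ioc] at ha hb
      omega
    rw [← sum_union hd, ← hu, mul_sum, ← sum_sub_distrib]
    exact sum_congr rfl fun n _ => by ring
  rw [h1]
  have h2 := up_le w (fun n => F n - A) Y0 m hm hw0 hw1 hup E
    (fun X1 h3 h4 => key X1 m h3 h4 hmY)
  have h3 := down_le w (fun n => F n - A) m Y hmY hw0 hw1 hdn E
    (fun X2 h3 h4 => key m X2 hm h3 h4)
  calc _ ≤ _ := abs_add_le _ _
    _ ≤ E + E := add_le_add h2 h3
    _ = 2 * E := by ring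

end Pool.Agent.H11.PT
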