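import Pool.Agent.H11.PT.Defs

/-!
# [H11 PT MON] Monomials as sums over divisors

Proof.  `x > 1`, `δ > 0`: the boxes are pairwise disjoint (`[x^(jδ), x^((j+1)δ))`).
`mono_card`: an injective tuple `t` with `t i ∈ cell (P_i)`, `t i ∣ n` is, for every `j` occurring in `P`, an
injective choice of `P.count j` elements of the `kk n j` primes of box `j` dividing `n` (different boxes are
disjoint, so injectivity is injectivity inside each box): `∏_j descFactorial (kk n j) (P.count j)`.
(Convenient: induction on `P`: the number of injective tuples for `m :: P` is, for each injective tuple `t` of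
`P`, the number `kk n m - P.count m` of the primes of box `m` dividing `n` not used; `mono (m :: P) k =
(k m - P.count m) * mono P k` with truncated subtraction, `Nat.descFactorial_succ`, both sides vanish together.)
`mono_sum`: distinct primes dividing `n` iff the product divides `n` (`Finset.prod_primes_dvd`,
`Nat.Coprime.prod_dvd`...), sort by the product `a`; all products are `≤ N` when `N ≥ x^(δ size P)`.
`mono_append`: an injective tuple of pattern `P ++ Q` is a pair of injective tuples with disjoint ranges, i.e.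
with coprime products `a`, `b`; all its entries divide `n` iff `a * b ∣ n`.
-/

namespace Pool.Agent.H11.PT

open Finset Pool.Agent.H89.P2

theorem cell_prime {x δ : ℝ} {j p : ℕ} (h : p ∈ cell x δ j) : p.Prime := by
  unfold cell at h
  exact (Finset.mem_filter.1 h).2.1

theorem cell_lo {x δ : ℝ} {j p : ℕ} (h : p ∈ cell x δ j) : x ^ ((j : ℝ) * δ) ≤ (p : ℝ) := by
  unfold cell at h
  exact (Finset.mem_filter.1 h).2.2

theorem cell_hi {x δ : ℝ} {j p : ℕ} (h : p ∈ cell x δ j) :
    (p : ℝ) < x ^ (((j : ℝ) + 1) * δ) := by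
  unfold cell at h
  exact Nat.lt_ceil.1 (Finset.mem_range.1 (Finset.mem_filter.1 h).1)

theorem cell_disj {x δ : ℝ} (hx : 1 < x) (hδ : 0 < δ) {i j : ℕ} (h : i ≠ j) :
    Disjoint (cell x δ i) (cell x δ j) := by
  have key : ∀ i j : ℕ, i < j → ∀ p, p ∈ cell x δ i → p ∉ cell x δ j := by
    intro i j hij p h1 h2
    have h3 := cell_hi h1
    have h4 := cell_lo h2
    have h5 : x ^ (((i : ℝ) + 1) * δ) ≤ x ^ ((j : ℝ) * δ) := by
      apply Real.rpow_le_rpow_of_exponent_le hx.le
      apply mul_le_mul_of_nonneg_right _ hδ.le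
      exact_mod_cast hij
    linarith
  rw [Finset.disjoint_left]
  intro p h1 h2
  rcases lt_or_gt_of_ne h with h3 | h3
  · exact key i j h3 p h1 h2
  · exact key j i h3 p h2 h1

open Classical in
private noncomputable def TT (C : ℕ → Finset ℕ) (P : List ℕ) : Finset (Fin P.length → ℕ) :=
  (Fintype.piFinset fun i => C (P.get i)).filter Function.Injective

private def DD (k f : ℕ → ℕ) : List ℕ → ℕ
  | [] => 1
  | m :: P => (k m - f m - P.count m) * DD k f P

private theorem mon_cnt (P : List ℕ) (m : ℕ) :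
    (univ.filter (fun i : Fin P.length => P.get i = m)).card = P.count m := by
  induction P with
  | nil => simp
  | cons a P ih =>
    rw [Finset.card_filter] at ih ⊢
    have h1 : ∑ i : Fin (a :: P).length, (if (a :: P).get i = m then 1 else 0) =
        (if a = m then 1 else 0) + ∑ i : Fin P.length, (if P.get i = m then 1 else 0) := by
      exact Fin.sum_univ_succ (n := P.length) (fun i : Fin (P.length + 1) =>
        if (a :: P).get i = m then 1 else 0)
    rw [h1, ih, List.count_cons]
    by_cases h : a = m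
    · simp [h, add_comm]
    · simp [h]

private theorem mon_mem {C : ℕ → Finset ℕ} {P : List ℕ} {t : Fin P.length → ℕ} :
    t ∈ TT C P ↔ (∀ i, t i ∈ C (P.get i)) ∧ Function.Injective t := by
  unfold TT
  rw [Finset.mem_filter, Fintype.mem_piFinset]

private theorem mon_I {C : ℕ → Finset ℕ} (hC : ∀ i j, i ≠ j → Disjoint (C i) (C j))
    {P : List ℕ} {t : Fin P.length → ℕ} (ht : t ∈ TT C P) (m : ℕ) :
    (C m ∩ univ.image t).card = P.count m := by
  obtain ⟨h1, h2⟩ := mon_mem.1 ht
  rw [← mon_cnt P m]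
  have h3 : C m ∩ univ.image t = (univ.filter (fun i : Fin P.length => P.get i = m)).image t := by
    ext y
    simp only [Finset.mem_inter, Finset.mem_image, Finset.mem_univ, true_and,
      Finset.mem_filter]
    constructor
    · rintro ⟨hy, i, rfl⟩
      refine ⟨i, ?_, rfl⟩
      by_contra hne
      exact Finset.disjoint_left.1 (hC _ _ hne) (h1 i) hy
    · rintro ⟨i, hi, rfl⟩
      refine ⟨?_, i, rfl⟩
      rw [← hi]
      exact h1 i
  rw [h3, Finset.card_image_of_injective _ h2]

private theorem mon_H {C : ℕ → Finset ℕ} (hC : ∀ i j, i ≠ j → Disjoint (C i) (C j))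
    (P : List ℕ) (F : Finset ℕ) :
    ((TT C P).filter (fun s => ∀ i, s i ∉ F)).card =
      DD (fun j => (C j).card) (fun j => (C j ∩ F).card) P := by
  classical
  induction P with
  | nil =>
    show _ = 1
    rw [Finset.card_eq_one]
    refine ⟨fun i => i.elim0, ?_⟩
    ext t
    rw [Finset.mem_singleton, Finset.mem_filter]
    constructor
    · intro _
      funext i
      exact i.elim0
    · rintro rfl
      exact ⟨mon_mem.2 ⟨fun i => i.elim0, fun i => i.elim0⟩, fun i => i.elim0⟩
  | cons m P ih =>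
    have h1 : ((TT C (m :: P)).filter (fun s => ∀ i, s i ∉ F)).card =
        (((TT C P).filter (fun s => ∀ i, s i ∉ F)).sigma
          (fun s => C m \ (F ∪ univ.image s))).card := by
      refine Finset.card_nbij'
        (fun t : Fin (P.length + 1) → ℕ => (⟨Fin.tail t, t 0⟩ : (_ : Fin P.length → ℕ) × ℕ))
        (fun s => (Fin.cons s.2 s.1 : Fin (P.length + 1) → ℕ)) ?_ ?_ ?_ ?_
      · intro t ht
        rw [Finset.mem_coe, Finset.mem_filter] at ht
        obtain ⟨ht, hF⟩ := ht
        obtain ⟨a1, a2⟩ := mon_mem.1 ht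
        rw [Finset.mem_coe, Finset.mem_sigma, Finset.mem_filter]
        refine ⟨⟨mon_mem.2 ⟨fun i => a1 (Fin.succ i), ?_⟩, fun i => hF (Fin.succ i)⟩, ?_⟩
        · exact a2.comp (Fin.succ_injective _)
        · rw [Finset.mem_sdiff, Finset.mem_union, not_or]
          refine ⟨a1 (0 : Fin (P.length + 1)), hF (0 : Fin (P.length + 1)), ?_⟩
          rw [Finset.mem_image]
          rintro ⟨i, -, hi⟩
          have h2 : (Fin.succ i) = (0 : Fin (P.length + 1)) := a2 hi
          exact Fin.succ_ne_zero i h2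
      · rintro ⟨s, y⟩ hs
        rw [Finset.mem_coe, Finset.mem_sigma, Finset.mem_filter] at hs
        obtain ⟨⟨hs, hF⟩, hy⟩ := hs
        obtain ⟨a1, a2⟩ := mon_mem.1 hs
        rw [Finset.mem_sdiff, Finset.mem_union, not_or] at hy
        obtain ⟨b1, b2, b3⟩ := hy
        rw [Finset.mem_coe, Finset.mem_filter]
        refine ⟨mon_mem.2 ⟨?_, ?_⟩, ?_⟩
        · intro i
          refine Fin.cases (n := P.length) ?_ ?_ i
          · exact b1
          · intro i
            exact a1 i
        · show Function.Injective (Fin.cons y s : Fin (P.length + 1) → ℕ)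
          rw [Fin.cons_injective_iff]
          refine ⟨?_, a2⟩
          rintro ⟨i, hi⟩
          exact b3 (Finset.mem_image.2 ⟨i, Finset.mem_univ _, hi⟩)
        · intro i
          refine Fin.cases (n := P.length) ?_ ?_ i
          · exact b2
          · intro i
            exact hF i
      · intro t _
        exact Fin.cons_self_tail t
      · rintro ⟨s, y⟩ _
        rfl
    have h2 : ∀ s ∈ (TT C P).filter (fun s => ∀ i, s i ∉ F),
        (C m \ (F ∪ univ.image s)).card = (C m).card - (C m ∩ F).card - P.count m := by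
      intro s hs
      rw [Finset.mem_filter] at hs
      rw [Finset.card_sdiff, Finset.inter_comm, Finset.inter_union_distrib_left,
        Finset.card_union_of_disjoint, mon_I hC hs.1, Nat.sub_add_eq]
      rw [Finset.disjoint_left]
      intro y hy1 hy2
      obtain ⟨-, hy3⟩ := Finset.mem_inter.1 hy1
      obtain ⟨-, hy4⟩ := Finset.mem_inter.1 hy2
      obtain ⟨i, -, rfl⟩ := Finset.mem_image.1 hy4
      exact hs.2 i hy3
    rw [h1, Finset.card_sigma, Finset.sum_congr rfl h2, Finset.sum_const, ih, smul_eq_mul,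
      mul_comm]
    rfl

private theorem mon_DD (k : ℕ → ℕ) (P : List ℕ) :
    mono P k = ((DD k (fun _ => 0) P : ℕ) : ℝ) := by
  have key : ∀ P : List ℕ, ∏ j ∈ P.toFinset, (k j).descFactorial (P.count j) =
      DD k (fun _ => 0) P := by
    intro P
    induction P with
    | nil => rfl
    | cons m P ih =>
      have h1 : ∏ j ∈ insert m P.toFinset, (k j).descFactorial (P.count j) =
          ∏ j ∈ P.toFinset, (k j).descFactorial (P.count j) := by
        symm
        apply Finset.prod_subset (Finset.subset_insert _ _)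
        intro j _ hj
        rw [List.mem_toFinset] at hj
        rw [List.count_eq_zero_of_not_mem hj, Nat.descFactorial_zero]
      rw [List.toFinset_cons, ← Finset.mul_prod_erase _ _ (Finset.mem_insert_self m P.toFinset)]
      have h2 : ∏ j ∈ (insert m P.toFinset).erase m, (k j).descFactorial ((m :: P).count j) =
          ∏ j ∈ (insert m P.toFinset).erase m, (k j).descFactorial (P.count j) := by
        refine Finset.prod_congr rfl fun j hj => ?_
        rw [List.count_cons_of_ne (Ne.symm (Finset.ne_of_mem_erase hj))]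
      rw [h2, List.count_cons_self, Nat.descFactorial_succ, mul_assoc,
        Finset.mul_prod_erase _ (fun j => (k j).descFactorial (P.count j))
          (Finset.mem_insert_self m P.toFinset), h1, ih]
      rfl
  unfold mono
  rw [← key]
  push_cast
  rfl

private theorem mon_DDapp (k : ℕ → ℕ) (P Q : List ℕ) :
    DD k (fun _ => 0) (P ++ Q) = DD k (fun j => Q.count j) P * DD k (fun _ => 0) Q := by
  induction P with
  | nil =>
    show DD k (fun _ => 0) Q = 1 * DD k (fun _ => 0) Q
    rw [one_mul]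
  | cons m P ih =>
    show (k m - 0 - (P ++ Q).count m) * DD k (fun _ => 0) (P ++ Q) =
      (k m - Q.count m - P.count m) * DD k (fun j => Q.count j) P * DD k (fun _ => 0) Q
    rw [ih, List.count_append, Nat.sub_zero, mul_assoc]
    congr 1
    omega

private theorem mon_card0 {C : ℕ → Finset ℕ} (hC : ∀ i j, i ≠ j → Disjoint (C i) (C j))
    (P : List ℕ) : (TT C P).card = DD (fun j => (C j).card) (fun _ => 0) P := by
  have h := mon_H hC P ∅
  have h1 : (TT C P).filter (fun s => ∀ i, s i ∉ (∅ : Finset ℕ)) = TT C P := by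
    apply Finset.filter_true_of_mem
    intro s _ i
    exact Finset.notMem_empty _
  rw [h1] at h
  rw [h]
  simp

private theorem mon_disj {x δ : ℝ} (hx : 1 < x) (hδ : 0 < δ) (n : ℕ) (i j : ℕ) (h : i ≠ j) :
    Disjoint ((cell x δ i).filter (· ∣ n)) ((cell x δ j).filter (· ∣ n)) :=
  Finset.disjoint_filter_filter (cell_disj hx hδ h)

open Classical in
private theorem mon_tp (x δ : ℝ) (P : List ℕ) (n : ℕ) :
    (tp x δ P).filter (fun t => ∀ i, t i ∣ n) = TT (fun j => (cell x δ j).filter (· ∣ n)) P := by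
  ext t
  rw [mon_mem, Finset.mem_filter]
  unfold tp
  rw [Finset.mem_filter, Fintype.mem_piFinset]
  simp only [Finset.mem_filter]
  constructor
  · rintro ⟨⟨h1, h2⟩, h3⟩
    exact ⟨fun i => ⟨h1 i, h3 i⟩, h2⟩
  · rintro ⟨h1, h2⟩
    exact ⟨⟨fun i => (h1 i).1, h2⟩, fun i => (h1 i).2⟩

open Classical in
theorem mono_card (x δ : ℝ) (hx : 1 < x) (hδ : 0 < δ) (P : List ℕ) (n : ℕ) :
    mono P (kk x δ n) = (((tp x δ P).filter (fun t => ∀ i, t i ∣ n)).card : ℝ) := by
  rw [mon_tp, mon_card0 (mon_disj hx hδ n), mon_DD]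
  rfl

/-- the product of a tuple is `< x^(δ size)` (`≤` for the empty pattern) -/
theorem prod_le (x δ : ℝ) (hx : 1 < x) (hδ : 0 < δ) (P : List ℕ) (t : Fin P.length → ℕ)
    (ht : t ∈ tp x δ P) : ((∏ i, t i : ℕ) : ℝ) ≤ x ^ ((size P : ℝ) * δ) := by
  unfold tp at ht
  rw [Finset.mem_filter, Fintype.mem_piFinset] at ht
  have hx0 : 0 < x := by linarith
  have h1 : ((∏ i, t i : ℕ) : ℝ) ≤ ∏ i : Fin P.length, x ^ (((P.get i : ℝ) + 1) * δ) := by
    push_cast
    exact Finset.prod_le_prod (fun i _ => Nat.cast_nonneg _) fun i _ => (cell_hi (ht.1 i)).le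
  refine h1.trans (le_of_eq ?_)
  rw [← Real.rpow_sum_of_pos hx0, ← Finset.sum_mul]
  congr 2
  have key : ∀ P : List ℕ, ∑ i : Fin P.length, ((P.get i : ℝ) + 1) = (size P : ℝ) := by
    intro P
    induction P with
    | nil => simp [size]
    | cons m P ih =>
      have h2 : ∑ i : Fin (m :: P).length, (((m :: P).get i : ℝ) + 1) =
          ((m : ℝ) + 1) + ∑ i : Fin P.length, ((P.get i : ℝ) + 1) :=
        Fin.sum_univ_succ (n := P.length) (fun i : Fin (P.length + 1) =>
          (((m :: P).get i : ℝ) + 1))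
      have h3 : size (m :: P) = (m + 1) + size P := by simp [size]
      rw [h2, ih, h3]
      push_cast
      ring
  exact key P

open Classical in
theorem mono_append (x δ : ℝ) (hx : 1 < x) (hδ : 0 < δ) (P Q : List ℕ) (n NA NB : ℕ)
    (hA : ⌊x ^ ((size P : ℝ) * δ)⌋₊ ≤ NA) (hB : ⌊x ^ ((size Q : ℝ) * δ)⌋₊ ≤ NB) :
    mono (P ++ Q) (kk x δ n) =
      ∑ a ∈ Icc 1 NA, ∑ b ∈ Icc 1 NB, if Nat.Coprime a b ∧ a * b ∣ n then
        co x δ P a * co x δ Q b else 0 := by
  have hT : ∀ (P : List ℕ) (N : ℕ), ⌊x ^ ((size P : ℝ) * δ)⌋₊ ≤ N → ∀ t ∈ tp x δ P,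
      (∏ i, t i) ∈ Icc 1 N := by
    intro P N hN t ht
    rw [Finset.mem_Icc]
    constructor
    · apply Nat.one_le_iff_ne_zero.2
      apply Finset.prod_ne_zero_iff.2
      intro i _
      have ht' := ht
      unfold tp at ht'
      rw [Finset.mem_filter, Fintype.mem_piFinset] at ht'
      exact (cell_prime (ht'.1 i)).ne_zero
    · exact (Nat.le_floor (prod_le x δ hx hδ P t ht)).trans hN
  have hco : ∀ (P : List ℕ) (a : ℕ), co x δ P a =
      ∑ t ∈ (tp x δ P).filter (fun t => ∏ i, t i = a), (1 : ℝ) := by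
    intro P a
    unfold co
    rw [Finset.sum_const, nsmul_eq_mul, mul_one]
  have hrhs : ∑ a ∈ Icc 1 NA, ∑ b ∈ Icc 1 NB, (if Nat.Coprime a b ∧ a * b ∣ n then
        co x δ P a * co x δ Q b else 0) =
      ∑ s ∈ tp x δ P, ∑ t ∈ tp x δ Q,
        (if Nat.Coprime (∏ i, s i) (∏ i, t i) ∧ (∏ i, s i) * (∏ i, t i) ∣ n then (1 : ℝ)
          else 0) := by
    rw [← Finset.sum_fiberwise_of_maps_to (hT P NA hA)]
    refine Finset.sum_congr rfl fun a _ => ?_
    have h1 : ∑ s ∈ (tp x δ P).filter (fun s => ∏ i, s i = a), ∑ t ∈ tp x δ Q,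
        (if Nat.Coprime (∏ i, s i) (∏ i, t i) ∧ (∏ i, s i) * (∏ i, t i) ∣ n then (1 : ℝ)
          else 0) =
        ∑ s ∈ (tp x δ P).filter (fun s => ∏ i, s i = a), ∑ b ∈ Icc 1 NB,
          ∑ t ∈ (tp x δ Q).filter (fun t => ∏ i, t i = b),
            (if Nat.Coprime a b ∧ a * b ∣ n then (1 : ℝ) else 0) := by
      refine Finset.sum_congr rfl fun s hs => ?_
      rw [← Finset.sum_fiberwise_of_maps_to (hT Q NB hB)]
      refine Finset.sum_congr rfl fun b _ => Finset.sum_congr rfl fun t ht => ?_
      rw [(Finset.mem_filter.1 hs).2, (Finset.mem_filter.1 ht).2]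
    rw [h1, Finset.sum_comm]
    refine Finset.sum_congr rfl fun b _ => ?_
    rw [hco, hco]
    split_ifs
    · rw [Finset.sum_mul_sum]
      simp
    · simp
  rw [hrhs]
  -- the conditions
  have hcond : ∀ s ∈ tp x δ P, ∀ t ∈ tp x δ Q,
      ((Nat.Coprime (∏ i, s i) (∏ i, t i) ∧ (∏ i, s i) * (∏ i, t i) ∣ n) ↔
        ((∀ i, s i ∣ n) ∧ (∀ i, t i ∣ n) ∧ ∀ i, s i ∉ univ.image t)) := by
    intro s hs t ht
    have hs' := hs
    have ht' := ht
    unfold tp at hs' ht'
    rw [Finset.mem_filter, Fintype.mem_piFinset] at hs' ht'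
    have ps : ∀ i, (s i).Prime := fun i => cell_prime (hs'.1 i)
    have pt : ∀ i, (t i).Prime := fun i => cell_prime (ht'.1 i)
    constructor
    · rintro ⟨h1, h2⟩
      refine ⟨fun i => ?_, fun i => ?_, fun i hi => ?_⟩
      · exact (Finset.dvd_prod_of_mem s (Finset.mem_univ i)).trans
          ((Dvd.intro _ rfl).trans h2)
      · exact (Finset.dvd_prod_of_mem t (Finset.mem_univ i)).trans
          ((Dvd.intro_left _ rfl).trans h2)
      · obtain ⟨j, -, hj⟩ := Finset.mem_image.1 hi
        have h3 := Nat.dvd_gcd (Finset.dvd_prod_of_mem s (Finset.mem_univ i))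
          (hj ▸ Finset.dvd_prod_of_mem t (Finset.mem_univ j))
        rw [h1] at h3
        exact (ps i).one_lt.ne' (Nat.dvd_one.1 h3)
    · rintro ⟨h1, h2, h3⟩
      have hpr : ∀ (R : List ℕ) (u : Fin R.length → ℕ), Function.Injective u →
          (∀ i, (u i).Prime) → (∀ i, u i ∣ n) → (∏ i, u i) ∣ n := by
        intro R u hu hp hd
        apply Finset.prod_dvd_of_isRelPrime
        · intro i _ j _ hij
          exact Nat.coprime_iff_isRelPrime.1 ((Nat.coprime_primes (hp i) (hp j)).2
            fun h => hij (hu h))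
        · intro i _
          exact hd i
      have h4 : Nat.Coprime (∏ i, s i) (∏ i, t i) := by
        apply Nat.Coprime.prod_left
        intro i _
        apply Nat.Coprime.prod_right
        intro j _
        rw [Nat.coprime_primes (ps i) (pt j)]
        intro h
        exact h3 i (Finset.mem_image.2 ⟨j, Finset.mem_univ _, h.symm⟩)
      exact ⟨h4, h4.mul_dvd_of_dvd_of_dvd (hpr P s hs'.2 ps h1) (hpr Q t ht'.2 pt h2)⟩
  have hstep : ∑ s ∈ tp x δ P, ∑ t ∈ tp x δ Q,
        (if Nat.Coprime (∏ i, s i) (∏ i, t i) ∧ (∏ i, s i) * (∏ i, t i) ∣ n then (1 : ℝ)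
          else 0) =
      ∑ t ∈ TT (fun j => (cell x δ j).filter (· ∣ n)) Q,
        (((TT (fun j => (cell x δ j).filter (· ∣ n)) P).filter
          (fun s => ∀ i, s i ∉ univ.image t)).card : ℝ) := by
    rw [Finset.sum_comm, ← mon_tp, ← mon_tp, Finset.sum_filter]
    refine Finset.sum_congr rfl fun t ht => ?_
    by_cases h : ∀ i, t i ∣ n
    · rw [if_pos h, Finset.filter_filter, Finset.card_filter]
      push_cast
      refine Finset.sum_congr rfl fun s hs => ?_
      have h1 := hcond s hs t ht
      by_cases h2 : (∀ i, s i ∣ n) ∧ ∀ i, s i ∉ univ.image t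
      · rw [if_pos (h1.2 ⟨h2.1, h, h2.2⟩), if_pos h2]
      · rw [if_neg (fun h3 => h2 ⟨(h1.1 h3).1, (h1.1 h3).2.2⟩), if_neg h2]
    · rw [if_neg h]
      refine Finset.sum_eq_zero fun s hs => ?_
      rw [if_neg]
      intro h3
      exact h ((hcond s hs t ht).1 h3).2.1
  rw [hstep]
  have hC := mon_disj hx hδ n
  have hconst : ∀ t ∈ TT (fun j => (cell x δ j).filter (· ∣ n)) Q,
      (((TT (fun j => (cell x δ j).filter (· ∣ n)) P).filter
          (fun s => ∀ i, s i ∉ univ.image t)).card : ℝ) =
        ((DD (kk x δ n) (fun j => Q.count j) P : ℕ) : ℝ) := by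
    intro t ht
    rw [mon_H hC P (univ.image t)]
    congr 2
    funext j
    exact mon_I hC ht j
  rw [Finset.sum_congr rfl hconst, Finset.sum_const, nsmul_eq_mul, mon_card0 hC Q, mon_DD,
    mon_DDapp]
  push_cast
  rw [mul_comm]
  rfl

end Pool.Agent.H11.PT
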