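import Pool.Agent.H11.PT.Nsq
import Pool.Agent.H11.PT.Mai
import Pool.Agent.H11.PT.PairAuxB

/-!
# [H11 PT TRIVB] Pair correlation of patterns, total level x^(1-η) (stage 1), uniform in the modulus q0

This replaces `pat_triv` (module `Triv`).

Proof.  With `Q = S = []`, `mono_append` for `P ++ []` and `R ++ []` (or directly
`mono_card`, `co`): the left sum is `∑_{a,e} co P a co R e #{N : N ≡ r (q0), a ∣ N+h, e ∣ N+h'}`; primes of `a, e`
are `≥ x^a0`, so do not divide `q0`, and `> x^c ≥ |h-h'| > 0` (`c < a0`), so the count vanishes unless `(a,e) = 1`, and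
then it is `X/(q0 a e) + O(1)` (one class modulo `q0 a e`).  Number of pairs `(a,e)`: `≤ x^(1-η)`
(`a ≤ x^(size P δ)`, `e ≤ x^(size R δ)`), coefficients `≤ (lengths)!`: total error
`C x^(1-η) ≤ x^(1-η/128)`.  Main term: `main_term` with `Q = S = []`, `Z = (a,e) = 1`: error
`(X/q0) C x^(-a0) ≤ C x^(1+θ-a0)/q0 ≤ x^(1-c)/q0`; `θ = a0/8`, `c = a0/4` (`x` large).
-/

namespace Pool.Agent.H11.PT

open Finset Pool.Agent.H89.P2

private theorem tvb_dvd (d h N : ℕ) (hd : 0 < d) : d ∣ N + h ↔ N ≡ d * h - h [MOD d] := by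
  have h1 : d * h - h + h = d * h := Nat.sub_add_cancel (Nat.le_mul_of_pos_left h hd)
  have h2 : d ∣ N + h ↔ N + h ≡ d * h - h + h [MOD d] := by
    rw [h1, ← Nat.modEq_zero_iff_dvd]
    have h3 : d * h ≡ 0 [MOD d] := (Nat.modEq_zero_iff_dvd).2 (dvd_mul_right d h)
    exact ⟨fun h => h.trans h3.symm, fun h => h.trans h3⟩
  rw [h2]
  exact ⟨fun h => Nat.ModEq.add_right_cancel' _ h, fun h => h.add_right _⟩

private theorem tvb_one (X1 X2 m c : ℕ) (hX : X1 ≤ X2) (hm : 0 < m) :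
    |(((Ioc X1 X2).filter (fun N => N ≡ c [MOD m])).card : ℝ) - ((X2 : ℝ) - X1) / m| ≤ 1 := by
  have h1 := Nat.Ioc_filter_modEq_card X1 X2 hm c
  have hmq : (0 : ℚ) < m := by exact_mod_cast hm
  have hXq : (X1 : ℚ) ≤ X2 := by exact_mod_cast hX
  have h2 : ⌊((X1 : ℚ) - c) / m⌋ ≤ ⌊((X2 : ℚ) - c) / m⌋ := by
    apply Int.floor_le_floor
    gcongr
  rw [max_eq_left (by omega)] at h1
  have h3 : (((Ioc X1 X2).filter (fun N => N ≡ c [MOD m])).card : ℚ) =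
      (⌊((X2 : ℚ) - c) / m⌋ : ℚ) - ⌊((X1 : ℚ) - c) / m⌋ := by exact_mod_cast h1
  have h4 := Int.floor_le (((X2 : ℚ) - c) / m)
  have h5 := Int.lt_floor_add_one (((X2 : ℚ) - c) / m)
  have h6 := Int.floor_le (((X1 : ℚ) - c) / m)
  have h7 := Int.lt_floor_add_one (((X1 : ℚ) - c) / m)
  have h8 : ((X2 : ℚ) - X1) / m = ((X2 : ℚ) - c) / m - ((X1 : ℚ) - c) / m := by ring
  have h9 : |(((Ioc X1 X2).filter (fun N => N ≡ c [MOD m])).card : ℚ) -
      ((X2 : ℚ) - X1) / m| ≤ 1 := by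
    rw [h3, h8, abs_le]
    constructor <;> linarith
  have h10 : ((|(((Ioc X1 X2).filter (fun N => N ≡ c [MOD m])).card : ℚ) -
      ((X2 : ℚ) - X1) / m| : ℚ) : ℝ) ≤ ((1 : ℚ) : ℝ) := by exact_mod_cast h9
  push_cast at h10
  exact h10

private theorem tvb_cnt (X1 X2 q0 d d' h h' r : ℕ) (hX : X1 ≤ X2) (hq : 0 < q0) (hd : 0 < d)
    (hd' : 0 < d') (c1 : Nat.Coprime q0 d) (c2 : Nat.Coprime (q0 * d) d') :
    |(((Ioc X1 X2).filter (fun N => N ≡ r [MOD q0] ∧ d ∣ N + h ∧ d' ∣ N + h')).card : ℝ) -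
      ((X2 : ℝ) - X1) / ((q0 : ℝ) * d * d')| ≤ 1 := by
  obtain ⟨k1, hk1, hk1'⟩ := Nat.chineseRemainder c1 r (d * h - h)
  obtain ⟨k2, hk2, hk2'⟩ := Nat.chineseRemainder c2 k1 (d' * h' - h')
  have h1 : ∀ N, (N ≡ r [MOD q0] ∧ d ∣ N + h ∧ d' ∣ N + h') ↔
      N ≡ k2 [MOD q0 * d * d'] := by
    intro N
    rw [tvb_dvd d h N hd, tvb_dvd d' h' N hd', ← Nat.modEq_and_modEq_iff_modEq_mul c2,
      ← Nat.modEq_and_modEq_iff_modEq_mul c1, and_assoc]
    have h2 := (Nat.modEq_and_modEq_iff_modEq_mul c1).2 hk2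
    constructor
    · rintro ⟨a1, a2, a3⟩
      exact ⟨(a1.trans hk1.symm).trans h2.1.symm, (a2.trans hk1'.symm).trans h2.2.symm,
        a3.trans hk2'.symm⟩
    · rintro ⟨a1, a2, a3⟩
      exact ⟨(a1.trans h2.1).trans hk1, (a2.trans h2.2).trans hk1', a3.trans hk2'⟩
  have h2 : (Ioc X1 X2).filter (fun N => N ≡ r [MOD q0] ∧ d ∣ N + h ∧ d' ∣ N + h') =
      (Ioc X1 X2).filter (fun N => N ≡ k2 [MOD q0 * d * d']) :=
    Finset.filter_congr fun N _ => h1 N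
  rw [h2]
  have h3 := tvb_one X1 X2 (q0 * d * d') k2 hX (by positivity)
  push_cast at h3
  exact h3

open Classical in
theorem pat_triv_b (δ η a0 : ℝ) (hδ : 0 < δ) (hη : 0 < η) (ha0 : 0 < a0)
    (ha1 : a0 ≤ 1 / 2) (P R : List ℕ)
    (hP : ∀ j ∈ P, a0 ≤ (j : ℝ) * δ) (hR : ∀ j ∈ R, a0 ≤ (j : ℝ) * δ)
    (sP : ((size P + size R : ℕ) : ℝ) * δ ≤ 1 - η) :
    ∃ c θ x0 : ℝ, 0 < c ∧ 0 < θ ∧ ∀ x ≥ x0, ∀ (X1 X2 q0 h h' r : ℕ), X1 ≤ X2 →
      (X2 : ℝ) ≤ x ^ (1 + θ) →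
      0 < q0 → (q0 : ℝ) ≤ x ^ (η / 64) → (∀ p : ℕ, p.Prime → p ∣ q0 → (p : ℝ) < x ^ a0) →
      (h : ℝ) ≤ x ^ c → (h' : ℝ) ≤ x ^ c → h ≠ h' →
      |∑ N ∈ (Ioc X1 X2).filter (fun N => N ≡ r [MOD q0]),
          mono P (kk x δ (N + h)) * mono R (kk x δ (N + h')) -
        ((X2 : ℝ) - X1) / q0 * ((P.map (ms x δ)).prod * (R.map (ms x δ)).prod)| ≤
      x ^ (1 - c) / q0 + x ^ (1 - η / 128) := by
  have hnil : ∀ j ∈ ([] : List ℕ), a0 ≤ (j : ℝ) * δ := by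
    intro j hj
    exact absurd hj List.not_mem_nil
  obtain ⟨C, x2, hC, hx2⟩ := main_term δ a0 hδ ha0 P [] R [] hP hnil hR hnil
  obtain ⟨Cc, hCc⟩ : ∃ Cc : ℝ, Cc = (P.length.factorial : ℝ) * (R.length.factorial : ℝ) :=
    ⟨_, rfl⟩
  have hCc0 : 0 < Cc := by
    rw [hCc]
    positivity
  have hev1 : ∀ᶠ x : ℝ in Filter.atTop, 2 * Cc + 2 * C ≤ x ^ (a0 / 4) :=
    (tendsto_rpow_atTop (by positivity)).eventually_ge_atTop _
  have hev2 : ∀ᶠ x : ℝ in Filter.atTop, 2 * Cc + 2 * C ≤ x ^ (η / 2) :=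
    (tendsto_rpow_atTop (by positivity)).eventually_ge_atTop _
  obtain ⟨x4, hx4⟩ := Filter.eventually_atTop.1 (hev1.and hev2)
  obtain ⟨c, hc⟩ : ∃ c : ℝ, c = min (η / 2) (a0 / 4) := ⟨_, rfl⟩
  have hc0 : 0 < c := by
    rw [hc]
    exact lt_min (by positivity) (by positivity)
  have hcη : c ≤ η / 2 := by
    rw [hc]
    exact min_le_left _ _
  have hca : c ≤ a0 / 4 := by
    rw [hc]
    exact min_le_right _ _
  refine ⟨c, a0 / 8, max (max x2 x4) 2, hc0, by positivity,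
    fun x hx X1 X2 q0 h h' r hX hX2 hq0 hqx hq hh hh' hhh => ?_⟩
  have hxx2 : x2 ≤ x := ((le_max_left _ _).trans (le_max_left _ _)).trans hx
  have hxx4 : x4 ≤ x := ((le_max_right _ _).trans (le_max_left _ _)).trans hx
  have hx2' : 2 ≤ x := (le_max_right _ _).trans hx
  have hx0 : 0 < x := by linarith
  have hx1' : 1 < x := by linarith
  obtain ⟨hk1, hk2⟩ := hx4 x hxx4
  have hmono : ∀ {s t : ℝ}, s ≤ t → x ^ s ≤ x ^ t := fun h =>
    Real.rpow_le_rpow_of_exponent_le hx1'.le h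
  have hxca : x ^ c < x ^ a0 := Real.rpow_lt_rpow_of_exponent_lt hx1' (by linarith)
  have hs0 : ⌊x ^ ((size ([] : List ℕ) : ℝ) * δ)⌋₊ ≤ 1 := by
    have : (size ([] : List ℕ) : ℝ) = 0 := by simp [size]
    rw [this, zero_mul, Real.rpow_zero, Nat.floor_one]
  obtain ⟨NA, hNA⟩ : ∃ NA : ℕ, NA = ⌊x ^ ((size P : ℝ) * δ)⌋₊ := ⟨_, rfl⟩
  obtain ⟨NC, hNC⟩ : ∃ NC : ℕ, NC = ⌊x ^ ((size R : ℝ) * δ)⌋₊ := ⟨_, rfl⟩
  have hco1 : ∀ b, |co x δ ([] : List ℕ) b| ≤ 1 := by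
    intro b
    rw [abs_of_nonneg (co_nonneg x δ [] b)]
    have := co_le x δ [] b
    simpa using this
  have h1 : |∑ a ∈ Icc 1 NA, ∑ b ∈ Icc 1 1, ∑ e ∈ Icc 1 NC, ∑ f ∈ Icc 1 1,
      if Pool.Agent.H11.PX.cnd q0 ((h : ℤ) - h').natAbs a b e f then
        co x δ P a * co x δ [] b * co x δ R e * co x δ [] f *
          ((((Ioc X1 X2).filter (fun N => N ≡ r [MOD q0] ∧ a * b ∣ N + h ∧
            e * f ∣ N + h')).card : ℝ) - ((X2 : ℝ) - X1) / ((q0 : ℝ) * a * b * e * f))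
      else 0| ≤ Cc * x ^ (1 - η) := by
    rw [pp_s4]
    refine (Finset.abs_sum_le_sum_abs _ _).trans ?_
    have h2 : ∀ q ∈ (Icc 1 NA ×ˢ Icc 1 1) ×ˢ (Icc 1 NC ×ˢ Icc 1 1),
        |(if Pool.Agent.H11.PX.cnd q0 ((h : ℤ) - h').natAbs q.1.1 q.1.2 q.2.1 q.2.2 then
        co x δ P q.1.1 * co x δ [] q.1.2 * co x δ R q.2.1 * co x δ [] q.2.2 *
          ((((Ioc X1 X2).filter (fun N => N ≡ r [MOD q0] ∧ q.1.1 * q.1.2 ∣ N + h ∧
            q.2.1 * q.2.2 ∣ N + h')).card : ℝ) -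
            ((X2 : ℝ) - X1) / ((q0 : ℝ) * q.1.1 * q.1.2 * q.2.1 * q.2.2))
      else 0)| ≤ Cc := by
      intro q hqm
      simp only [Finset.mem_product, Finset.mem_Icc] at hqm
      split_ifs with hcn
      · obtain ⟨n1, n2, n3, n4⟩ := hcn
        have n2' : Nat.Coprime (q.1.1 * q.1.2 * (q.2.1 * q.2.2)) q0 := by
          rw [← mul_assoc]
          exact n2
        have h3 := tvb_cnt X1 X2 q0 (q.1.1 * q.1.2) (q.2.1 * q.2.2) h h' r hX hq0
          (Nat.mul_pos (by omega) (by omega)) (Nat.mul_pos (by omega) (by omega))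
          (Nat.Coprime.coprime_mul_right n2').symm
          (Nat.Coprime.mul_left (Nat.Coprime.coprime_mul_left n2').symm n1)
        push_cast at h3
        have h4 : (q0 : ℝ) * (q.1.1 * q.1.2) * (q.2.1 * q.2.2) =
            (q0 : ℝ) * q.1.1 * q.1.2 * q.2.1 * q.2.2 := by ring
        rw [h4] at h3
        rw [abs_mul, abs_mul, abs_mul, abs_mul]
        have a1 : |co x δ P q.1.1| ≤ (P.length.factorial : ℝ) := by
          rw [abs_of_nonneg (co_nonneg x δ P _)]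
          exact co_le x δ P _
        have a2 : |co x δ R q.2.1| ≤ (R.length.factorial : ℝ) := by
          rw [abs_of_nonneg (co_nonneg x δ R _)]
          exact co_le x δ R _
        have a3 := hco1 q.1.2
        have a4 := hco1 q.2.2
        calc |co x δ P q.1.1| * |co x δ [] q.1.2| * |co x δ R q.2.1| * |co x δ [] q.2.2| * _ ≤
            (P.length.factorial : ℝ) * 1 * (R.length.factorial : ℝ) * 1 * 1 := by gcongr
          _ = Cc := by
            rw [hCc]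
            ring
      · rw [abs_zero]
        exact hCc0.le
    refine (Finset.sum_le_sum h2).trans ?_
    rw [Finset.sum_const, nsmul_eq_mul, mul_comm, Finset.card_product, Finset.card_product,
      Finset.card_product, Nat.card_Icc, Nat.card_Icc, Nat.card_Icc]
    refine mul_le_mul_of_nonneg_left ?_ hCc0.le
    have b1 : (NA : ℝ) ≤ x ^ ((size P : ℝ) * δ) := by
      rw [hNA]
      exact Nat.floor_le (by positivity)
    have b2 : (NC : ℝ) ≤ x ^ ((size R : ℝ) * δ) := by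
      rw [hNC]
      exact Nat.floor_le (by positivity)
    have b3 : ((((NA + 1 - 1) * (1 + 1 - 1)) * ((NC + 1 - 1) * (1 + 1 - 1)) : ℕ) : ℝ) =
        (NA : ℝ) * NC := by
      norm_num
    rw [b3]
    calc (NA : ℝ) * NC ≤ x ^ ((size P : ℝ) * δ) * x ^ ((size R : ℝ) * δ) := by gcongr
      _ = x ^ (((size P + size R : ℕ) : ℝ) * δ) := by
        rw [← Real.rpow_add hx0]
        congr 1
        push_cast
        ring
      _ ≤ x ^ (1 - η) := hmono sP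
  have h2 : ∑ a ∈ Icc 1 NA, ∑ b ∈ Icc 1 1, ∑ e ∈ Icc 1 NC, ∑ f ∈ Icc 1 1,
        (if ¬ Nat.Coprime a b then co x δ P a * co x δ [] b * co x δ R e * co x δ [] f *
          (((Ioc X1 X2).filter (fun N => N ≡ r [MOD q0] ∧ a * b ∣ N + h ∧
            e * f ∣ N + h')).card : ℝ) else 0) ≤
        0 := by
    refine le_of_eq (Finset.sum_eq_zero fun a _ => Finset.sum_eq_zero fun b hb =>
      Finset.sum_eq_zero fun e _ => Finset.sum_eq_zero fun f _ => ?_)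
    have hb1 : b = 1 := by
      rw [Finset.mem_Icc] at hb
      omega
    rw [if_neg]
    rw [hb1, not_not]
    exact Nat.coprime_one_right a
  have hfin := pp_split_b x δ a0 hx1' hδ P [] R [] hP hnil hR hnil X1 X2 q0 h h' r
    NA 1 NC 1 hX hq0 hhh
    hq (hh.trans_lt hxca) (hh'.trans_lt hxca)
    hNA.ge hs0 hNC.ge hs0
    (Cc * x ^ (1 - η)) 0 (C * x ^ (-a0)) h1 h2
    (fun Z hZ => hx2 x hxx2 NA 1 NC 1 Z hZ hNA.ge hs0 hNC.ge hs0)
  rw [List.append_nil, List.append_nil] at hfin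
  refine hfin.trans ?_
  have hq0R : (0 : ℝ) < q0 := by exact_mod_cast hq0
  have hX1' : (0 : ℝ) ≤ X1 := Nat.cast_nonneg _
  have hXle : (X2 : ℝ) - X1 ≤ x ^ (1 + a0 / 8) := by linarith
  have e1 : Cc * x ^ (1 - η) ≤ x ^ (1 - η / 128) := by
    have e2 : x ^ (1 - η / 128) = x ^ (η - η / 128) * x ^ (1 - η) := by
      rw [← Real.rpow_add hx0]
      congr 1
      ring
    have e3 : Cc ≤ x ^ (η - η / 128) := by
      refine le_trans ?_ (hk2.trans (hmono (by linarith)))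
      linarith
    have e4 : 0 < x ^ (1 - η) := by positivity
    rw [e2]
    exact mul_le_mul_of_nonneg_right e3 e4.le
  have e3 : x ^ (1 + a0 / 8) * (C * x ^ (-a0)) ≤ x ^ (1 - c) := by
    have e5 : x ^ (1 - c) = x ^ (7 * a0 / 8 - c) * (x ^ (1 + a0 / 8) * x ^ (-a0)) := by
      rw [← Real.rpow_add hx0, ← Real.rpow_add hx0]
      congr 1
      ring
    have e6 : C ≤ x ^ (7 * a0 / 8 - c) := by
      refine le_trans ?_ (hk1.trans (hmono (by linarith)))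
      linarith
    have e7 : 0 < x ^ (1 + a0 / 8) * x ^ (-a0) := by positivity
    rw [e5]
    have e8 := mul_le_mul_of_nonneg_right e6 e7.le
    linarith
  have e8 : ((X2 : ℝ) - X1) / q0 * (C * x ^ (-a0)) ≤
      x ^ (1 + a0 / 8) * (C * x ^ (-a0)) / q0 := by
    rw [div_mul_eq_mul_div]
    have : 0 ≤ C * x ^ (-a0) := by positivity
    gcongr
  have e9 : x ^ (1 + a0 / 8) * (C * x ^ (-a0)) / q0 ≤ x ^ (1 - c) / q0 := by
    gcongr
  linarith

end Pool.Agent.H11.PT
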